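import Mathlib
import Pool.Agent.H72.W.NXB
import Pool.Agent.H95.W.CoR
import Pool.Agent.H31.Sp.Poly

set_option autoImplicit false
open Finset

/-! # The arcs of the unit boundary edges of a window of helper54's class, in terms of the polyomino

Successor of `H31/Sp/Edge` for `H54.W.Win` (frame (V): rows, flat right wall) with helper95's `CoarseR`.
`aL Y` : arc at the left end of the row `Y` of cells, `aR Y` : arc at the right end (one arc if `D.FlatR`, see
`Arc`), `aB`, `aT` : arcs of the bottom and of the top. `vA X Y`, `hA X Y` : arc of the vertical edge from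
`(X, Y)` to `(X, Y + 1)` and of the horizontal edge from `(X, Y)` to `(X + 1, Y)`. `AVi i`, `AHi i` : the edges
of the arc `i`. `Vti i` : inner ends of the ties of the arc `i`. -/

namespace Pool.Agent.H22.W

open Pool.Agent.H54.W (Win)
open Pool.Agent.H31.Sp (CQ)
open Pool.Agent.H72.W.N
open Pool.Agent.H13.R45 (gp)
open Pool.Agent.H39.Q1 (TF)

section Defs

variable (D : Win) (n H W : ℤ) (A : ℤ → ℤ) (p : Bool) (s0 : ℤ)

/-- arc at the left end of the row `Y` of cells -/
def aL (Y : ℤ) : ℤ := rep D s0 (2 * D.h + 1 - (n * Y + 1))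
/-- arc at the right end of the row `Y` of cells -/
def aR (Y : ℤ) : ℤ := rep D s0 (n * Y + 2)
/-- arc of the bottom -/
def aB : ℤ := rep D s0 0
/-- arc of the top -/
def aT : ℤ := rep D s0 (D.h + 1)

open Classical in
/-- arc of a vertical boundary edge -/
noncomputable def vA (X Y : ℤ) : ℤ := if CQ H A (fun _ => W) X Y then aL D n s0 Y else aR D n s0 Y

open Classical in
/-- arc of a horizontal boundary edge -/
noncomputable def hA (X Y : ℤ) : ℤ :=
  if CQ H A (fun _ => W) X Y then (if Y = 0 then aB D s0 else aL D n s0 (Y - 1))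
  else (if Y = H then aT D s0 else aL D n s0 Y)

/-- vertical boundary edges of the arc `i` -/
def AVi (i X Y : ℤ) : Prop :=
  ¬ (CQ H A (fun _ => W) X Y ↔ CQ H A (fun _ => W) (X - 1) Y) ∧ vA D n H W A s0 X Y = i

/-- horizontal boundary edges of the arc `i` -/
def AHi (i X Y : ℤ) : Prop :=
  ¬ (CQ H A (fun _ => W) X Y ↔ CQ H A (fun _ => W) X (Y - 1)) ∧ hA D n H W A s0 X Y = i

/-- inner ends of the ties of the arc `i` -/
def Vti (i x y : ℤ) : Prop := (x + y) % 2 = (if colp D i = true then 0 else 1) ∧
  ∃ e ∈ TF (TA D p) (fmA D p s0) i, bA D p e = gp (x, y)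

end Defs

end Pool.Agent.H22.W
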