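import Mathlib
import Pool.Agent.H22.W.Edge

set_option autoImplicit false
open Finset

/-! # The arcs of the layer tiles of a coarse window of helper54's class

Successor of `H13/Sp/ArcC`. `posL`, `posR` : all positions of one row of cells are in one arc. `aL_succ`,
`aR_succ` : straight parts. `lyL_arc`, `lyR_arc`, `lyF_arc`, `lyC_arc` : the layer tiles of the four kinds, the
cells beside them and their arc. Columns of `P` : `X = u + sh p`. The right wall is one arc (`D.FlatR`). -/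

namespace Pool.Agent.H22.W

open Pool.Agent.H54.W (Win)
open Pool.Agent.H54.W.Win
open Pool.Agent.H42.Sp (Sd)
open Pool.Agent.H31.Sp (CQ)
open Pool.Agent.H72.W.N
open Pool.Agent.H95.W (CoarseR CoarseRC)

variable {D : Win} {n H W : ℤ} {A : ℤ → ℤ} {CL : ℤ → Bool} {p : Bool}
  {s0 x y z X Y V u v i : ℤ}

/-! ### Division -/

lemma dv (hn : 0 < n) (y : ℤ) : n * (y / n) ≤ y ∧ y < n * (y / n) + n ∧ y % n = y - n * (y / n) := by
  have h1 := Int.emod_add_mul_ediv y n
  have h2 := Int.emod_nonneg y hn.ne'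
  have h3 := Int.emod_lt_of_pos y hn
  refine ⟨?_, ?_, ?_⟩ <;> omega

lemma dv_eq (hn : 0 < n) (h1 : n * Y ≤ y) (h2 : y < n * Y + n) : y / n = Y := by
  have e : y = (y - n * Y) + n * Y := by ring
  rw [e, Int.add_mul_ediv_left _ _ hn.ne', Int.ediv_eq_zero_of_lt (by omega) (by omega), zero_add]

lemma lt_mul {a b : ℤ} (hn : 0 < n) (h : a < b) : n * a + n ≤ n * b := by
  have : n * (a + 1) ≤ n * b := mul_le_mul_of_nonneg_left (by omega) hn.le
  linarith

lemma lt_of_mul {a b : ℤ} (hn : 0 < n) (h : n * a < n * b) : a < b := lt_of_mul_lt_mul_left h hn.le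

lemma eq_of_mul {a b : ℤ} (hn : 2 ≤ n) (h : n * a = n * b ∨ n * a = n * b - 1 ∨ n * a = n * b + 1) : a = b := by
  rcases lt_trichotomy a b with h1 | h1 | h1
  · have := lt_mul (n := n) (by omega) h1; omega
  · exact h1
  · have := lt_mul (n := n) (by omega) h1; omega

/-- the next row -/
lemma div_succ (hn : 0 < n) (y : ℤ) :
    (n * (y / n) + n = y + 1 ∧ (y + 1) / n = y / n + 1) ∨ (y + 1 < n * (y / n) + n ∧ (y + 1) / n = y / n) := by
  obtain ⟨h1, h2, -⟩ := dv hn y
  by_cases h : n * (y / n) + n = y + 1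
  · exact Or.inl ⟨h, dv_eq hn (by linarith [show n * (y / n + 1) = n * (y / n) + n by ring])
      (by linarith [show n * (y / n + 1) = n * (y / n) + n by ring])⟩
  · exact Or.inr ⟨by omega, dv_eq hn (by omega) (by omega)⟩

/-! ### Positions -/

lemma colp_left' (h0 : 0 ≤ y) (h1 : y < D.h) : colp D (2 * D.h + 1 - y) = D.cl y := by
  unfold colp
  rw [Int.emod_eq_of_lt (by omega) (by unfold nP; omega), colq_cl (by omega)]
  congr 1; ring

lemma colp_right' (h0 : 0 ≤ y) (h1 : y < D.h) : colp D (y + 1) = D.cr y := by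
  unfold colp
  rw [Int.emod_eq_of_lt (by omega) (by unfold nP; omega), colq_cr (by omega) (by omega)]
  congr 1; ring

lemma ps_bot' (h : y < 0) : ps D p x y = 0 := by unfold ps; rw [if_pos h]

lemma ps_top' (h : D.h ≤ y) : ps D p x y = D.h + 1 := by
  have := D.hh
  unfold ps; rw [if_neg (by omega), if_pos h]

lemma ps_left' (h0 : 0 ≤ y) (h1 : y < D.h) (h2 : x < D.a y) : ps D p x y = 2 * D.h + 1 - y := by
  unfold ps; rw [if_neg (by omega), if_neg (by omega), if_pos h2]

lemma ps_right' (h0 : 0 ≤ y) (h1 : y < D.h) (h2 : D.a y ≤ x) : ps D p x y = y + 1 := by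
  unfold ps; rw [if_neg (by omega), if_neg (by omega), if_neg (by omega)]

/-! ### Chains of positions -/

lemma chainL (hcut : colp D (s0 - 1) ≠ colp D s0) (h0 : 0 ≤ y) (k : ℕ) (h1 : y + k < D.h)
    (hc : ∀ v, y ≤ v → v < y + k → D.cl v = D.cl (v + 1)) :
    rep D s0 (2 * D.h + 1 - (y + k)) = rep D s0 (2 * D.h + 1 - y) := by
  induction k with
  | zero => simp
  | succ k ih =>
    push_cast at h1 hc ⊢
    rw [← ih (by omega) fun v h2 h3 => hc v h2 (by omega)]
    have e2 : 2 * D.h + 1 - (y + (k : ℤ)) = 2 * D.h + 1 - (y + (k + 1)) + 1 := by ring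
    rw [e2, rep_adj hcut]
    rw [← e2, colp_left' (by omega) (by omega), colp_left' (by omega) (by omega), ← add_assoc]
    exact (hc _ (by omega) (by omega)).symm

lemma chainR (hcut : colp D (s0 - 1) ≠ colp D s0) (h0 : 0 ≤ y) (k : ℕ) (h1 : y + k < D.h)
    (hc : ∀ v, y ≤ v → v < y + k → D.cr v = D.cr (v + 1)) :
    rep D s0 (y + k + 1) = rep D s0 (y + 1) := by
  induction k with
  | zero => simp
  | succ k ih =>
    push_cast at h1 hc ⊢
    rw [← ih (by omega) fun v h2 h3 => hc v h2 (by omega)]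
    have e2 : y + ((k : ℤ) + 1) + 1 = y + k + 1 + 1 := by ring
    rw [e2, rep_adj hcut]
    rw [colp_right' (by omega) (by omega), show y + (k : ℤ) + 1 + 1 = (y + k + 1) + 1 by ring,
      colp_right' (by omega) (by omega)]
    exact hc _ (by omega) (by omega)

/-- two rows -/
lemma chainL' (hcut : colp D (s0 - 1) ≠ colp D s0) (h0 : 0 ≤ y) (hyz : y ≤ z) (h1 : z < D.h)
    (hc : ∀ v, y ≤ v → v < z → D.cl v = D.cl (v + 1)) :
    rep D s0 (2 * D.h + 1 - z) = rep D s0 (2 * D.h + 1 - y) := by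
  have := chainL hcut h0 (z - y).toNat (by omega) fun v h2 h3 => hc v h2 (by omega)
  rwa [show y + ((z - y).toNat : ℤ) = z by omega] at this

lemma chainR' (hcut : colp D (s0 - 1) ≠ colp D s0) (h0 : 0 ≤ y) (hyz : y ≤ z) (h1 : z < D.h)
    (hc : ∀ v, y ≤ v → v < z → D.cr v = D.cr (v + 1)) :
    rep D s0 (z + 1) = rep D s0 (y + 1) := by
  have := chainR hcut h0 (z - y).toNat (by omega) fun v h2 h3 => hc v h2 (by omega)
  rwa [show y + ((z - y).toNat : ℤ) = z by omega] at this

/-- **The right wall is one arc.** -/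
theorem posR' (hF : D.FlatR) (hcut : colp D (s0 - 1) ≠ colp D s0) (h0 : 0 ≤ y) (h1 : y < D.h) :
    rep D s0 (y + 1) = rep D s0 1 := by
  have := chainR' (y := 0) (z := y) hcut le_rfl h0 h1 fun v _ _ => by rw [hF v, hF (v + 1)]
  simpa using this

section R

variable (C : CoarseR D n H W A)

include C

lemma row_h (h0 : 0 ≤ Y) (h1 : Y < H) : 0 ≤ n * Y ∧ n * Y + n ≤ D.h :=
  ⟨(C.row0 h0 h1).1, (C.row0 h0 h1).2.1⟩

/-- all right positions are in one arc -/
theorem aR_eq (hF : D.FlatR) (hcut : colp D (s0 - 1) ≠ colp D s0) (h0 : 0 ≤ Y) (h1 : Y < H) :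
    aR D n s0 Y = rep D s0 1 := by
  have hn := C.hn
  obtain ⟨h2, h3⟩ := row_h C h0 h1
  have := posR' (y := n * Y + 1) hF hcut (by omega) (by omega)
  rw [← this]
  unfold aR; congr 1; ring

/-- **The right positions.** -/
theorem posR (hF : D.FlatR) (hcut : colp D (s0 - 1) ≠ colp D s0) (h0 : 0 ≤ y) (h1 : y < D.h) :
    rep D s0 (y + 1) = aR D n s0 (y / n) := by
  obtain ⟨r0, r1⟩ := C.row h0 h1
  rw [posR' hF hcut h0 h1, aR_eq C hF hcut r0 r1]

/-- the right wall is straight -/
theorem aR_succ (hF : D.FlatR) (hcut : colp D (s0 - 1) ≠ colp D s0) (h0 : 0 ≤ Y) (h1 : Y + 1 < H) :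
    aR D n s0 (Y + 1) = aR D n s0 Y := by
  rw [aR_eq C hF hcut (by omega) h1, aR_eq C hF hcut h0 (by omega)]

/-- the rows next to the end of a row of cells, if the wall is straight there -/
lemma a_end (h0 : 0 ≤ Y) (h1 : Y + 1 < H) (hA : A Y = A (Y + 1)) :
    D.a (n * Y + n - 1) = n * A Y ∧ D.a (n * Y + n) = n * A Y := by
  have hn := C.pos
  have hn8 := C.hn
  obtain ⟨h4, h5⟩ := row_h C (Y := Y + 1) (by omega) h1
  have e3 : n * (Y + 1) = n * Y + n := by ring
  have h6 := (row_h C h0 (by omega : Y < H)).1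
  constructor
  · obtain ⟨d1, d2, d3⟩ := dv hn (n * Y + n - 1)
    have e : (n * Y + n - 1) / n = Y := dv_eq hn (by omega) (by omega)
    rcases C.a (n * Y + n - 1) (by omega) (by omega) with g | ⟨g, g' | g'⟩
    · rw [g, e]
    · rw [e] at g'; omega
    · rw [e] at g' d3; omega
  · obtain ⟨d1, d2, d3⟩ := dv hn (n * Y + n)
    have e : (n * Y + n) / n = Y + 1 := dv_eq hn (by omega) (by omega)
    rcases C.a (n * Y + n) (by omega) (by omega) with g | ⟨g, g' | g'⟩
    · rw [g, e, hA]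
    · rw [e] at g' d3; omega
    · rw [e, add_sub_cancel_right] at g'; omega

end R

section RC

variable (hC : CoarseRC D n H W A CL)

include hC

/-- **The left positions of one row of cells.** -/
theorem posL (hcut : colp D (s0 - 1) ≠ colp D s0) (h0 : 0 ≤ y) (h1 : y < D.h) :
    rep D s0 (2 * D.h + 1 - y) = aL D n s0 (y / n) := by
  have C := hC.toCoarseR
  have hn := C.pos
  have hn8 := C.hn
  obtain ⟨h2, h3⟩ := C.row h0 h1
  obtain ⟨h4, h5⟩ := row_h C h2 h3
  obtain ⟨d1, d2, -⟩ := dv hn y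
  unfold aL
  have col : ∀ a b : ℤ, n * (y / n) ≤ a → b < n * (y / n) + n → a ≤ b →
      rep D s0 (2 * D.h + 1 - b) = rep D s0 (2 * D.h + 1 - a) := by
    intro a b k1 k2 k3
    refine chainL' hcut (by omega) k3 (by omega) fun v h6 h7 => ?_
    rw [hC.cl v (by omega) (by omega), hC.cl (v + 1) (by omega) (by omega),
      dv_eq hn (y := v) (Y := y / n) (by omega) (by omega),
      dv_eq hn (y := v + 1) (Y := y / n) (by omega) (by omega)]
  rcases le_total y (n * (y / n) + 1) with h6 | h6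
  · exact (col y (n * (y / n) + 1) d1 (by omega) h6).symm
  · exact col (n * (y / n) + 1) y (by omega) d2 h6

/-- **A straight part of the left side.** -/
theorem aL_succ (hcut : colp D (s0 - 1) ≠ colp D s0) (h0 : 0 ≤ Y) (h1 : Y + 1 < H) (hA : A Y = A (Y + 1)) :
    aL D n s0 (Y + 1) = aL D n s0 Y := by
  have C := hC.toCoarseR
  have hn := C.pos
  have hn8 := C.hn
  obtain ⟨h4, h5⟩ := row_h C (Y := Y + 1) (by omega) h1
  have e3 : n * (Y + 1) = n * Y + n := by ring
  have h6 := (row_h C h0 (by omega : Y < H)).1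
  obtain ⟨k1, k2⟩ := a_end C h0 h1 hA
  have e1 : (n * Y + n - 1) / n = Y := dv_eq hn (by omega) (by omega)
  have e2 : (n * Y + n) / n = Y + 1 := dv_eq hn (by omega) (by omega)
  have p1 := posL hC hcut (y := n * Y + n - 1) (by omega) (by omega)
  have p2 := posL hC hcut (y := n * Y + n) (by omega) (by omega)
  rw [e1] at p1
  rw [e2] at p2
  rw [← p1, ← p2]
  have := chainL' (y := n * Y + n - 1) (z := n * Y + n) hcut (by omega) (by omega) (by omega)
    fun v h7 h8 => by
      obtain rfl : v = n * Y + n - 1 := by omega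
      refine D.scl _ (by omega) (by omega) ?_
      rw [sub_add_cancel, k1, k2]
  exact this

end RC

/-! ### Layer tiles -/

section C2

variable (C : CoarseR D n H W A)

include C

lemma lyL_a (h : LyP D .L u V) : D.a V = n * A (V / n) := by
  obtain ⟨h0, h1, h2, h3, h4⟩ := h
  have hn := C.pos
  have hn8 := C.hn
  obtain ⟨d1, d2, d3⟩ := dv hn V
  rcases C.a V h0 h1 with g | ⟨g, ⟨g1, g2, g3⟩ | ⟨g1, g2, g3⟩⟩
  · exact g
  · exfalso
    have k := lt_mul hn g3
    rcases div_succ hn V with ⟨e1, e2⟩ | ⟨e1, e2⟩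
    · have hV : V + 1 < D.h := by
        have hh := C.hh
        have := lt_mul hn g2
        have : n * (V / n + 1) = n * (V / n) + n := by ring
        omega
      have k2 := (C.a_le (y := V + 1) (by omega) hV).2
      rw [e2] at k2
      have := h4 hV
      omega
    · omega
  · exfalso
    have k := lt_mul hn g3
    have e : (V - 1) / n = V / n - 1 := by
      refine dv_eq hn ?_ ?_
      · rw [mul_sub]; omega
      · rw [mul_sub]; omega
    have hV : 1 ≤ V := by
      have := lt_mul hn g2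
      omega
    have k2 := (C.a_le (y := V - 1) (by omega) (by omega)).2
    rw [e] at k2
    have := h3 hV
    omega

/-- **Floors.** -/
lemma lyF_cases (h : LyP D .F u V) :
    (V = -1 ∧ CQ H A (fun _ => W) (u / n) 0) ∨
    (0 ≤ V ∧ V + 1 = n * (V / n) + n ∧ CQ H A (fun _ => W) (u / n) (V / n + 1) ∧ u / n < A (V / n) ∧
      u + 1 < D.a V ∧ D.a (V + 1) < D.a V) := by
  have hn := C.pos
  have hn8 := C.hn
  have hh := D.hh
  have hw := C.ww
  obtain ⟨h0, h1, h2, h3, h4⟩ := h
  have huW : u / n < W := by rw [Int.ediv_lt_iff_lt_mul hn, mul_comm]; omega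
  by_cases c : V = -1
  · left
    subst c
    rw [neg_add_cancel] at h2
    have e0 : (0 : ℤ) / n = 0 := Int.zero_ediv n
    have e1 : (0 : ℤ) % n = 0 := Int.zero_emod n
    have k1 : D.a 0 = n * A 0 := by
      rcases C.a 0 le_rfl (by omega) with g | ⟨g, g' | g'⟩
      · rw [g, e0]
      · rw [e1] at g'; omega
      · rw [e0] at g'; omega
    refine ⟨rfl, le_rfl, C.HH, ?_, huW⟩
    rw [Int.le_ediv_iff_mul_le hn, mul_comm]; omega
  right
  have hV : 0 ≤ V := by omega
  obtain ⟨r0, r1⟩ := C.row (y := V) hV (by omega)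
  obtain ⟨r2, r3⟩ := C.row (y := V + 1) (by omega) h1
  obtain ⟨d1, d2, d3⟩ := dv hn V
  obtain ⟨f1, f2, f3⟩ := dv hn (V + 1)
  have a1 := C.a_le (y := V) hV (by omega)
  have a2 := C.a_le (y := V + 1) (by omega) h1
  have h5 := h4 hV
  rcases div_succ hn V with ⟨e1, e2⟩ | ⟨e1, e2⟩
  · rw [e2] at a2 r2 r3 f1 f2 f3
    have e3 : n * (V / n + 1) = n * (V / n) + n := by ring
    have k1 : D.a (V + 1) = n * A (V / n + 1) := by
      rcases C.a (V + 1) (by omega) h1 with g | ⟨g, g' | g'⟩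
      · rw [g, e2]
      · rw [e2] at g'; omega
      · rw [e2, add_sub_cancel_right] at g'
        have := lt_mul hn g'.2.2
        omega
    refine ⟨hV, by omega, ⟨r2, r3, ?_, huW⟩, ?_, h5, by omega⟩
    · rw [Int.le_ediv_iff_mul_le hn, mul_comm]; omega
    · rw [Int.ediv_lt_iff_lt_mul hn, mul_comm]; omega
  · exfalso
    rw [e2] at a2
    omega

/-- **Ceilings.** -/
lemma lyC_cases (h : LyP D .C u V) :
    (V = D.h ∧ CQ H A (fun _ => W) (u / n) (H - 1)) ∨
    (1 ≤ V ∧ V < D.h ∧ V = n * (V / n) ∧ CQ H A (fun _ => W) (u / n) (V / n - 1) ∧ u / n < A (V / n) ∧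
      u + 1 < D.a V ∧ D.a (V - 1) < D.a V) := by
  have hn := C.pos
  have hn8 := C.hn
  have hh := D.hh
  have hHH := C.HH
  have hhh := C.hh
  have hw := C.ww
  obtain ⟨h0, h1, h2, h3, h4⟩ := h
  have huW : u / n < W := by rw [Int.ediv_lt_iff_lt_mul hn, mul_comm]; omega
  by_cases c : V = D.h
  · left
    subst c
    have e0 : (D.h - 1) / n = H - 1 := by
      refine dv_eq hn ?_ ?_ <;> rw [mul_sub] <;> omega
    have e1 : (D.h - 1) % n = n - 1 := by
      have := (dv hn (D.h - 1)).2.2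
      rw [e0, mul_sub] at this
      omega
    have k1 : D.a (D.h - 1) = n * A (H - 1) := by
      rcases C.a (D.h - 1) (by omega) (by omega) with g | ⟨g, g' | g'⟩
      · rw [g, e0]
      · rw [e0] at g'; omega
      · rw [e1] at g'; omega
    refine ⟨rfl, by omega, by omega, ?_, huW⟩
    rw [Int.le_ediv_iff_mul_le hn, mul_comm]; omega
  right
  have hV : V < D.h := by omega
  obtain ⟨r0, r1⟩ := C.row (y := V) (by omega) hV
  obtain ⟨r2, r3⟩ := C.row (y := V - 1) (by omega) (by omega)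
  obtain ⟨d1, d2, d3⟩ := dv hn V
  obtain ⟨f1, f2, f3⟩ := dv hn (V - 1)
  have a1 := C.a_le (y := V) (by omega) hV
  have a2 := C.a_le (y := V - 1) (by omega) (by omega)
  have h5 := h4 hV
  have key := div_succ hn (V - 1)
  rw [sub_add_cancel] at key
  rcases key with ⟨e1, e2⟩ | ⟨e1, e2⟩
  · have e3 : (V - 1) / n = V / n - 1 := by omega
    rw [e3] at a2 r2 r3 f1 f2 f3 e1
    have e4 : n * (V / n - 1) = n * (V / n) - n := by ring
    have k1 : D.a (V - 1) = n * A (V / n - 1) := by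
      rcases C.a (V - 1) (by omega) (by omega) with g | ⟨g, g' | g'⟩
      · rw [g, e3]
      · rw [e3, sub_add_cancel] at g'
        have := lt_mul hn g'.2.2
        omega
      · omega
    refine ⟨h0, hV, by omega, ⟨r2, r3, ?_, huW⟩, ?_, h5, by omega⟩
    · rw [Int.le_ediv_iff_mul_le hn, mul_comm]; omega
    · rw [Int.ediv_lt_iff_lt_mul hn, mul_comm]; omega
  · exfalso
    rw [← e2] at a2
    omega

/-- **Layer tiles at the right.** -/
theorem lyR_arc (hF : D.FlatR) (hcut : colp D (s0 - 1) ≠ colp D s0) (h : LyA D p .R u v) :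
    u + sh p = n * ((u + sh p) / n) ∧ CQ H A (fun _ => W) ((u + sh p) / n - 1) (v / n) ∧
    ¬ CQ H A (fun _ => W) ((u + sh p) / n) (v / n) ∧
    arc D p s0 u v = aR D n s0 (v / n) ∧ arc D p s0 (u + 1) v = aR D n s0 (v / n) := by
  have hn := C.pos
  obtain ⟨h0, h1, h2⟩ := h
  obtain ⟨r0, r1⟩ := C.row h0 h1
  have k0 := sh_nonneg p
  have k1 := sh_le p
  have hw := C.ww
  have eu : (u + sh p) / n = W := by
    rw [h2, hw]; exact Int.mul_ediv_cancel_left _ hn.ne'
  have h3 := D.aw v h0 h1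
  refine ⟨?_, ?_, ?_, ?_, ?_⟩
  · rw [eu]; omega
  · rw [eu]
    have := C.AW _ r0 r1
    exact ⟨r0, r1, by omega, by simp⟩
  · rw [eu]; rintro ⟨-, -, -, h5⟩; simp at h5
  · unfold arc; rw [ps_right' h0 h1 (by omega), posR C hF hcut h0 h1]
  · unfold arc; rw [ps_right' h0 h1 (by omega), posR C hF hcut h0 h1]

end C2

section CC3

variable (hC : CoarseRC D n H W A CL)

include hC

/-- **Layer tiles at the left.** -/
theorem lyL_arc (hcut : colp D (s0 - 1) ≠ colp D s0) (h : LyA D p .L u v) :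
    u + sh p + 1 = n * ((u + sh p + 1) / n) ∧ CQ H A (fun _ => W) ((u + sh p + 1) / n) (v / n) ∧
    ¬ CQ H A (fun _ => W) ((u + sh p + 1) / n - 1) (v / n) ∧
    arc D p s0 u v = aL D n s0 (v / n) ∧ arc D p s0 (u - 1) v = aL D n s0 (v / n) := by
  have C := hC.toCoarseR
  have hn := C.pos
  have ha := lyL_a C h
  obtain ⟨h0, h1, h2, -, -⟩ := h
  obtain ⟨r0, r1⟩ := C.row h0 h1
  have k0 := sh_nonneg p
  have k1 := sh_le p
  have eu : (u + sh p + 1) / n = A (v / n) := by
    rw [h2, ha]; exact Int.mul_ediv_cancel_left _ hn.ne'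
  refine ⟨?_, ?_, ?_, ?_, ?_⟩
  · rw [eu]; omega
  · rw [eu]; exact ⟨r0, r1, le_rfl, C.AW _ r0 r1⟩
  · rw [eu]; rintro ⟨-, -, h5, -⟩; omega
  · unfold arc; rw [ps_left' h0 h1 (by omega), posL hC hcut h0 h1]
  · unfold arc; rw [ps_left' h0 h1 (by omega), posL hC hcut h0 h1]

/-- **Layer tiles below.** -/
theorem lyF_arc (hcut : colp D (s0 - 1) ≠ colp D s0) (h : LyA D p .F u v) :
    v + 1 = n * ((v + 1) / n) ∧ CQ H A (fun _ => W) ((u + sh p) / n) ((v + 1) / n) ∧
    ¬ CQ H A (fun _ => W) ((u + sh p) / n) ((v + 1) / n - 1) ∧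
    arc D p s0 u v = hA D n H W A s0 ((u + sh p) / n) ((v + 1) / n) ∧
    arc D p s0 u (v - 1) = hA D n H W A s0 ((u + sh p) / n) ((v + 1) / n) := by
  have C := hC.toCoarseR
  have hn := C.pos
  have hn8 := C.hn
  have hh := D.hh
  have k0 := sh_nonneg p
  have k1 := sh_le p
  have hly : LyP D .F (u + sh p) v := h
  rcases lyF_cases C hly with ⟨c1, c2⟩ | ⟨c1, c2, c3, c4, c5, c6⟩
  · subst c1
    rw [neg_add_cancel, Int.zero_ediv]
    have e : hA D n H W A s0 ((u + sh p) / n) 0 = rep D s0 0 := by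
      unfold hA aB; rw [if_pos c2, if_pos rfl]
    rw [e]
    refine ⟨by simp, c2, fun h => by obtain ⟨h1, -⟩ := h; omega, ?_, ?_⟩
    · unfold arc; rw [ps_bot' (by omega)]
    · unfold arc; rw [ps_bot' (by omega)]
  · have h1 : v + 1 < D.h := by obtain ⟨_, h, _⟩ := hly; exact h
    have e : (v + 1) / n = v / n + 1 := by
      rw [c2]
      rw [show n * (v / n) + n = n * (v / n + 1) by ring]
      exact Int.mul_ediv_cancel_left _ hn.ne'
    obtain ⟨r0, r1⟩ := C.row (y := v) c1 (by omega)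
    have e' : hA D n H W A s0 ((u + sh p) / n) (v / n + 1) = aL D n s0 (v / n) := by
      unfold hA
      rw [if_pos c3, if_neg (by omega), add_sub_cancel_right]
    rw [e, e', add_sub_cancel_right]
    have hr := drop_rng (D := D) c1 h1 c6
    have hlo := drop_lo (D := D) c1 h1 c6 (Z := v - 1) (by omega) (by omega)
    refine ⟨by rw [c2]; ring, c3, ?_, ?_, ?_⟩
    · rintro ⟨-, -, h1, -⟩
      omega
    · unfold arc; rw [ps_left' c1 (by omega) (by omega), posL hC hcut c1 (by omega)]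
    · have eV : (v - 1) / n = v / n := dv_eq hn (by omega) (by omega)
      unfold arc; rw [ps_left' (by omega) (by omega) (by omega), posL hC hcut (by omega) (by omega), eV]

/-- **Layer tiles above.** -/
theorem lyC_arc (hcut : colp D (s0 - 1) ≠ colp D s0) (h : LyA D p .C u v) :
    v = n * (v / n) ∧ CQ H A (fun _ => W) ((u + sh p) / n) (v / n - 1) ∧
    ¬ CQ H A (fun _ => W) ((u + sh p) / n) (v / n) ∧
    arc D p s0 u v = hA D n H W A s0 ((u + sh p) / n) (v / n) ∧
    arc D p s0 u (v + 1) = hA D n H W A s0 ((u + sh p) / n) (v / n) := by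
  have C := hC.toCoarseR
  have hn := C.pos
  have hn8 := C.hn
  have hh := C.hh
  have hh2 := D.hh
  have k0 := sh_nonneg p
  have k1 := sh_le p
  have hly : LyP D .C (u + sh p) v := h
  rcases lyC_cases C hly with ⟨c1, c2⟩ | ⟨c1, c1', c2, c3, c4, c5, c6⟩
  · have e0 : D.h / n = H := by rw [hh]; exact Int.mul_ediv_cancel_left _ hn.ne'
    have hno : ¬ CQ H A (fun _ => W) ((u + sh p) / n) H := fun h => by obtain ⟨-, h1, -⟩ := h; omega
    have e : hA D n H W A s0 ((u + sh p) / n) H = rep D s0 (D.h + 1) := by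
      unfold hA aT; rw [if_neg hno, if_pos rfl]
    rw [c1, e0, e]
    refine ⟨hh, c2, hno, ?_, ?_⟩
    · unfold arc; rw [ps_top' le_rfl]
    · unfold arc; rw [ps_top' (by omega)]
  · obtain ⟨r0, r1⟩ := C.row (y := v) (by omega) c1'
    have hno : ¬ CQ H A (fun _ => W) ((u + sh p) / n) (v / n) := fun h => by
      obtain ⟨-, -, h1, -⟩ := h; omega
    have e' : hA D n H W A s0 ((u + sh p) / n) (v / n) = aL D n s0 (v / n) := by
      unfold hA
      rw [if_neg hno, if_neg (by omega)]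
    rw [e']
    have hr := rise_rng (D := D) c1 c1' c6
    have hhi := rise_hi (D := D) c1 c1' c6 (Z := v + 1) (by omega) (by omega)
    refine ⟨c2, c3, hno, ?_, ?_⟩
    · unfold arc; rw [ps_left' (by omega) c1' (by omega), posL hC hcut (by omega) c1']
    · have eV : (v + 1) / n = v / n := dv_eq hn (by omega) (by omega)
      unfold arc; rw [ps_left' (by omega) (by omega) (by omega), posL hC hcut (by omega) (by omega), eV]

end CC3

end Pool.Agent.H22.W
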