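import Mathlib
import Pool.Agent.H22.W.Arc
import Pool.Agent.H2.W.CellR
import Pool.Agent.H54.W.FlatBox

set_option autoImplicit false
open Finset

/-! # Flat boxes at the unit edges of a coarse window of helper54's class

Successor of `H46/Sp/FlatC`. For every unit edge and every grid point `g` on it at distance at least `r + 3`
from its ends, `FlatBox D p s0 s i g r`, where `i` is the arc of the edge (`aL`, `aR`, `aB`, `aT` of `Edge`).
The coordinates of `P` are `(x + sh p, y)`: `flat_L` (`g.1 + sh p = n A Y`), `flat_R` (`g.1 + sh p = D.w`),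
`flat_B`, `flat_T`, `flat_F` (floor of the row `Y`), `flat_C` (ceiling of the row `Y - 1`). Only
`n W ≤ D.w ≤ n W + 2` is used about the right wall. -/

namespace Pool.Agent.H22.W

open Pool.Agent.H54.W (Win)
open Pool.Agent.H42.Sp (Sd)
open Pool.Agent.H31.Sp (CQ)
open Pool.Agent.H72.W.N
open Pool.Agent.H95.W (CoarseR CoarseRC)
open Pool.Agent.H54.Sp (hS Sq)
open Pool.Agent.H54.W.N (FlatBox)
open Pool.Agent.H2.W.CG (a_row a_row' AW_n w_ge w_le)

variable {D : Win} {n H W : ℤ} {A : ℤ → ℤ} {CL : ℤ → Bool} {r x y X Y s0 : ℤ} {p : Bool} {g : ℤ × ℤ}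

lemma hs01 (p : Bool) : sh p = 0 ∨ sh p = 1 := by rcases sh_cases p with h | h <;> omega

section

variable (C : CoarseR D n H W A)

include C

/-- **Flat boxes on the right side.** -/
theorem flat_R (hF : D.FlatR) (hcut : colp D (s0 - 1) ≠ colp D s0) (hr : 2 * r + 8 ≤ n) (h0 : 0 ≤ Y)
    (h1 : Y < H) (hg : g.1 + sh p = D.w)
    (h2 : n * Y + r + 3 ≤ g.2) (h3 : g.2 + r + 3 ≤ n * Y + n) :
    FlatBox D p s0 .R (aR D n s0 Y) g r := by
  have hn := C.pos
  have hw := AW_n C h0 h1
  have hh := row_h C h0 h1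
  have w1 := w_ge C
  have hs := hs01 p
  constructor
  · intro x y hx
    obtain ⟨⟨k1, k2⟩, k3, k4⟩ := hx
    have e := a_row C h0 h1 (y := y) (by omega) (by omega)
    unfold InP
    simp only [hS]
    omega
  · intro x y hx hn'
    obtain ⟨⟨k1, k2⟩, k3, k4⟩ := hx
    simp only [hS] at hn'
    have e := a_row C h0 h1 (y := y) (by omega) (by omega)
    unfold arc
    rw [ps_right' (by omega) (by omega) (by omega), posR C hF hcut (by omega) (by omega),
      dv_eq (Y := Y) hn (by omega) (by omega)]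

omit C in
/-- the column of a box at a horizontal unit edge -/
lemma col_box (h2 : n * X + r + 3 ≤ g.1 + sh p) (h3 : g.1 + sh p + r + 3 ≤ n * X + n)
    (k1 : g.1 - r ≤ x) (k2 : x < g.1 + r) : n * X + 3 ≤ x + sh p ∧ x + sh p + 3 < n * X + n := by
  omega

/-- **Flat boxes at the bottom.** -/
theorem flat_B (hr : 2 * r + 8 ≤ n) (hX : A 0 ≤ X) (hX' : X < W) (hg : g.2 = 0)
    (h2 : n * X + r + 3 ≤ g.1 + sh p) (h3 : g.1 + sh p + r + 3 ≤ n * X + n) :
    FlatBox D p s0 .F (aB D s0) g r := by
  have hn := C.pos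
  have hH := C.HH
  have hh := row_h C le_rfl hH
  have w1 := w_ge C
  have hs := hs01 p
  have f1 : n * A 0 ≤ n * X := mul_le_mul_of_nonneg_left hX hn.le
  have f2 := lt_mul hn hX'
  constructor
  · intro x y hx
    obtain ⟨⟨k1, k2⟩, k3, k4⟩ := hx
    have k5 := col_box h2 h3 k1 k2
    unfold InP
    simp only [hS]
    by_cases hy : 0 ≤ y
    · have e := a_row' C le_rfl hH (y := y) (by omega) (by omega)
      omega
    · omega
  · intro x y hx hy
    obtain ⟨⟨k1, k2⟩, k3, k4⟩ := hx
    simp only [hS] at hy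
    unfold arc
    rw [ps_bot' (by omega)]
    rfl

/-- **Flat boxes at the top.** -/
theorem flat_T (hr : 2 * r + 8 ≤ n) (hX : A (H - 1) ≤ X) (hX' : X < W)
    (hg : g.2 = D.h) (h2 : n * X + r + 3 ≤ g.1 + sh p) (h3 : g.1 + sh p + r + 3 ≤ n * X + n) :
    FlatBox D p s0 .C (aT D s0) g r := by
  have hn := C.pos
  have hH := C.HH
  have hhH := C.hh
  have hh := row_h C (Y := H - 1) (by omega) (by omega)
  have e0 : n * (H - 1) = n * H - n := by ring
  have w1 := w_ge C
  have hs := hs01 p
  have f1 : n * A (H - 1) ≤ n * X := mul_le_mul_of_nonneg_left hX hn.le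
  have f2 := lt_mul hn hX'
  constructor
  · intro x y hx
    obtain ⟨⟨k1, k2⟩, k3, k4⟩ := hx
    have k5 := col_box h2 h3 k1 k2
    unfold InP
    simp only [hS]
    by_cases hy : y < D.h
    · have e := a_row' C (Y := H - 1) (by omega) (by omega) (y := y) (by omega) (by omega)
      omega
    · omega
  · intro x y hx hy
    obtain ⟨⟨k1, k2⟩, k3, k4⟩ := hx
    simp only [hS] at hy
    unfold arc
    rw [ps_top' (by omega)]
    rfl

end

section

variable (hC : CoarseRC D n H W A CL) (hcut : colp D (s0 - 1) ≠ colp D s0)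

include hC hcut

/-- **The left positions of a row of cells are in one arc.** -/
theorem rep_L (h2 : 0 ≤ y) (h3 : y < D.h) (h4 : n * Y ≤ y) (h5 : y < n * Y + n) :
    rep D s0 (2 * D.h + 1 - y) = aL D n s0 Y := by
  rw [posL hC hcut h2 h3, dv_eq (Y := Y) hC.toCoarseR.pos h4 h5]

/-- **Flat boxes on the left side.** -/
theorem flat_L (hr : 2 * r + 8 ≤ n) (h0 : 0 ≤ Y) (h1 : Y < H) (hg : g.1 + sh p = n * A Y)
    (h2 : n * Y + r + 3 ≤ g.2) (h3 : g.2 + r + 3 ≤ n * Y + n) :
    FlatBox D p s0 .L (aL D n s0 Y) g r := by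
  have C := hC.toCoarseR
  have hw := AW_n C h0 h1
  have hh := row_h C h0 h1
  have w1 := w_ge C
  have hs := hs01 p
  constructor
  · intro x y hx
    obtain ⟨⟨k1, k2⟩, k3, k4⟩ := hx
    have e := a_row C h0 h1 (y := y) (by omega) (by omega)
    unfold InP
    simp only [hS]
    omega
  · intro x y hx hn
    obtain ⟨⟨k1, k2⟩, k3, k4⟩ := hx
    simp only [hS] at hn
    have e := a_row C h0 h1 (y := y) (by omega) (by omega)
    unfold arc
    rw [ps_left' (by omega) (by omega) (by omega)]
    exact rep_L hC hcut (by omega) (by omega) (by omega) (by omega)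

/-- **Flat boxes at a floor.** -/
theorem flat_F (hr : 2 * r + 8 ≤ n) (h0 : 1 ≤ Y) (h1 : Y < H) (hX : A Y ≤ X)
    (hX' : X < A (Y - 1)) (hg : g.2 = n * Y)
    (h2 : n * X + r + 3 ≤ g.1 + sh p) (h3 : g.1 + sh p + r + 3 ≤ n * X + n) :
    FlatBox D p s0 .F (aL D n s0 (Y - 1)) g r := by
  have C := hC.toCoarseR
  have hn := C.pos
  have hh := row_h C (Y := Y) (by omega) h1
  have hh' := row_h C (Y := Y - 1) (by omega) (by omega)
  have e0 : n * (Y - 1) = n * Y - n := by ring
  have hs := hs01 p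
  have w1 := w_ge C
  have hw := AW_n C (Y := Y - 1) (by omega) (by omega)
  have f1 : n * A Y ≤ n * X := mul_le_mul_of_nonneg_left hX hn.le
  have f2 := lt_mul hn hX'
  constructor
  · intro x y hx
    obtain ⟨⟨k1, k2⟩, k3, k4⟩ := hx
    have k5 := col_box h2 h3 k1 k2
    unfold InP
    simp only [hS]
    by_cases hy : n * Y ≤ y
    · have e := a_row' C (Y := Y) (by omega) h1 (y := y) (by omega) (by omega)
      omega
    · have e := a_row' C (Y := Y - 1) (by omega) (by omega) (y := y) (by omega) (by omega)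
      omega
  · intro x y hx hy
    obtain ⟨⟨k1, k2⟩, k3, k4⟩ := hx
    have k5 := col_box h2 h3 k1 k2
    simp only [hS] at hy
    have e := a_row' C (Y := Y - 1) (by omega) (by omega) (y := y) (by omega) (by omega)
    unfold arc
    rw [ps_left' (by omega) (by omega) (by omega)]
    exact rep_L hC hcut (by omega) (by omega) (by omega) (by omega)

/-- **Flat boxes at a ceiling.** -/
theorem flat_C (hr : 2 * r + 8 ≤ n) (h0 : 1 ≤ Y) (h1 : Y < H) (hX : A (Y - 1) ≤ X)
    (hX' : X < A Y) (hg : g.2 = n * Y)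
    (h2 : n * X + r + 3 ≤ g.1 + sh p) (h3 : g.1 + sh p + r + 3 ≤ n * X + n) :
    FlatBox D p s0 .C (aL D n s0 Y) g r := by
  have C := hC.toCoarseR
  have hn := C.pos
  have hh := row_h C (Y := Y) (by omega) h1
  have hh' := row_h C (Y := Y - 1) (by omega) (by omega)
  have e0 : n * (Y - 1) = n * Y - n := by ring
  have hs := hs01 p
  have w1 := w_ge C
  have hw := AW_n C (Y := Y) (by omega) (by omega)
  have f1 : n * A (Y - 1) ≤ n * X := mul_le_mul_of_nonneg_left hX hn.le
  have f2 := lt_mul hn hX'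
  constructor
  · intro x y hx
    obtain ⟨⟨k1, k2⟩, k3, k4⟩ := hx
    have k5 := col_box h2 h3 k1 k2
    unfold InP
    simp only [hS]
    by_cases hy : n * Y ≤ y
    · have e := a_row' C (Y := Y) (by omega) h1 (y := y) (by omega) (by omega)
      omega
    · have e := a_row' C (Y := Y - 1) (by omega) (by omega) (y := y) (by omega) (by omega)
      omega
  · intro x y hx hy
    obtain ⟨⟨k1, k2⟩, k3, k4⟩ := hx
    have k5 := col_box h2 h3 k1 k2
    simp only [hS] at hy
    have e := a_row' C (Y := Y) (by omega) h1 (y := y) (by omega) (by omega)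
    unfold arc
    rw [ps_left' (by omega) (by omega) (by omega)]
    exact rep_L hC hcut (by omega) (by omega) (by omega) (by omega)

end

end Pool.Agent.H22.W
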