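import Mathlib
import Pool.Agent.H72.W.NRef
import Pool.Agent.H62.W.Phi
import Pool.Agent.H62.W.TotN
import Pool.Agent.H40.W.NCrX

set_option autoImplicit false
open Finset

/-! # Chart I: the zone of the world is a mask for all families with ties

`ZS X1 X2 Y1 Y2 x0 r` (helper62) : the rectangle without the half row `r`, `x0 ≤ x`. `StrFar D K x0 r` : the
half row is at distance at least `K` from the floor, the ceiling and the left wall. `BoxL` : the rectangle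
contains the large box. `LfI D p s0 i` : the arc `i` meets the right wall only in the first and in the last
row; `lfI_ref` : this holds for the arcs of ties of the reference window `refD D p` with the cut `2`.
`msk_La`, `msk_LamX` : the mask conditions `MskO`, `MskC` for the layers `LaA` and for the wide layers `LamX`
at the marked corners. -/

namespace Pool.Agent.H22.W.MskI

open Pool.Agent.H75.Perc Pool.Agent.H75.TwoArm Pool.Agent.Q1 Pool.Agent.H33.Q1
open Pool.Agent.H69.Q1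
open Pool.Agent.H54.W (Win)
open Pool.Agent.H54.W.Win
open Pool.Agent.H72.W.N
open Pool.Agent.H42.Sp (Sd Ix kt rt)
open Pool.Agent.H13.R45 (ev gp ev_true ev_false Tg gp_inj)
open Pool.Agent.H74.R45 (exists_lt)
open Pool.Agent.H54.R45 (nd_gp node_exists el_adj adj_unit)
open Pool.Agent.H39.Q1 (el el_true el_false TF mem_TF VO VC)
open Pool.Agent.H42.W (MskO MskC Msk Tog)
open Pool.Agent.H62.W (ZS mem_ZS odd_ZS)
open Pool.Agent.H40.W.N
open Pool.Agent.H27.W.N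
open Pool.Agent.H40.Sp (tX flS yV yH)
open Pool.Agent.H95.W (CoarseRC)

/-- the half row is far from the floor, the ceiling and the left wall -/
structure StrFar (D : Win) (K x0 r : ℤ) : Prop where
  lo : K ≤ r
  hi : r + K < D.h
  lf : ∀ v, 0 ≤ v → v < D.h → v ≤ r + K → r ≤ v + K → D.a v + K ≤ x0

/-- the large box lies in the rectangle -/
structure BoxL (D : Win) (L X1 X2 Y1 Y2 : ℤ) : Prop where
  X1 : X1 + L ≤ D.lo + 1
  X2 : D.w + L ≤ X2
  Y1 : Y1 + L ≤ 1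
  Y2 : D.h + L ≤ Y2

/-- the arc `i` meets the right wall only in the first and in the last row -/
def LfI (D : Win) (p : Bool) (s0 i : ℤ) : Prop :=
  ∀ u v, 0 ≤ v → v < D.h → D.a v ≤ u → arc D p s0 u v = i → v = 0 ∨ v + 1 = D.h

/-- the tile and its eight neighbours are in the zone -/
def Clr (X1 X2 Y1 Y2 x0 r x y : ℤ) : Prop :=
  ∀ X Y, x - 1 ≤ X → X ≤ x + 1 → y - 1 ≤ Y → Y ≤ y + 1 → lt (X, Y) ∈ ZS X1 X2 Y1 Y2 x0 r

variable {D : Win} {p q : Bool} {s0 i K L m n H W X1 X2 Y1 Y2 x0 r x y u v t s : ℤ} {A B : ℤ → ℤ}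
  {CL : ℤ → Bool} {S Λ T W1 : Finset (ℤ × ℤ)} {b : ℤ × ℤ → ℤ × ℤ} {c : Bool} {g : Bool × ℤ} {k : Sd}

lemma StrFar.ref : StrFar (refD D q) K x0 r ↔ StrFar D K x0 r := ⟨fun h => ⟨h.1, h.2, h.3⟩, fun h => ⟨h.1, h.2, h.3⟩⟩

lemma BoxL.ref : BoxL (refD D q) L X1 X2 Y1 Y2 ↔ BoxL D L X1 X2 Y1 Y2 :=
  ⟨fun h => ⟨h.1, h.2, h.3, h.4⟩, fun h => ⟨h.1, h.2, h.3, h.4⟩⟩

/-! ### The mask conditions -/

/-- the labels at a vertex (face) of a tile whose neighbours are in the zone -/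
lemma adj_of
    (hΛ : ∀ u v, lt (u, v) ∈ Λ → Clr X1 X2 Y1 Y2 x0 r u v)
    (hT : ∀ e ∈ T, ∃ g u v, b e = gp g ∧ ev g = c ∧ OnT g u v ∧ Clr X1 X2 Y1 Y2 x0 r u v)
    {x y : ℤ × ℤ} (hu : IsUnit4 (y - x))
    (h : (∃ e ∈ T, b e = x) ∨ ∃ z, IsUnit4 (z - x) ∧ el c x z ∈ Λ) :
    el c x y ∈ ZS X1 X2 Y1 Y2 x0 r := by
  obtain ⟨g, hg, rfl⟩ := node_exists c x
  obtain ⟨X, Y, h1, h2, h3⟩ := el_adj hg hu
  rw [h1]
  rcases h with ⟨e, he, hb⟩ | ⟨z, hz, he⟩
  · obtain ⟨g', u, v, k1, k2, k3, k4⟩ := hT e he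
    rw [k1] at hb
    have := gp_inj (k2.trans hg.symm) hb
    subst this
    unfold OnT at k3
    exact k4 X Y (by omega) (by omega) (by omega) (by omega)
  · obtain ⟨u, v, k1, k2⟩ := el_onT hg hz
    rw [k1] at he
    unfold OnT at k2
    exact hΛ u v he X Y (by omega) (by omega) (by omega) (by omega)

lemma mskO_of (hΛo : ∀ l ∈ Λ, (l.1 + l.2) % 2 = 1)
    (hΛ : ∀ u v, lt (u, v) ∈ Λ → Clr X1 X2 Y1 Y2 x0 r u v)
    (hT : ∀ e ∈ T, ∃ g u v, b e = gp g ∧ ev g = true ∧ OnT g u v ∧ Clr X1 X2 Y1 Y2 x0 r u v)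
    (hTs : T ⊆ ZS X1 X2 Y1 Y2 x0 r) (hW : W1 ⊆ ZS X1 X2 Y1 Y2 x0 r) :
    MskO (ZS X1 X2 Y1 Y2 x0 r) Λ T W1 b where
  sub := by
    refine union_subset (union_subset (fun l hl => ?_) hTs) hW
    obtain ⟨u, v, rfl⟩ := exists_lt (hΛo l hl)
    exact hΛ u v hl u v (by omega) (by omega) (by omega) (by omega)
  adj := by
    intro x y hu h
    have := adj_of (c := true) hΛ hT hu (by
      rcases h with h | ⟨z, h1, h2⟩
      · exact Or.inl h
      · exact Or.inr ⟨z, h1, by rw [el_true]; exact h2⟩)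
    rwa [el_true] at this

lemma mskC_of (hΛo : ∀ l ∈ Λ, (l.1 + l.2) % 2 = 1)
    (hΛ : ∀ u v, lt (u, v) ∈ Λ → Clr X1 X2 Y1 Y2 x0 r u v)
    (hT : ∀ e ∈ T, ∃ g u v, b e = gp g ∧ ev g = false ∧ OnT g u v ∧ Clr X1 X2 Y1 Y2 x0 r u v)
    (hTs : T ⊆ ZS X1 X2 Y1 Y2 x0 r) (hW : W1 ⊆ ZS X1 X2 Y1 Y2 x0 r) :
    MskC (ZS X1 X2 Y1 Y2 x0 r) Λ T W1 b where
  sub := by
    refine union_subset (union_subset (fun l hl => ?_) hTs) hW
    obtain ⟨u, v, rfl⟩ := exists_lt (hΛo l hl)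
    exact hΛ u v hl u v (by omega) (by omega) (by omega) (by omega)
  adj := by
    intro x y hu h
    have := adj_of (c := false) hΛ hT hu (by
      rcases h with h | ⟨z, h1, h2⟩
      · exact Or.inl h
      · exact Or.inr ⟨z, h1, by rw [el_false]; exact h2⟩)
    rwa [el_false] at this

/-! ### Ties -/

/-- the place of a layer tile which is not on the right wall -/
lemma ly_left (h : LyA D p k u v) (hk : k ≠ .R) :
    (v = -1 ∧ k = .F) ∨ (v = D.h ∧ k = .C) ∨ (0 ≤ v ∧ v < D.h ∧ u + sh p < D.a v) := by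
  have e1 := sh_nonneg p
  cases k
  · obtain ⟨h1, h2, h3, -, -⟩ := h
    exact Or.inr (Or.inr ⟨h1, h2, by omega⟩)
  · exact absurd rfl hk
  · obtain ⟨h1, h2, h3, h4, h5⟩ := h
    by_cases hv : v = -1
    · exact Or.inl ⟨hv, rfl⟩
    · have := h5 (by omega)
      exact Or.inr (Or.inr ⟨by omega, by omega, by omega⟩)
  · obtain ⟨h1, h2, h3, h4, h5⟩ := h
    by_cases hv : v = D.h
    · exact Or.inr (Or.inl ⟨hv, rfl⟩)
    · have := h5 (by omega)
      exact Or.inr (Or.inr ⟨by omega, by omega, by omega⟩)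

lemma ly_box (h : LyA D p k u v) : D.lo ≤ u + 2 ∧ u ≤ D.w ∧ -1 ≤ v ∧ v ≤ D.h := by
  have e1 := sh_nonneg p
  have e2 := sh_le p
  cases k
  · obtain ⟨h1, h2, h3, -, -⟩ := h
    have := D.hlo v h1 h2
    have := D.aw v h1 h2
    omega
  · obtain ⟨h1, h2, h3⟩ := h
    have := D.hlo v h1 h2
    have := D.aw v h1 h2
    omega
  · obtain ⟨h1, h2, h3, h4, h5⟩ := h
    have := D.hlo (v + 1) (by omega) h2
    omega
  · obtain ⟨h1, h2, h3, h4, h5⟩ := h
    have := D.hlo (v - 1) (by omega) (by omega)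
    omega

/-- a layer tile which is not on the right wall -/
lemma ly_clr (h : LyA D p k u v) (hk : k ≠ .R) (hL : 5 ≤ L) (hK : 3 ≤ K) (hF : StrFar D K x0 r)
    (hB : BoxL D L X1 X2 Y1 Y2) : Clr X1 X2 Y1 Y2 x0 r u v := by
  intro X Y h1 h2 h3 h4
  obtain ⟨b1, b2, b3, b4⟩ := hB
  obtain ⟨f1, f2, f3⟩ := hF
  have hb := ly_box h
  have e1 := sh_nonneg p
  rw [mem_ZS]
  refine ⟨by omega, ?_⟩
  rintro ⟨h5, h6⟩
  rcases ly_left h hk with ⟨h7, -⟩ | ⟨h7, -⟩ | ⟨h7, h8, h9⟩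
  · omega
  · omega
  · have := f3 v h7 h8 (by omega) (by omega)
    omega

lemma tie_clr {e : ℤ × ℤ} (he : e ∈ TF (TA D p) (fmA D p s0) i) (nR : ∀ k, CA D p k → k.1 ≠ .R)
    (hL : 5 ≤ L) (hK : 3 ≤ K) (hF : StrFar D K x0 r) (hB : BoxL D L X1 X2 Y1 Y2) :
    e ∈ ZS X1 X2 Y1 Y2 x0 r ∧
    ∃ g u v, bA D p e = gp g ∧ ev g = colp D i ∧ OnT g u v ∧ Clr X1 X2 Y1 Y2 x0 r u v := by
  obtain ⟨he1, he2⟩ := mem_TF.1 he
  obtain ⟨u, v, k, c, rfl, hT⟩ := exists_tie he1
  have hco := hT.co (s0 := s0)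
  rw [he2] at hco
  subst hco
  have hk : k ≠ .R := nR _ hT.2.1
  have hc := ly_clr hT.ly hk hL hK hF hB
  refine ⟨hc u v (by omega) (by omega) (by omega) (by omega), _, u, v, hT.b,
    ev_bt hT.odd, ?_, hc⟩
  unfold OnT
  cases k <;> cases colp D i <;> simp only [bt] <;> omega

/-! ### Layers and walls -/

lemma la_clr (hl : lt (x, y) ∈ LaA D p s0 m i) (hi : LfI D p s0 i) (hL : 5 ≤ L)
    (hK : m + 2 ≤ K) (hF : StrFar D K x0 r) (hB : BoxL D L X1 X2 Y1 Y2) :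
    Clr X1 X2 Y1 Y2 x0 r x y := by
  obtain ⟨hP, u, v, k1, k2, k3, k4, k5, k6⟩ := mem_LaA.1 hl
  have hb := hP.box
  intro X Y h1 h2 h3 h4
  obtain ⟨b1, b2, b3, b4⟩ := hB
  obtain ⟨f1, f2, f3⟩ := hF
  rw [mem_ZS]
  refine ⟨by omega, ?_⟩
  rintro ⟨h5, h6⟩
  have e1 : 0 ≤ v := by omega
  have e2 : v < D.h := by omega
  by_cases hu : u < D.a v
  · have := f3 v e1 e2 (by omega) (by omega)
    omega
  · have := hi u v e1 e2 (by omega) k2
    omega

/-- a tile of the arc `i` is not in the half row -/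
lemma arc_str (hi : LfI D p s0 i) (ha : arc D p s0 x y = i) (h1 : y ≤ r + 1) (h2 : r ≤ y + 1)
    (h3 : x0 ≤ x + 1) (hK : 3 ≤ K) (hF : StrFar D K x0 r) : False := by
  obtain ⟨f1, f2, f3⟩ := hF
  have e1 : 0 ≤ y := by omega
  have e2 : y < D.h := by omega
  by_cases hu : x < D.a y
  · have := f3 y e1 e2 (by omega) (by omega)
    omega
  · have := hi x y e1 e2 (by omega) ha
    omega

lemma wl_sub (hi : LfI D p s0 i) (hL : 5 ≤ L) (hK : 3 ≤ K) (hF : StrFar D K x0 r)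
    (hB : BoxL D L X1 X2 Y1 Y2) : WlA D p s0 L S i ⊆ ZS X1 X2 Y1 Y2 x0 r := by
  intro e he
  have ho : (e.1 + e.2) % 2 = 1 := odd_TL he
  obtain ⟨x, y, rfl⟩ := exists_lt ho
  have hin : InL D L x y := (mem_TL.1 he).1
  rw [mem_WlA hL] at he
  obtain ⟨b1, b2, b3, b4⟩ := hB
  rw [mem_ZS]
  obtain ⟨i1, i2, i3, i4⟩ := hin
  refine ⟨by omega, ?_⟩
  rintro ⟨h5, h6⟩
  rcases he with ⟨-, -, h7, -⟩ | ⟨-, -, g, -, h8, x', y', ⟨-, -, h7, -⟩, h9⟩
  · exact arc_str hi h7 (by omega) (by omega) (by omega) hK hF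
  · unfold OnT at h8 h9
    exact arc_str hi h7 (by omega) (by omega) (by omega) hK hF

/-! ### The masks for the layers -/

/-- mask conditions for any layers whose tiles have their neighbours in the zone -/
theorem msk_of (nR : ∀ k, CA D p k → k.1 ≠ .R) (hi : LfI D p s0 i)
    (hL : 5 ≤ L) (hK : 3 ≤ K) (hF : StrFar D K x0 r) (hB : BoxL D L X1 X2 Y1 Y2)
    (hΛo : ∀ l ∈ Λ, (l.1 + l.2) % 2 = 1)
    (hΛ : ∀ u v, lt (u, v) ∈ Λ → Clr X1 X2 Y1 Y2 x0 r u v) :
    (colp D i = true → MskO (ZS X1 X2 Y1 Y2 x0 r) Λ (TF (TA D p) (fmA D p s0) i)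
      (WlA D p s0 L S i) (bA D p)) ∧
    (colp D i = false → MskC (ZS X1 X2 Y1 Y2 x0 r) Λ (TF (TA D p) (fmA D p s0) i)
      (WlA D p s0 L S i) (bA D p)) := by
  constructor
  · intro hc
    refine mskO_of hΛo hΛ (fun e he => ?_) (fun e he => (tie_clr he nR hL hK hF hB).1)
      (wl_sub hi hL hK hF hB)
    rw [← hc]
    exact (tie_clr he nR hL hK hF hB).2
  · intro hc
    refine mskC_of hΛo hΛ (fun e he => ?_) (fun e he => (tie_clr he nR hL hK hF hB).1)
      (wl_sub hi hL hK hF hB)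
    rw [← hc]
    exact (tie_clr he nR hL hK hF hB).2

/-- **The zone is a mask for the layers.** -/
theorem msk_La (nR : ∀ k, CA D p k → k.1 ≠ .R) (hi : LfI D p s0 i) (hL : 5 ≤ L) (hm : 1 ≤ m)
    (hK : m + 2 ≤ K) (hF : StrFar D K x0 r) (hB : BoxL D L X1 X2 Y1 Y2) :
    (colp D i = true → MskO (ZS X1 X2 Y1 Y2 x0 r) (LaA D p s0 m i) (TF (TA D p) (fmA D p s0) i)
      (WlA D p s0 L S i) (bA D p)) ∧
    (colp D i = false → MskC (ZS X1 X2 Y1 Y2 x0 r) (LaA D p s0 m i) (TF (TA D p) (fmA D p s0) i)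
      (WlA D p s0 L S i) (bA D p)) :=
  msk_of nR hi hL (by omega) hF hB (fun _ hl => odd_TB hl)
    fun _ _ hl => la_clr hl hi hL hK hF hB

/-! ### The wide layers at the marked corners -/

/-- near a marked corner -/
lemma corner_clr (hC : CoarseRC D n H W A CL) (hcut : colp D (s0 - 1) ≠ colp D s0)
    (hg : g ∈ GmC D n H) (hL : 5 ≤ L) (hm : 1 ≤ m) (hn : 3 * m + 8 ≤ n) (hK : 2 * m + 4 ≤ K)
    (hF : StrFar D K x0 r) (hB : BoxL D L X1 X2 Y1 Y2) {i' j' : ℤ} (h1 : -1 ≤ i') (h2 : i' < 2 * m + 2)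
    (h3 : -1 ≤ j') (h4 : j' < 2 * m + 2) :
    Clr X1 X2 Y1 Y2 x0 r (tq g.1 (flS H A B g) (wS D p n H A B g) (gxS p n H A B g) (gyS n g) i' j').1
      (tq g.1 (flS H A B g) (wS D p n H A B g) (gxS p n H A B g) (gyS n g) i' j').2 := by
  obtain ⟨Z, -⟩ := zc_c (p := p) (B := B) hC hcut hg
  have hg1 : g.1 = true := (mem_GmC.1 hg).1
  obtain ⟨sd, Yg⟩ := g
  simp only at hg1
  subst hg1
  set gx := gxS p n H A B (true, Yg) with hgx
  set gy := gyS n (true, Yg) with hgy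
  set v2 := flS H A B (true, Yg) with hv2
  have key : ∀ a b, -1 ≤ a → a < 2 * m + 2 → -1 ≤ b → b < 2 * m + 2 →
      Clr X1 X2 Y1 Y2 x0 r (tX true gx a) (tX v2 gy b) := by
    intro a b a1 a2 b1' b2'
    have hly := Z.lyV 0 le_rfl (by omega)
    rw [if_pos rfl] at hly
    obtain ⟨l1, l2, l3, -, -⟩ := hly
    obtain ⟨q1, q2, q3, q4⟩ := (Z.inP (2 * m + 2) (2 * m + 2) (by omega) (by omega) (by omega)
      (by omega)).2 (by omega)
    have e1 := sh_nonneg p
    have e2 := sh_le p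
    have hlo := D.hlo _ l1 l2
    obtain ⟨c1, c2, c3, c4⟩ := hB
    obtain ⟨f1, f2, f3⟩ := hF
    intro X Y k1 k2 k3 k4
    rw [mem_ZS]
    rw [tX_t] at *
    cases hv : v2
    · rw [hv] at k3 k4 l1 l2 l3 q1 q2 q3 hlo
      rw [tX_f] at *
      refine ⟨by omega, ?_⟩
      rintro ⟨h5, h6⟩
      have := f3 _ l1 l2 (by omega) (by omega)
      omega
    · rw [hv] at k3 k4 l1 l2 l3 q1 q2 q3 hlo
      rw [tX_t] at *
      refine ⟨by omega, ?_⟩
      rintro ⟨h5, h6⟩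
      have := f3 _ l1 l2 (by omega) (by omega)
      omega
  unfold tq
  by_cases hw : wS D p n H A B (true, Yg) = true
  · rw [if_pos hw]; exact key i' j' h1 h2 h3 h4
  · rw [if_neg hw]; exact key j' i' h3 h4 h1 h2

lemma lamX_cases {l : ℤ × ℤ} (hl : l ∈ LamX D p s0 n H A B m g i) :
    l ∈ LaA D p s0 m i ∨ ∃ i' j', ((-1 ≤ i' ∧ i' < 2 * m + 2) ∧ -1 ≤ j' ∧ j' < 2 * m + 2) ∧
      l = lt (tq g.1 (flS H A B g) (wS D p n H A B g) (gxS p n H A B g) (gyS n g) i' j') := by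
  have hm : l ∈ LQ g.1 (flS H A B g) (wS D p n H A B g) (gxS p n H A B g) (gyS n g) m (2 * m + 2) ∨
      l ∈ R1 g.1 (flS H A B g) (wS D p n H A B g) (gxS p n H A B g) (gyS n g) (2 * m + 2) ∨
      l ∈ R2 g.1 (flS H A B g) (wS D p n H A B g) (gxS p n H A B g) (gyS n g) (2 * m + 2) ∨
      l ∈ LaA D p s0 m i := by
    unfold LamX LamQ at hl
    split_ifs at hl
    · simp only [mem_union] at hl; tauto
    · simp only [mem_union] at hl; tauto
    · tauto
  rcases hm with h | h | h | h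
  · obtain ⟨i', j', rfl⟩ := LQ_T h
    rw [mem_LQ] at h
    exact Or.inr ⟨i', j', by omega, rfl⟩
  · obtain ⟨i', j', rfl⟩ := R1_T h
    rw [mem_R1] at h
    exact Or.inr ⟨i', j', by omega, rfl⟩
  · obtain ⟨i', j', rfl⟩ := R2_T h
    rw [mem_R2] at h
    exact Or.inr ⟨i', j', by omega, rfl⟩
  · exact Or.inl h

/-- **The zone is a mask for the wide layers at the marked corners.** -/
theorem msk_LamX (hC : CoarseRC D n H W A CL) (hcut : colp D (s0 - 1) ≠ colp D s0)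
    (nR : ∀ k, CA D p k → k.1 ≠ .R) (hi : LfI D p s0 i) (hg : g ∈ GmC D n H) (hL : 5 ≤ L)
    (hm : 1 ≤ m) (hn : 3 * m + 8 ≤ n) (hK : 2 * m + 4 ≤ K) (hF : StrFar D K x0 r)
    (hB : BoxL D L X1 X2 Y1 Y2) :
    (colp D i = true → MskO (ZS X1 X2 Y1 Y2 x0 r) (LamX D p s0 n H A B m g i)
      (TF (TA D p) (fmA D p s0) i) (WlA D p s0 L S i) (bA D p)) ∧
    (colp D i = false → MskC (ZS X1 X2 Y1 Y2 x0 r) (LamX D p s0 n H A B m g i)
      (TF (TA D p) (fmA D p s0) i) (WlA D p s0 L S i) (bA D p)) := by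
  refine msk_of nR hi hL (by omega) hF hB (fun l hl => ?_) fun u v hl => ?_
  · rcases lamX_cases hl with h | ⟨i', j', -, rfl⟩
    · exact odd_TB h
    · exact lt_odd _
  · rcases lamX_cases hl with h | ⟨i', j', ⟨⟨h1, h2⟩, h3, h4⟩, h5⟩
    · exact la_clr h hi hL (by omega) hF hB
    · have := corner_clr (p := p) (B := B) hC hcut hg hL hm hn hK hF hB h1 h2 h3 h4
      rw [← lt_inj h5] at this
      exact this

/-! ### The arcs of the reference window -/

/-- a change of the colour bounds the arcs from below -/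
lemma rep_ge (h1 : s0 < t) (hc : colp D t ≠ colp D (t - 1)) (h2 : t ≤ s) (h3 : s < s0 + nP D) :
    t ≤ rep D s0 s := by
  obtain ⟨k, hk⟩ : ∃ k : ℕ, s = t + k := ⟨(s - t).toNat, by omega⟩
  subst hk
  induction k with
  | zero =>
    simp only [Nat.cast_zero, add_zero] at *
    rw [rep_eq (by omega) h3]
    have e : (t - s0).toNat = (t - 1 - s0).toNat + 1 := by omega
    rw [e]
    show t ≤ (if _ then _ else _)
    have e2 : s0 + ((t - 1 - s0).toNat : ℤ) = t - 1 := by omega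
    rw [e2, if_neg (by rw [sub_add_cancel]; exact hc)]
    omega
  | succ k ih =>
    push_cast at h2 h3 ⊢
    have h4 := ih (by omega) (by omega)
    rw [← add_assoc]
    by_cases hcc : colp D (t + k) = colp D (t + k + 1)
    · rw [rep_succ (by omega) (by omega) hcc]; exact h4
    · rw [rep_eq (by omega) (by omega)]
      have e : (t + k + 1 - s0).toNat = (t + k - s0).toNat + 1 := by omega
      rw [e]
      show t ≤ (if _ then _ else _)
      have e2 : s0 + ((t + k - s0).toNat : ℤ) = t + k := by omega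
      rw [e2, if_neg (fun h => hcc h.symm)]
      omega

/-- the outer neighbour of a layer tile which is not on the right wall -/
lemma ps_out (h : LyA D p k u v) (hk : k ≠ .R) :
    ps D p (u - (dr k).1) (v - (dr k).2) = 0 ∨
    (D.h + 1 ≤ ps D p (u - (dr k).1) (v - (dr k).2) ∧
      ps D p (u - (dr k).1) (v - (dr k).2) ≤ 2 * D.h + 1) := by
  have hh := D.hh
  have e1 := sh_nonneg p
  have key : ∀ u v, 0 ≤ v → v < D.h → u < D.a v → (ps D p u v = 0 ∨
      (D.h + 1 ≤ ps D p u v ∧ ps D p u v ≤ 2 * D.h + 1)) := by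
    intro u v h1 h2 h3
    have : ps D p u v = 2 * D.h + 1 - v := by
      unfold ps; rw [if_neg (by omega), if_neg (by omega), if_pos h3]
    omega
  have kb : ∀ u v, v < 0 → ps D p u v = 0 := by
    intro u v h1; unfold ps; rw [if_pos h1]
  have kt' : ∀ u v, D.h ≤ v → ps D p u v = D.h + 1 := by
    intro u v h1; unfold ps; rw [if_neg (by omega), if_pos h1]
  cases k
  · obtain ⟨h1, h2, h3, -, -⟩ := h
    simp only [dr, sub_zero]
    exact key _ _ h1 h2 (by omega)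
  · exact absurd rfl hk
  · obtain ⟨h1, h2, h3, h4, h5⟩ := h
    simp only [dr, sub_zero]
    by_cases hv : v = -1
    · left; exact kb _ _ (by omega)
    · have h6 := h5 (by omega)
      have h7 := drop_rng (D := D) (Y := v) (by omega) h2 (by omega)
      have h8 := drop_lo (D := D) (Y := v) (by omega) h2 (by omega) (Z := v - 1) (by omega) (by omega)
      exact key _ _ (by omega) (by omega) (by omega)
  · obtain ⟨h1, h2, h3, h4, h5⟩ := h
    simp only [dr, sub_zero, sub_neg_eq_add]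
    by_cases hv : v = D.h
    · right
      rw [kt' _ _ (by omega)]
      omega
    · have h6 := h5 (by omega)
      have h7 := rise_rng (D := D) (Y := v) h1 (by omega) (by omega)
      have h8 := rise_hi (D := D) (Y := v) h1 (by omega) (by omega) (Z := v + 1) (by omega) (by omega)
      exact key _ _ (by omega) (by omega) (by omega)

/-- colour of a position on the right wall of the reference window -/
lemma colp_refR {t : ℤ} (h1 : 1 ≤ t) (h2 : t ≤ D.h) :
    colp (refD D q) t = decide ((D.w - sh q + (t - 1)) % 2 = 0) := by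
  have := D.hh
  unfold colp
  rw [nP_ref]
  unfold nP
  rw [Int.emod_eq_of_lt (by omega) (by omega), colq_cr h1 (by rw [ref_h]; exact h2), ref_cr]

/-- **The arcs of ties of the reference window.** -/
theorem lfI_ref {e : ℤ × ℤ} (he : e ∈ TA (refD D p) p) :
    LfI (refD D p) p 2 (fmA (refD D p) p 2 e) := by
  have hh := D.hh
  obtain ⟨u, v, rfl⟩ := exists_lt (odd_TA he)
  obtain ⟨k, c, hT⟩ := mem_TA.1 he
  have hk : k ≠ .R := by rintro rfl; exact TieP_not_R hT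
  rw [hT.fm]
  intro u' v' h1 h2 h3 h4
  rw [ref_h] at h2 ⊢
  rw [ref_a] at h3
  by_contra hcon
  push Not at hcon
  have hq := ps_out hT.ly hk
  rw [ref_h] at hq
  set t := ps (refD D p) p (u - (dr k).1) (v - (dr k).2) with ht
  have hP : nP (refD D p) = 2 * D.h + 2 := rfl
  have hps : ps (refD D p) p u' v' = v' + 1 := by
    rw [ps_ref]
    unfold ps; rw [if_neg (by omega), if_neg (by omega), if_neg (by omega)]
  unfold arc at h4
  rw [hps, ← ht] at h4
  have hlow := (rep_le (D := refD D p) (s0 := 2) (s := v' + 1) (by omega) (by rw [hP]; omega)).2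
  have hch : colp (refD D p) D.h ≠ colp (refD D p) (D.h - 1) := by
    rw [colp_refR (by omega) le_rfl, colp_refR (by omega) (by omega), Ne, decide_eq_decide]
    omega
  have hge : D.h ≤ rep (refD D p) 2 t := by
    rcases hq with hq | hq
    · rw [hq]
      have e := rep_add (D := refD D p) (s0 := 2) (s := 0)
      rw [zero_add] at e
      rw [← e]
      exact rep_ge (by omega) hch (by rw [hP]; omega) (by rw [hP]; omega)
    · exact rep_ge (by omega) hch (by omega) (by rw [hP]; omega)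
  omega

/-- **The masks of the reference window.** -/
theorem msk_ref {e : ℤ × ℤ} (he : e ∈ TA (refD D p) p) (hL : 5 ≤ L) (hm : 1 ≤ m)
    (hK : m + 2 ≤ K) (hF : StrFar D K x0 r) (hB : BoxL D L X1 X2 Y1 Y2) :
    (colp (refD D p) (fmA (refD D p) p 2 e) = true → MskO (ZS X1 X2 Y1 Y2 x0 r)
      (LaA (refD D p) p 2 m (fmA (refD D p) p 2 e))
      (TF (TA (refD D p) p) (fmA (refD D p) p 2) (fmA (refD D p) p 2 e))
      (WlA (refD D p) p 2 L S (fmA (refD D p) p 2 e)) (bA (refD D p) p)) ∧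
    (colp (refD D p) (fmA (refD D p) p 2 e) = false → MskC (ZS X1 X2 Y1 Y2 x0 r)
      (LaA (refD D p) p 2 m (fmA (refD D p) p 2 e))
      (TF (TA (refD D p) p) (fmA (refD D p) p 2) (fmA (refD D p) p 2 e))
      (WlA (refD D p) p 2 L S (fmA (refD D p) p 2 e)) (bA (refD D p) p)) :=
  msk_La (fun k hk h => by obtain ⟨s, g⟩ := k; simp only at h; subst h; exact not_CA_R g hk)
    (lfI_ref he) hL hm hK (StrFar.ref.2 hF) (BoxL.ref.2 hB)

/-- **The masks of the wide layers of the reference window.** -/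
theorem mskX_ref (hC : CoarseRC (refD D p) n H W A CL) {e : ℤ × ℤ} (he : e ∈ TA (refD D p) p)
    (hg : g ∈ GmC (refD D p) n H) (hL : 5 ≤ L)
    (hm : 1 ≤ m) (hn : 3 * m + 8 ≤ n) (hK : 2 * m + 4 ≤ K) (hF : StrFar D K x0 r)
    (hB : BoxL D L X1 X2 Y1 Y2) :
    (colp (refD D p) (fmA (refD D p) p 2 e) = true → MskO (ZS X1 X2 Y1 Y2 x0 r)
      (LamX (refD D p) p 2 n H A B m g (fmA (refD D p) p 2 e))
      (TF (TA (refD D p) p) (fmA (refD D p) p 2) (fmA (refD D p) p 2 e))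
      (WlA (refD D p) p 2 L S (fmA (refD D p) p 2 e)) (bA (refD D p) p)) ∧
    (colp (refD D p) (fmA (refD D p) p 2 e) = false → MskC (ZS X1 X2 Y1 Y2 x0 r)
      (LamX (refD D p) p 2 n H A B m g (fmA (refD D p) p 2 e))
      (TF (TA (refD D p) p) (fmA (refD D p) p 2) (fmA (refD D p) p 2 e))
      (WlA (refD D p) p 2 L S (fmA (refD D p) p 2 e)) (bA (refD D p) p)) :=
  msk_LamX hC (cut_ref D.hh)
    (fun k hk h => by obtain ⟨s, g⟩ := k; simp only at h; subst h; exact not_CA_R g hk)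
    (lfI_ref he) hg hL hm hn hK (StrFar.ref.2 hF) (BoxL.ref.2 hB)

/-- no tie on the right wall of the reference window -/
lemma nR_ref : ∀ k, CA (refD D p) p k → k.1 ≠ .R := fun k hk h => by
  obtain ⟨s, g⟩ := k
  simp only at h
  subst h
  exact not_CA_R g hk

/-- **`Msk` of chart I.** -/
theorem mskI (hL : 5 ≤ L) (hm : 1 ≤ m) (hK : m + 2 ≤ K) (hF : StrFar D K x0 r)
    (hB : BoxL D L X1 X2 Y1 Y2) :
    Msk (TA (refD D p) p) (fmA (refD D p) p 2) (colp (refD D p)) (WlA (refD D p) p 2 L S)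
      (LaA (refD D p) p 2 m) (fun _ => ZS X1 X2 Y1 Y2 x0 r) (bA (refD D p) p) where
  O := by
    rintro i ⟨e, he⟩ hc
    obtain ⟨he1, rfl⟩ := mem_TF.1 he
    exact (msk_ref he1 hL hm hK hF hB).1 hc
  C := by
    rintro i ⟨e, he⟩ hc
    obtain ⟨he1, rfl⟩ := mem_TF.1 he
    exact (msk_ref he1 hL hm hK hF hB).2 hc

/-- **`Msk` of chart I at a marked corner.** -/
theorem mskXI (hC : CoarseRC (refD D p) n H W A CL) (hg : g ∈ GmC (refD D p) n H) (hL : 5 ≤ L)
    (hm : 1 ≤ m) (hn : 3 * m + 8 ≤ n) (hK : 2 * m + 4 ≤ K) (hF : StrFar D K x0 r)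
    (hB : BoxL D L X1 X2 Y1 Y2) :
    Msk (TA (refD D p) p) (fmA (refD D p) p 2) (colp (refD D p)) (WlA (refD D p) p 2 L S)
      (LamX (refD D p) p 2 n H A B m g) (fun _ => ZS X1 X2 Y1 Y2 x0 r) (bA (refD D p) p) where
  O := by
    rintro i ⟨e, he⟩ hc
    obtain ⟨he1, rfl⟩ := mem_TF.1 he
    exact (mskX_ref hC he1 hg hL hm hn hK hF hB).1 hc
  C := by
    rintro i ⟨e, he⟩ hc
    obtain ⟨he1, rfl⟩ := mem_TF.1 he
    exact (mskX_ref hC he1 hg hL hm hn hK hF hB).2 hc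

/-- **`Tog` of chart I**: the functional `FTT` of the true window `D`, fixed open labels
`OT D p TT ∪ WA O p S`. -/
theorem togI {ι : Type*} {Λ' D' : Set (ℤ × ℤ)} {X : ι → ℤ × ℤ} {Z : Finset (ℤ × ℤ)}
    (h : Pool.Agent.H62.W.ZoneG Λ' D' X Z) (Ψ : (ι → ι → Prop) → ℂ) (O : OutB D) (E TT : Finset (ℤ × ℤ)) :
    Tog E (Pool.Agent.H62.W.OT D p TT ∪ WA O p S) Z
      (Pool.Agent.H62.W.FTT (Pool.Agent.H62.W.PhiG Λ' D' X Ψ) O p S TT) := by
  have h1 := h.tog (Ψ := Ψ) E (Pool.Agent.H62.W.OT D p TT ∪ WA O p S)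
  refine h1.congr fun w _ => ?_
  unfold Pool.Agent.H62.W.FTT
  rw [union_assoc]

end Pool.Agent.H22.W.MskI
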