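import Mathlib
import Pool.Agent.H5.C3.Gen

set_option autoImplicit false
open Set

/-! # T11 of route W (top part): the positions `UpG`, `LoG` are stable under perturbations -/

namespace Pool.Agent.H22.W.Pert

open Pool.Agent.Q1.M4 (Cell Reg Om rect)
open Pool.Agent.H21.FM (Shape)
open Pool.Agent.H5.FM (UpG LoG T0 OnS)
open Pool.Agent.H14.FM (ic)
open Pool.Agent.H5.C3 (Pert StPert)

lemma T0_div (e : ℝ) (M : ℕ) (z : ℂ) : T0 (e / M) 0 z = T0 e 0 (z / M) := by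
  unfold T0; push_cast; ring

lemma norm_one_add_I : ‖(1 + Complex.I : ℂ)‖ ≤ 2 := by
  refine (norm_add_le _ _).trans ?_
  rw [norm_one, Complex.norm_I]; norm_num

lemma T0_sub (e : ℝ) (u w : ℂ) : T0 e 0 u - T0 e 0 w = (e : ℂ) * ((1 + Complex.I) * (u - w)) := by
  unfold T0; ring

lemma norm_T0_sub {e : ℝ} (he : 0 < e) (u w : ℂ) : ‖T0 e 0 u - T0 e 0 w‖ ≤ e * (2 * ‖u - w‖) := by
  rw [T0_sub, norm_mul, norm_mul, Complex.norm_real, Real.norm_of_nonneg he.le]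
  exact mul_le_mul_of_nonneg_left (mul_le_mul_of_nonneg_right norm_one_add_I (norm_nonneg _)) he.le

/-- thickening -/
def Tk (N : Set ℂ) (η : ℝ) : Set ℂ := {z | ∃ n ∈ N, ‖z - n‖ ≤ η}

variable {S S' : Shape} {M : ℕ} {e ρ : ℝ} {N : Set ℂ}

/-- closeness of the images -/
lemma near (he : 0 < e) {z w : ℂ} {δ : ℝ} (h : ‖z / M - w‖ ≤ δ) (hd : e * (2 * δ) = ρ / 4) :
    ‖T0 (e / M) 0 z - T0 e 0 w‖ ≤ ρ / 4 := by
  rw [T0_div, ← hd]
  refine (norm_T0_sub he _ _).trans ?_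
  gcongr

lemma tri {a b w : ℂ} {η r : ℝ} (h : ‖a - b‖ ≤ η) (h2 : r ≤ ‖b - w‖) : r - η ≤ ‖a - w‖ := by
  have : ‖b - w‖ ≤ ‖a - b‖ + ‖a - w‖ := by
    have h3 : b - w = -(a - b) + (a - w) := by ring
    rw [h3]
    exact (norm_add_le _ _).trans (by rw [norm_neg])
  linarith

lemma tri2 {a b w : ℂ} {η r : ℝ} (h : ‖a - b‖ ≤ η) (h2 : ‖a - w‖ < r) : ‖b - w‖ < r + η := by
  have : ‖b - w‖ ≤ ‖a - b‖ + ‖a - w‖ := by
    have h3 : b - w = -(a - b) + (a - w) := by ring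
    rw [h3]
    exact (norm_add_le _ _).trans (by rw [norm_neg])
  linarith

lemma inReg {δ : ℝ} (h : Pert S S' M δ) {z : ℂ} (hz : z ∈ Reg S'.P.Q ic ic) :
    ∃ w ∈ Reg S.P.Q ic ic, ‖z / M - w‖ ≤ δ := by
  obtain ⟨c, hc, v, hv, hr, -⟩ := h.cell z hz
  exact ⟨z / M - v, ⟨c, hc, hr⟩, by simpa using hv⟩

theorem upG {D A B N2 N4 : Set ℂ} (hU : UpG S e 0 D A B ρ N2 N4) : ∃ δ > 0,
    ∀ (S' : Shape) (M : ℕ), Pert S S' M δ → UpG S' (e / M) 0 D A B (ρ / 2) (Tk N2 (ρ / 4))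
      (Tk N4 (ρ / 4)) := by
  have he := hU.e0
  have hρ := hU.ρ0
  have hd : e * (2 * (ρ / (8 * e))) = ρ / 4 := by field_simp; norm_num
  refine ⟨ρ / (8 * e), by positivity, fun S' M hP => ?_⟩
  have hM : (0 : ℝ) < M := by exact_mod_cast hP.M0
  have nr : ∀ {z w : ℂ}, ‖z / M - w‖ ≤ ρ / (8 * e) → ‖T0 (e / M) 0 z - T0 e 0 w‖ ≤ ρ / 4 :=
    fun h => near he h hd
  constructor
  · positivity
  · positivity
  · intro z w hw hzw hz
    obtain ⟨w0, hw0, h0⟩ := hP.com z hz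
    have h1 := nr h0
    have h2 := tri2 h1 hzw
    rcases hU.cov w0 w hw (by linarith) hw0 with h | h
    · exact Or.inl ⟨_, h, h1⟩
    · exact Or.inr ⟨_, h, h1⟩
  · intro i hi z hz w hw
    rcases hi with hi | ⟨hi, hi'⟩
    · obtain ⟨j, hj, w0, hw0, h0⟩ := hP.l0 i hi z hz
      have := tri (nr h0) (hU.free j (Or.inl hj) w0 hw0 w hw)
      linarith
    · obtain ⟨j, hj, w0, hw0, h0⟩ := hP.l2 i hi hi' z hz
      have := tri (nr h0) (hU.free j (Or.inr hj) w0 hw0 w hw)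
      linarith
  · intro i hi hi' z hz
    obtain ⟨j, hj, w0, hw0, h0⟩ := hP.l1 i hi hi' z hz
    exact ⟨_, hU.two j hj.1 hj.2 w0 hw0, nr h0⟩
  · intro i hi hi' z hz
    obtain ⟨j, hj, w0, hw0, h0⟩ := hP.l3 i hi hi' z hz
    exact ⟨_, hU.four j hj.1 hj.2 w0 hw0, nr h0⟩
  · rintro z ⟨n, hn, hzn⟩ w ⟨n', hn', hwn⟩
    have h1 := tri hzn (hU.sep n hn n' hn')
    rw [norm_sub_rev] at h1
    have h2 := tri hwn h1
    rw [norm_sub_rev]
    linarith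
  · exact fun a ha => ⟨a, hU.A2 ha, by rw [sub_self, norm_zero]; positivity⟩
  · exact fun a ha => ⟨a, hU.B4 ha, by rw [sub_self, norm_zero]; positivity⟩
  · intro a ha z hz
    obtain ⟨w0, hw0, h0⟩ := inReg hP hz
    have := tri (nr h0) (hU.Ar a ha w0 hw0)
    linarith
  · intro a ha z hz
    obtain ⟨w0, hw0, h0⟩ := inReg hP hz
    have := tri (nr h0) (hU.Br a ha w0 hw0)
    linarith

theorem loG {D A B N2 N4 : Set ℂ} (hU : LoG S e 0 D A B ρ N2 N4) : ∃ δ > 0,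
    ∀ (S' : Shape) (M : ℕ), Pert S S' M δ → LoG S' (e / M) 0 D A B (ρ / 2) (Tk N2 (ρ / 4))
      (Tk N4 (ρ / 4)) := by
  have he := hU.e0
  have hρ := hU.ρ0
  have hd : e * (2 * (ρ / (8 * e))) = ρ / 4 := by field_simp; norm_num
  refine ⟨ρ / (8 * e), by positivity, fun S' M hP => ?_⟩
  have hM : (0 : ℝ) < M := by exact_mod_cast hP.M0
  have nr : ∀ {z w : ℂ}, ‖z / M - w‖ ≤ ρ / (8 * e) → ‖T0 (e / M) 0 z - T0 e 0 w‖ ≤ ρ / 4 :=
    fun h => near he h hd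
  constructor
  · positivity
  · positivity
  · intro z hz
    obtain ⟨w0, hw0, h0⟩ := inReg hP hz
    have h1 := nr h0
    rcases hU.cov w0 hw0 with h | h | h
    · refine Or.inl fun w hw => h w ?_
      rw [norm_sub_rev] at hw ⊢
      have := tri2 h1 hw
      linarith
    · exact Or.inr (Or.inl ⟨_, h, h1⟩)
    · exact Or.inr (Or.inr ⟨_, h, h1⟩)
  · intro i hi hi' z hz
    obtain ⟨j, hj, w0, hw0, h0⟩ := hP.l1 i hi hi' z hz
    obtain ⟨h1, h2⟩ := hU.two j hj.1 hj.2 w0 hw0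
    refine ⟨⟨_, h1, nr h0⟩, fun w hw => ?_⟩
    have := tri (nr h0) (h2 w hw)
    linarith
  · intro i hi hi' z hz
    obtain ⟨j, hj, w0, hw0, h0⟩ := hP.l3 i hi hi' z hz
    obtain ⟨h1, h2⟩ := hU.four j hj.1 hj.2 w0 hw0
    refine ⟨⟨_, h1, nr h0⟩, fun w hw => ?_⟩
    have := tri (nr h0) (h2 w hw)
    linarith
  · rintro z ⟨n, hn, hzn⟩ w ⟨n', hn', hwn⟩
    have h1 := tri hzn (hU.sep n hn n' hn')
    rw [norm_sub_rev] at h1
    have h2 := tri hwn h1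
    rw [norm_sub_rev]
    linarith
  · rintro p hp z ⟨n, hn, hzn⟩ hpz
    refine hU.A2 p hp n hn ?_
    rw [norm_sub_rev] at hpz ⊢
    have := tri2 hzn hpz
    linarith
  · rintro p hp z ⟨n, hn, hzn⟩ hpz
    refine hU.B4 p hp n hn ?_
    rw [norm_sub_rev] at hpz ⊢
    have := tri2 hzn hpz
    linarith

/-- **(T11)** -/
theorem stPert : StPert := by
  intro S e D A B ρ N2 N4
  refine ⟨fun h => ?_, fun h => ?_⟩
  · obtain ⟨δ, h0, h1⟩ := upG h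
    exact ⟨δ, h0, ρ / 2, _, _, h1⟩
  · obtain ⟨δ, h0, h1⟩ := loG h
    exact ⟨δ, h0, ρ / 2, _, _, h1⟩

end Pool.Agent.H22.W.Pert
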