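import Mathlib
import Pool.Agent.H45.W.Ends
import Pool.Agent.H33.Q1.Tile

set_option autoImplicit false
open Finset

/-! # Where a strand of a room with all its layers ends (StChd, V4)

Picture level. `T x y` : tile of the room. `Ld T` : labels of all tiles which touch the room, also diagonally
(room, one layer, all diagonal tiles). A mark `m` is a convex corner of the room: diagonal tile `(u, v)`, tile
of the room `(u + sx, v + sy)`, vertical neighbour `vn`, horizontal neighbour `hn`. `VH T D w M z` : the wall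
colours agree along the walls except at the deleted layer tiles (where they change) and between `dg` and `hn`
of a mark; `D` consists of rows. `X1`, `X2` : the loose sides of `dg` and of `hn`, `al` : the alive one.
`VH.ex` : the strand of `z` ends at `al m` for some mark, `VH.un` : only there. -/

namespace Pool.Agent.H22.W.Vc

open Pool.Agent.H75.TwoArm Pool.Agent.H99.W Pool.Agent.H13.W Pool.Agent.H33.Q1
open Pool.Agent.H45.W (od ev ot Wld AS Pass PB sq_ot od_ot ot_ot lab_cases' side_uniq exists_nb TJ_turn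
  ot_eE ot_eW far_unique rt lf)

/-! ### Tiles and points -/

/-- the lattice point `(i, j)` in label coordinates -/
def pt (i j : ℤ) : ℤ × ℤ := (i - j, i + j)

variable {x y i j : ℤ}

lemma ev_pt (i j : ℤ) : ev (pt i j) := by unfold ev pt; simp only; omega

lemma exists_pt' {P : ℤ × ℤ} (h : ev P) : ∃ i j, P = pt i j := by
  obtain ⟨a, b⟩ := P
  unfold ev at h
  simp only at h
  refine ⟨(a + b) / 2, (b - a) / 2, ?_⟩
  unfold pt
  refine Prod.ext ?_ ?_ <;> simp only <;> omega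

/-- tiles and sides at a point -/
lemma geo {c : ℤ × ℤ} (h1 : Pool.Agent.H45.W.sq c (lt (x, y))) (h2 : Pool.Agent.H45.W.sq c (pt i j)) :
    (x = i ∨ x = i - 1) ∧ (y = j ∨ y = j - 1) ∧
    ((c = eW (lt (i, y)) ∧ ot c (lt (x, y)) = lt (2 * i - 1 - x, y)) ∨
      (c = eS (lt (x, j)) ∧ ot c (lt (x, y)) = lt (x, 2 * j - 1 - y))) := by
  obtain ⟨a, b⟩ := c
  unfold Pool.Agent.H45.W.sq lt pt at *
  unfold ot eW eS
  simp only [Prod.mk.injEq] at *
  omega

lemma nbr {c : ℤ × ℤ} (h : Pool.Agent.H45.W.sq c (lt (x, y))) :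
    ot c (lt (x, y)) = lt (x + 1, y) ∨ ot c (lt (x, y)) = lt (x - 1, y) ∨
      ot c (lt (x, y)) = lt (x, y + 1) ∨ ot c (lt (x, y)) = lt (x, y - 1) := by
  obtain ⟨a, b⟩ := c
  unfold Pool.Agent.H45.W.sq lt at *
  unfold ot
  simp only [Prod.mk.injEq] at *
  omega

lemma up_lt (x y : ℤ) : up (lt (x, y)) = lt (x, y + 1) := by
  unfold up lt; refine Prod.ext ?_ ?_ <;> simp only <;> ring
lemma dn_lt (x y : ℤ) : Pool.Agent.H13.W.dn (lt (x, y)) = lt (x, y - 1) := by
  unfold Pool.Agent.H13.W.dn lt; refine Prod.ext ?_ ?_ <;> simp only <;> ring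
lemma rt_lt (x y : ℤ) : rt (lt (x, y)) = lt (x + 1, y) := by
  unfold rt lt; refine Prod.ext ?_ ?_ <;> simp only <;> ring
lemma lf_lt (x y : ℤ) : lf (lt (x, y)) = lt (x - 1, y) := by
  unfold lf lt; refine Prod.ext ?_ ?_ <;> simp only <;> ring
lemma up_pt (i j : ℤ) : up (pt i j) = pt i (j + 1) := by
  unfold up pt; refine Prod.ext ?_ ?_ <;> simp only <;> ring
lemma dn_pt (i j : ℤ) : Pool.Agent.H13.W.dn (pt i j) = pt i (j - 1) := by
  unfold Pool.Agent.H13.W.dn pt; refine Prod.ext ?_ ?_ <;> simp only <;> ring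

lemma lt_eq {a b : ℤ} : lt (x, y) = lt (a, b) ↔ x = a ∧ y = b := by
  constructor
  · intro h
    have := lt_inj h
    simpa using this
  · rintro ⟨rfl, rfl⟩; rfl

lemma eE_lt (x y : ℤ) : eE (lt (x, y)) = eW (lt (x + 1, y)) := by
  unfold eE eW lt; refine Prod.ext ?_ ?_ <;> simp only <;> ring
lemma eN_lt (x y : ℤ) : eN (lt (x, y)) = eS (lt (x, y + 1)) := by
  unfold eN eS lt; refine Prod.ext ?_ ?_ <;> simp only <;> ring

lemma od_lt (x y : ℤ) : od (lt (x, y)) := lt_odd _

/-! ### Rooms -/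

/-- labels of the room -/
def Lt (T : ℤ → ℤ → Prop) : Set (ℤ × ℤ) := {e | ∃ x y, e = lt (x, y) ∧ T x y}

/-- the tile touches the room -/
def Tc (T : ℤ → ℤ → Prop) (x y : ℤ) : Prop :=
  ∃ a b, (x ≤ a + 1 ∧ a ≤ x + 1) ∧ (y ≤ b + 1 ∧ b ≤ y + 1) ∧ T a b

/-- labels of the tiles which touch the room -/
def Ld (T : ℤ → ℤ → Prop) : Set (ℤ × ℤ) := {e | ∃ x y, e = lt (x, y) ∧ Tc T x y}

/-- the point `(i, j)` touches the room -/
def Nr (T : ℤ → ℤ → Prop) (i j : ℤ) : Prop := ∃ x y, (x = i ∨ x = i - 1) ∧ (y = j ∨ y = j - 1) ∧ T x y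

/-- **convex corners** -/
structure Mark where
  u : ℤ
  v : ℤ
  sx : ℤ
  sy : ℤ

namespace Mark

/-- the diagonal tile -/
def dg (m : Mark) : ℤ × ℤ := lt (m.u, m.v)
/-- its neighbour in the horizontal layer -/
def hn (m : Mark) : ℤ × ℤ := lt (m.u + m.sx, m.v)
/-- its neighbour in the vertical layer -/
def vn (m : Mark) : ℤ × ℤ := lt (m.u, m.v + m.sy)
/-- the corner point -/
def pi (m : Mark) : ℤ := if m.sx = 1 then m.u + 1 else m.u
/-- the corner point -/
def pj (m : Mark) : ℤ := if m.sy = 1 then m.v + 1 else m.v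
/-- loose side of the diagonal tile -/
def X1 (m : Mark) : ℤ × ℤ := if m.sy = 1 then eS m.dg else eN m.dg
/-- loose side of the neighbour in the horizontal layer -/
def X2 (m : Mark) : ℤ × ℤ := if m.sy = 1 then eS m.hn else eN m.hn

/-- the room is a quadrant near the corner -/
def Cvx (T : ℤ → ℤ → Prop) (m : Mark) : Prop := (m.sx = 1 ∨ m.sx = -1) ∧ (m.sy = 1 ∨ m.sy = -1) ∧
  ∀ a b, -3 ≤ a → a ≤ 3 → -3 ≤ b → b ≤ 3 → (T (m.u + m.sx * a) (m.v + m.sy * b) ↔ 1 ≤ a ∧ 1 ≤ b)

open Classical in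
/-- **the alive end** at the mark -/
noncomputable def al (w : Finset (ℤ × ℤ)) (m : Mark) : ℤ × ℤ :=
  if (m.hn ∈ w ↔ (m.pi - m.pj) % 2 = 1) then m.X1 else m.X2

end Mark

/-- **The hypotheses.** -/
structure VH (T : ℤ → ℤ → Prop) (D : Set (ℤ × ℤ)) (w : Finset (ℤ × ℤ)) (M : Set Mark) (z : ℤ × ℤ) :
    Prop where
  fin : (Ld T).Finite
  /-- thickness -/
  cvx : ∀ u v sx sy, (sx = 1 ∨ sx = -1) → (sy = 1 ∨ sy = -1) → T (u + sx) (v + sy) → ¬ T (u + sx) v →
    ¬ T u (v + sy) → ¬ T u v → Mark.Cvx T ⟨u, v, sx, sy⟩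
  mc : ∀ m ∈ M, Mark.Cvx T m
  /-- the colours of the vertical walls -/
  colV : ∀ x y s, (s = 1 ∨ s = -1) → ¬ T x y → ¬ T x (y + 1) → T (x + s) y → T (x + s) (y + 1) →
    lt (x, y) ∉ D → lt (x, y + 1) ∉ D → (lt (x, y) ∈ w ↔ lt (x, y + 1) ∈ w)
  /-- the colours of the horizontal walls -/
  colH : ∀ x y s, (s = 1 ∨ s = -1) → ¬ T x y → ¬ T (x + 1) y → T x (y + s) → T (x + 1) (y + s) →
    lt (x, y) ∉ D → lt (x + 1, y) ∉ D → (lt (x, y) ∈ w ↔ lt (x + 1, y) ∈ w)
  /-- the diagonal tile has the colour of the vertical wall -/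
  cvV : ∀ m, Mark.Cvx T m → m.dg ∉ D → m.vn ∉ D → (m.dg ∈ w ↔ m.vn ∈ w)
  /-- and of the horizontal wall, if the corner is not a mark -/
  cvH : ∀ m, Mark.Cvx T m → m ∉ M → m.dg ∉ D → m.hn ∉ D → (m.dg ∈ w ↔ m.hn ∈ w)
  mD : ∀ m ∈ M, m.dg ∉ D ∧ m.hn ∉ D ∧ m.vn ∉ D
  mkc : ∀ m ∈ M, (m.dg ∈ w ↔ m.hn ∉ w)
  /-- a deleted layer tile -/
  cross : ∀ x y, lt (x, y) ∈ D → ¬ T x y → Tc T x y → ∃ s, (s = 1 ∨ s = -1) ∧ T (x + s) y ∧
    (¬ T (x - s) (y - 1) ∧ ¬ T (x - s) y ∧ ¬ T (x - s) (y + 1)) ∧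
    (¬ T x (y + 1) ∧ lt (x, y + 1) ∉ D) ∧ (¬ T x (y - 1) ∧ lt (x, y - 1) ∉ D) ∧
    (lt (x, y + 1) ∈ w ↔ lt (x, y - 1) ∉ w)
  /-- `D` consists of rows -/
  rowE : ∀ x y, lt (x, y) ∈ D → Tc T x y → lt (x + 1, y) ∈ D ∨ ¬ Tc T (x + 1) y
  rowW : ∀ x y, lt (x, y) ∈ D → Tc T x y → lt (x - 1, y) ∈ D ∨ ¬ Tc T (x - 1) y ∨
    (z = eW (lt (x, y)) ∧ T (x - 1) y)
  hz : ∃ x y, z = eW (lt (x, y)) ∧ lt (x, y) ∈ D ∧ T (x - 1) y ∧ lt (x - 1, y) ∉ D

variable {T : ℤ → ℤ → Prop} {D Λ : Set (ℤ × ℤ)} {w : Finset (ℤ × ℤ)} {M : Set Mark} {z : ℤ × ℤ}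
  {m m' : Mark} {c d e : ℤ × ℤ}

lemma mem_Lt : lt (x, y) ∈ Lt T ↔ T x y := by
  constructor
  · rintro ⟨x', y', h1, h2⟩
    obtain ⟨rfl, rfl⟩ := lt_eq.1 h1
    exact h2
  · exact fun h => ⟨x, y, rfl, h⟩

lemma mem_Ld : lt (x, y) ∈ Ld T ↔ Tc T x y := by
  constructor
  · rintro ⟨x', y', h1, h2⟩
    obtain ⟨rfl, rfl⟩ := lt_eq.1 h1
    exact h2
  · exact fun h => ⟨x, y, rfl, h⟩

lemma PB_iff : PB (Lt T) (pt i j) ↔ Nr T i j := by
  constructor
  · rintro ⟨e, ⟨x, y, rfl, h⟩, c, h1, h2⟩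
    obtain ⟨g1, g2, -⟩ := geo h1 h2
    exact ⟨x, y, g1, g2, h⟩
  · rintro ⟨x, y, h1, h2, h3⟩
    refine ⟨lt (x, y), mem_Lt.2 h3, eS (lt (x, j)), ?_, ?_⟩
    · unfold Pool.Agent.H45.W.sq eS lt; simp only; omega
    · unfold Pool.Agent.H45.W.sq eS lt pt; simp only; omega

lemma Nr.tc (h : Nr T i j) (hx : x = i ∨ x = i - 1) (hy : y = j ∨ y = j - 1) : Tc T x y := by
  obtain ⟨a, b, h1, h2, h3⟩ := h
  exact ⟨a, b, by omega, by omega, h3⟩

/-! ### Convex corners -/

namespace Mark.Cvx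

variable (h : Mark.Cvx T m)
include h

/-- the tiles near the diagonal tile -/
lemma near {a b : ℤ} (h1 : m.u - 2 ≤ a) (h2 : a ≤ m.u + 2) (h3 : m.v - 2 ≤ b) (h4 : b ≤ m.v + 2) :
    T a b ↔ (1 ≤ m.sx * (a - m.u) ∧ 1 ≤ m.sy * (b - m.v)) := by
  obtain ⟨k1, k2, k3⟩ := h
  have key := k3 (m.sx * (a - m.u)) (m.sy * (b - m.v))
  have e1 : m.u + m.sx * (m.sx * (a - m.u)) = a := by
    rcases k1 with k | k <;> rw [k] <;> ring
  have e2 : m.v + m.sy * (m.sy * (b - m.v)) = b := by
    rcases k2 with k | k <;> rw [k] <;> ring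
  rw [e1, e2] at key
  apply key
  · rcases k1 with k | k <;> rw [k] <;> omega
  · rcases k1 with k | k <;> rw [k] <;> omega
  · rcases k2 with k | k <;> rw [k] <;> omega
  · rcases k2 with k | k <;> rw [k] <;> omega

/-- the diagonal tile touches only the tile of the room -/
lemma eq_of {a b : ℤ} (h1 : m.u - 1 ≤ a) (h2 : a ≤ m.u + 1) (h3 : m.v - 1 ≤ b) (h4 : b ≤ m.v + 1)
    (ht : T a b) : a = m.u + m.sx ∧ b = m.v + m.sy := by
  have k := (h.near (by omega) (by omega) (by omega) (by omega)).1 ht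
  obtain ⟨k1, k2, -⟩ := h
  rcases k1 with k1 | k1 <;> rcases k2 with k2 | k2 <;> rw [k1, k2] at k ⊢ <;> omega

lemma room : T (m.u + m.sx) (m.v + m.sy) := by
  obtain ⟨k1, k2, k3⟩ := h
  have := (k3 1 1 (by norm_num) (by norm_num) (by norm_num) (by norm_num)).2 ⟨le_rfl, le_rfl⟩
  simpa using this

lemma nd : ¬ T m.u m.v := by
  intro h'
  have := h.eq_of (by omega) (by omega) (by omega) (by omega) h'
  obtain ⟨k1, k2, -⟩ := h
  omega

lemma nh : ¬ T (m.u + m.sx) m.v := by
  intro h'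
  have k1 := h.1
  have := h.eq_of (by omega) (by omega) (by omega) (by omega) h'
  have := h.2.1
  omega

lemma nv : ¬ T m.u (m.v + m.sy) := by
  intro h'
  have k1 := h.2.1
  have := h.eq_of (by omega) (by omega) (by omega) (by omega) h'
  have := h.1
  omega

lemma tc_dg : Tc T m.u m.v := by
  have k1 := h.1
  have k2 := h.2.1
  exact ⟨_, _, by omega, by omega, h.room⟩

lemma tc_hn : Tc T (m.u + m.sx) m.v := by
  have k1 := h.1
  have k2 := h.2.1
  exact ⟨_, _, by omega, by omega, h.room⟩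

lemma tc_vn : Tc T m.u (m.v + m.sy) := by
  have k1 := h.1
  have k2 := h.2.1
  exact ⟨_, _, by omega, by omega, h.room⟩

/-- the tile beyond the diagonal tile -/
lemma far_dg : ¬ Tc T m.u (m.v - m.sy) := by
  rintro ⟨a, b, h1, h2, h3⟩
  have k1 := h.1
  have k2 := h.2.1
  have := (h.near (by omega) (by omega) (by omega) (by omega)).1 h3
  rcases k2 with k2 | k2 <;> rw [k2] at this h2 <;> omega

/-- the tile beyond its neighbour in the horizontal layer -/
lemma far_hn : ¬ Tc T (m.u + m.sx) (m.v - m.sy) := by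
  rintro ⟨a, b, h1, h2, h3⟩
  have k1 := h.1
  have k2 := h.2.1
  have := (h.near (by omega) (by omega) (by omega) (by omega)).1 h3
  rcases k2 with k2 | k2 <;> rw [k2] at this h2 <;> omega

end Mark.Cvx

/-- the vertical neighbour of a room tile is not a diagonal tile -/
lemma not_dg_of {s : ℤ} (hm : Mark.Cvx T m) (hs : s = 1 ∨ s = -1) (h : T x (y + s)) :
    lt (x, y) ≠ m.dg := by
  intro h1
  obtain ⟨rfl, rfl⟩ := lt_eq.1 h1
  have := hm.eq_of (by omega) (by omega) (by omega) (by omega) h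
  have := hm.1
  omega

/-- the horizontal neighbour of a room tile is not a diagonal tile -/
lemma not_dg_of' {s : ℤ} (hm : Mark.Cvx T m) (hs : s = 1 ∨ s = -1) (h : T (x + s) y) :
    lt (x, y) ≠ m.dg := by
  intro h1
  obtain ⟨rfl, rfl⟩ := lt_eq.1 h1
  have := hm.eq_of (by omega) (by omega) (by omega) (by omega) h
  have := hm.2.1
  omega

/-! ### Isolated sides and ends -/

/-- a side with only one tile is an end -/
lemma isEnd_one (h1 : Pool.Agent.H45.W.sq c e) (ho : od e) (h2 : ot c e ∉ Λ) : IsEnd (SG Λ D w) c := by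
  rintro a b ⟨e1, he1, hT1⟩ ⟨e2, he2, hT2⟩
  obtain ⟨a1, a2, -⟩ := Pool.Agent.H45.W.TJ.sqs hT1
  obtain ⟨b1, b2, -⟩ := Pool.Agent.H45.W.TJ.sqs hT2
  have k1 : e1 = e := by
    rcases lab_cases' ho h1 a1 a2 with k | k
    · exact k
    · exact absurd (k ▸ he1) h2
  have k2 : e2 = e := by
    rcases lab_cases' ho h1 b1 b2 with k | k
    · exact k
    · exact absurd (k ▸ he2) h2
  subst k1
  subst k2
  exact hT1.unique hT2

/-- the west side of a deleted tile whose left neighbour is natural -/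
lemma isEnd_W (hD : lt (x, y) ∈ D) : IsEnd (SG Λ D w) (eW (lt (x, y))) := by
  rintro a b ⟨e1, he1, hT1⟩ ⟨e2, he2, hT2⟩
  obtain ⟨a1, a2, -⟩ := Pool.Agent.H45.W.TJ.sqs hT1
  obtain ⟨b1, b2, -⟩ := Pool.Agent.H45.W.TJ.sqs hT2
  have hs : Pool.Agent.H45.W.sq (eW (lt (x, y))) (lt (x, y)) := Pool.Agent.H45.W.sq_eW _
  have k1 : e1 = ot (eW (lt (x, y))) (lt (x, y)) := by
    rcases lab_cases' (od_lt x y) hs a1 a2 with k | k
    · exfalso
      rw [k] at hT1
      exact not_TJ_eW hD hT1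
    · exact k
  have k2 : e2 = ot (eW (lt (x, y))) (lt (x, y)) := by
    rcases lab_cases' (od_lt x y) hs b1 b2 with k | k
    · exfalso
      rw [k] at hT2
      exact not_TJ_eW hD hT2
    · exact k
  subst k1
  rw [k2] at hT2
  exact hT1.unique hT2

/-- the west side of a deleted tile without left neighbour is isolated -/
lemma iso_W (hD : lt (x, y) ∈ D) (h : lt (x - 1, y) ∉ Λ) (a : ℤ × ℤ) :
    ¬ (SG Λ D w).Adj (eW (lt (x, y))) a := by
  rintro ⟨e1, he1, hT1⟩
  obtain ⟨a1, a2, -⟩ := Pool.Agent.H45.W.TJ.sqs hT1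
  rcases lab_cases' (od_lt x y) (Pool.Agent.H45.W.sq_eW _) a1 a2 with k | k
  · rw [k] at hT1
    exact not_TJ_eW hD hT1
  · rw [ot_eW, lf_lt] at k
    exact h (k ▸ he1)

/-- the east side of a deleted tile without right neighbour is isolated -/
lemma iso_E (hD : lt (x, y) ∈ D) (h : lt (x + 1, y) ∉ Λ) (a : ℤ × ℤ) :
    ¬ (SG Λ D w).Adj (eE (lt (x, y))) a := by
  rintro ⟨e1, he1, hT1⟩
  obtain ⟨a1, a2, -⟩ := Pool.Agent.H45.W.TJ.sqs hT1
  rcases lab_cases' (od_lt x y) (Pool.Agent.H45.W.sq_eE _) a1 a2 with k | k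
  · rw [k] at hT1
    exact not_TJ_eE hD hT1
  · rw [ot_eE, rt_lt] at k
    exact h (k ▸ he1)

/-! ### The world without the diagonal tiles of the marks -/

/-- the tiles without the diagonal tiles of the marks -/
def LM (T : ℤ → ℤ → Prop) (M : Set Mark) : Set (ℤ × ℤ) := {e | e ∈ Ld T ∧ ∀ m ∈ M, e ≠ m.dg}

/-- admissible ends -/
def FM (T : ℤ → ℤ → Prop) (M : Set Mark) (D : Set (ℤ × ℤ)) (w : Finset (ℤ × ℤ)) (z : ℤ × ℤ) :
    Set (ℤ × ℤ) :=
  {c | c = z ∨ (∃ m ∈ M, Pool.Agent.H45.W.sq c m.dg) ∨ ∀ a, ¬ (SG (LM T M) D w).Adj c a}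

namespace VH

variable (H : VH T D w M z)
include H

/-- neighbours in a row -/
lemma eqH (hN : Nr T i j) (hy : y = j ∨ y = j - 1) (h1 : ¬ T (i - 1) y) (h2 : ¬ T i y)
    (k1 : lt (i - 1, y) ∉ D) (k2 : lt (i, y) ∉ D) (g1 : ∀ m ∈ M, lt (i - 1, y) ≠ m.dg)
    (g2 : ∀ m ∈ M, lt (i, y) ≠ m.dg) : lt (i - 1, y) ∈ w ↔ lt (i, y) ∈ w := by
  obtain ⟨s, hs, e⟩ : ∃ s, (s = 1 ∨ s = -1) ∧ 2 * j - 1 - y = y + s := by
    rcases hy with rfl | rfl
    · exact ⟨-1, Or.inr rfl, by ring⟩
    · exact ⟨1, Or.inl rfl, by ring⟩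
  have hT : T (i - 1) (y + s) ∨ T i (y + s) := by
    obtain ⟨a, b, ha, hb, hab⟩ := hN
    have hb' : b = y ∨ b = y + s := by omega
    rcases ha with rfl | rfl <;> rcases hb' with rfl | rfl
    · exact absurd hab h2
    · exact Or.inr hab
    · exact absurd hab h1
    · exact Or.inl hab
  have e1 : i - 1 + 1 = i := by ring
  by_cases c1 : T (i - 1) (y + s)
  · by_cases c2 : T i (y + s)
    · have := H.colH (i - 1) y s hs h1 (by rw [e1]; exact h2) c1 (by rw [e1]; exact c2) k1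
        (by rw [e1]; exact k2)
      rwa [e1] at this
    · have hc := H.cvx i y (-1) s (Or.inr rfl) hs c1 h1 c2 h2
      have := H.cvH _ hc (fun hm => g2 _ hm rfl) k2 k1
      exact this.symm
  · have c2 : T i (y + s) := by tauto
    have hc := H.cvx (i - 1) y 1 s (Or.inl rfl) hs (by rw [e1]; exact c2) (by rw [e1]; exact h2) c1 h1
    have := H.cvH _ hc (fun hm => g1 _ hm rfl) k1 (by unfold Mark.hn; simp only; rw [e1]; exact k2)
    unfold Mark.hn Mark.dg at this
    simp only at this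
    rwa [e1] at this

/-- neighbours in a column -/
lemma eqV (hN : Nr T i j) (hx : x = i ∨ x = i - 1) (h1 : ¬ T x (j - 1)) (h2 : ¬ T x j)
    (k1 : lt (x, j - 1) ∉ D) (k2 : lt (x, j) ∉ D) : lt (x, j - 1) ∈ w ↔ lt (x, j) ∈ w := by
  obtain ⟨s, hs, e⟩ : ∃ s, (s = 1 ∨ s = -1) ∧ 2 * i - 1 - x = x + s := by
    rcases hx with rfl | rfl
    · exact ⟨-1, Or.inr rfl, by ring⟩
    · exact ⟨1, Or.inl rfl, by ring⟩
  have hT : T (x + s) (j - 1) ∨ T (x + s) j := by
    obtain ⟨a, b, ha, hb, hab⟩ := hN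
    have ha' : a = x ∨ a = x + s := by omega
    rcases ha' with rfl | rfl <;> rcases hb with rfl | rfl
    · exact absurd hab h2
    · exact absurd hab h1
    · exact Or.inr hab
    · exact Or.inl hab
  have e1 : j - 1 + 1 = j := by ring
  by_cases c1 : T (x + s) (j - 1)
  · by_cases c2 : T (x + s) j
    · have := H.colV x (j - 1) s hs h1 (by rw [e1]; exact h2) c1 (by rw [e1]; exact c2) k1
        (by rw [e1]; exact k2)
      rwa [e1] at this
    · have hc := H.cvx x j s (-1) hs (Or.inr rfl) c1 c2 h1 h2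
      have := H.cvV _ hc k2 k1
      exact this.symm
  · have c2 : T (x + s) j := by tauto
    have hc := H.cvx x (j - 1) s 1 hs (Or.inl rfl) (by rw [e1]; exact c2) c1 (by rw [e1]; exact h2) h1
    have := H.cvV _ hc k1 (by unfold Mark.vn; simp only; rw [e1]; exact k2)
    unfold Mark.vn Mark.dg at this
    simp only at this
    rwa [e1] at this

/-- **The world without the diagonal tiles of the marks is a world of helper45.** -/
theorem wld : Wld (Lt T) (LM T M) D w (FM T M D w z) where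
  fin := H.fin.subset fun _ h => h.1
  odd := by
    rintro e ⟨⟨x, y, rfl, -⟩, -⟩
    exact od_lt x y
  sub := by
    rintro e ⟨x, y, rfl, h⟩
    refine ⟨mem_Ld.2 ⟨x, y, by omega, by omega, h⟩, fun m hm h' => ?_⟩
    obtain ⟨rfl, rfl⟩ := lt_eq.1 h'
    exact (H.mc m hm).nd h
  lay := by
    rintro e ⟨x, y, rfl, h⟩ c hc
    have key : ∀ a b, (x = a + 1 ∧ y = b) ∨ (x = a - 1 ∧ y = b) ∨ (x = a ∧ y = b + 1) ∨
        (x = a ∧ y = b - 1) → lt (a, b) ∈ LM T M := by
      intro a b hab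
      refine ⟨mem_Ld.2 ⟨x, y, by omega, by omega, h⟩, fun m hm => ?_⟩
      rcases hab with ⟨h1, h2⟩ | ⟨h1, h2⟩ | ⟨h1, h2⟩ | ⟨h1, h2⟩
      · exact not_dg_of' (s := 1) (H.mc m hm) (Or.inl rfl) (by rw [← h1, ← h2]; exact h)
      · exact not_dg_of' (s := -1) (H.mc m hm) (Or.inr rfl) (by
          rw [show a + -1 = x by omega, ← h2]; exact h)
      · exact not_dg_of (s := 1) (H.mc m hm) (Or.inl rfl) (by rw [← h1, ← h2]; exact h)
      · exact not_dg_of (s := -1) (H.mc m hm) (Or.inr rfl) (by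
          rw [show b + -1 = y by omega, ← h1]; exact h)
    rcases nbr hc with e | e | e | e <;> rw [e] <;> apply key <;> omega
  nxt := by
    intro P e c hPB hev heΛ heQ heD hst h1 h2
    obtain ⟨i, j, rfl⟩ := exists_pt' hev
    obtain ⟨⟨x, y, rfl, hTc⟩, hmk⟩ := heΛ
    rw [mem_Lt] at heQ
    rw [PB_iff] at hPB
    obtain ⟨g1, g2, g3⟩ := geo h1 h2
    rcases g3 with ⟨g3, g4⟩ | ⟨g3, g4⟩
    · -- a vertical side
      rw [g4, mem_Lt]
      by_cases hq : T (2 * i - 1 - x) y
      · exact Or.inl hq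
      right
      by_cases hm : ∃ m ∈ M, lt (2 * i - 1 - x, y) = m.dg
      · obtain ⟨m, hm1, hm2⟩ := hm
        refine Or.inr (Or.inr ⟨fun h => h.2 m hm1 hm2, Or.inr (Or.inl ⟨m, hm1, ?_⟩)⟩)
        rw [← hm2, ← g4]
        exact sq_ot h1
      push Not at hm
      have hx' : 2 * i - 1 - x = i ∨ 2 * i - 1 - x = i - 1 := by omega
      have htc' := hPB.tc hx' g2
      have hin : lt (2 * i - 1 - x, y) ∈ LM T M := ⟨mem_Ld.2 htc', hm⟩
      by_cases hD : lt (2 * i - 1 - x, y) ∈ D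
      · exfalso
        rcases g1 with rfl | rfl
        · have e1 : 2 * x - 1 - x = x - 1 := by ring
          rw [e1] at hD htc'
          rcases H.rowE _ _ hD htc' with k | k
          · rw [sub_add_cancel] at k; exact heD k
          · rw [sub_add_cancel] at k; exact k hTc
        · have e1 : 2 * i - 1 - (i - 1) = i := by ring
          rw [e1] at hD htc'
          rcases H.rowW _ _ hD htc' with k | k | ⟨-, k⟩
          · exact heD k
          · exact k hTc
          · exact heQ k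
      · refine Or.inl ⟨hin, hD, ?_⟩
        rw [← hst]
        rcases g1 with rfl | rfl
        · have e1 : 2 * x - 1 - x = x - 1 := by ring
          rw [e1] at hq hD hm ⊢
          exact H.eqH hPB g2 hq heQ hD heD hm hmk
        · have e1 : 2 * i - 1 - (i - 1) = i := by ring
          rw [e1] at hq hD hm ⊢
          exact (H.eqH hPB g2 heQ hq heD hD hmk hm).symm
    · -- a horizontal side
      rw [g4, mem_Lt]
      by_cases hq : T x (2 * j - 1 - y)
      · exact Or.inl hq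
      right
      by_cases hm : ∃ m ∈ M, lt (x, 2 * j - 1 - y) = m.dg
      · obtain ⟨m, hm1, hm2⟩ := hm
        refine Or.inr (Or.inr ⟨fun h => h.2 m hm1 hm2, Or.inr (Or.inl ⟨m, hm1, ?_⟩)⟩)
        rw [← hm2, ← g4]
        exact sq_ot h1
      push Not at hm
      have hy' : 2 * j - 1 - y = j ∨ 2 * j - 1 - y = j - 1 := by omega
      have hin : lt (x, 2 * j - 1 - y) ∈ LM T M := ⟨mem_Ld.2 (hPB.tc g1 hy'), hm⟩
      by_cases hD : lt (x, 2 * j - 1 - y) ∈ D
      · refine Or.inr (Or.inl ⟨hin, hD, ?_⟩)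
        rcases g2 with rfl | rfl
        · right
          rw [g3, show 2 * y - 1 - y = y - 1 by ring, eN_lt, sub_add_cancel]
        · left
          rw [g3, show 2 * j - 1 - (j - 1) = j by ring]
      · refine Or.inl ⟨hin, hD, ?_⟩
        rw [← hst]
        rcases g2 with rfl | rfl
        · have e1 : 2 * y - 1 - y = y - 1 := by ring
          rw [e1] at hq hD ⊢
          exact H.eqV hPB g1 hq heQ hD heD
        · have e1 : 2 * j - 1 - (j - 1) = j := by ring
          rw [e1] at hq hD ⊢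
          exact (H.eqV hPB g1 heQ hq heD hD).symm
  del := by
    intro e heΛ heD heQ P hPB hev hsq
    obtain ⟨i, j, rfl⟩ := exists_pt' hev
    obtain ⟨⟨x, y, rfl, hTc⟩, hmk⟩ := heΛ
    rw [mem_Lt] at heQ
    rw [PB_iff] at hPB
    obtain ⟨s, hs, t1, ⟨t2, t3, t4⟩, ⟨t5, t6⟩, ⟨t7, t8⟩, t9⟩ := H.cross x y heD heQ hTc
    rw [up_lt, dn_lt, up_pt, dn_pt, PB_iff, PB_iff, mem_Lt, mem_Lt]
    refine ⟨⟨⟨mem_Ld.2 ⟨x + s, y, by omega, by omega, t1⟩, fun m hm h => ?_⟩, t6, t5⟩,
      ⟨⟨mem_Ld.2 ⟨x + s, y, by omega, by omega, t1⟩, fun m hm h => ?_⟩, t8, t7⟩, t9, ?_, ?_⟩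
    · obtain ⟨h3, h4⟩ := lt_eq.1 h
      have h5 := (H.mc m hm).eq_of (a := x + s) (b := y) (by omega) (by omega) (by omega) (by omega) t1
      apply (H.mD m hm).2.2
      unfold Mark.vn
      rw [← h3, ← h5.2]; exact heD
    · obtain ⟨h3, h4⟩ := lt_eq.1 h
      have h5 := (H.mc m hm).eq_of (a := x + s) (b := y) (by omega) (by omega) (by omega) (by omega) t1
      apply (H.mD m hm).2.2
      unfold Mark.vn
      rw [← h3, ← h5.2]; exact heD
    · intro h
      have hj : j = y + 1 ∧ (i = x ∨ i = x + 1) := by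
        unfold Pool.Agent.H45.W.sq eN lt pt at h; simp only at h; omega
      obtain ⟨rfl, hi⟩ := hj
      obtain ⟨a, b, ha, hb, hab⟩ := hPB
      rw [add_sub_cancel_right] at hb
      by_cases hr : x + s = i ∨ x + s = i - 1
      · exact ⟨x + s, y, hr, by omega, t1⟩
      · exfalso
        have ha' : a = x ∨ a = x - s := by omega
        rcases ha' with rfl | rfl <;> rcases hb with rfl | rfl
        · exact t5 hab
        · exact heQ hab
        · exact t4 hab
        · exact t3 hab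
    · intro h
      have hj : j = y ∧ (i = x ∨ i = x + 1) := by
        unfold Pool.Agent.H45.W.sq eS lt pt at h; simp only at h; omega
      obtain ⟨rfl, hi⟩ := hj
      obtain ⟨a, b, ha, hb, hab⟩ := hPB
      by_cases hr : x + s = i ∨ x + s = i - 1
      · exact ⟨x + s, j, hr, by omega, t1⟩
      · exfalso
        have ha' : a = x ∨ a = x - s := by omega
        rcases ha' with rfl | rfl <;> rcases hb with rfl | rfl
        · exact heQ hab
        · exact t7 hab
        · exact t3 hab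
        · exact t2 hab
  row := by
    intro e heΛ heD
    obtain ⟨⟨x, y, rfl, hTc⟩, hmk⟩ := heΛ
    constructor
    · rcases H.rowE x y heD hTc with h | h
      · right; rw [rt_lt]; exact h
      · left; right; right
        exact iso_E heD fun h' => h (mem_Ld.1 h'.1)
    · rcases H.rowW x y heD hTc with h | h | ⟨h, -⟩
      · right; rw [lf_lt]; exact h
      · left; right; right
        exact iso_W heD fun h' => h (mem_Ld.1 h'.1)
      · left; left; exact h.symm

/-! ### Existence -/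

omit H in
lemma mono_LM : SG (LM T M) D w ≤ SG (Ld T) D w := by
  rintro a b ⟨e, he, hT⟩
  exact ⟨e, he.1, hT⟩

lemma z_end (Λ : Set (ℤ × ℤ)) : IsEnd (SG Λ D w) z := by
  obtain ⟨x, y, rfl, h1, -, -⟩ := H.hz
  exact isEnd_W h1

/-- **Existence.** -/
theorem ex : ∃ m ∈ M, (SG (Ld T) D w).Reachable z (m.al w) := by
  classical
  have W := H.wld
  obtain ⟨x0, r, hz, hD0, hT0, hD1⟩ := H.hz
  have hs0 : Pool.Agent.H45.W.sq z (lt (x0 - 1, r)) := by
    rw [hz, show eW (lt (x0, r)) = eE (lt (x0 - 1, r)) by rw [eE_lt, sub_add_cancel]]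
    exact Pool.Agent.H45.W.sq_eE _
  have hc : AS (Lt T) (LM T M) D w (FM T M D w z) z := Or.inl ⟨_, mem_Lt.2 hT0, hs0⟩
  have hn : ∃ a, (SG (LM T M) D w).Adj z a := by
    obtain ⟨d, hd⟩ := exists_nb (w := w) (od_lt _ _) hs0 (Or.inl hD1)
    exact ⟨d, _, W.sub (mem_Lt.2 hT0), hd⟩
  obtain ⟨y, hyF, hyz, hyE, hyA, hyR⟩ := W.far_exists hc (H.z_end _) hn
  have hR := hyR.mono (mono_LM (T := T) (M := M) (D := D) (w := w))
  rcases hyF with h | ⟨m, hm, hsy⟩ | h
  · exact absurd h hyz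
  · refine ⟨m, hm, ?_⟩
    have hcv := H.mc m hm
    have k1 := hcv.1
    have k2 := hcv.2.1
    obtain ⟨d1, d2, d3⟩ := H.mD m hm
    rcases hyA with ⟨e, ⟨a, b, rfl, hab⟩, hs⟩ | ⟨P, g1, g2, g3, g4⟩
    · exfalso
      rcases lab_cases' (od_lt m.u m.v) hsy (od_lt a b) hs with h | h
      · obtain ⟨rfl, rfl⟩ := lt_eq.1 h
        exact hcv.nd hab
      · have hab2 : (a = m.u + 1 ∧ b = m.v) ∨ (a = m.u - 1 ∧ b = m.v) ∨ (a = m.u ∧ b = m.v + 1) ∨
            (a = m.u ∧ b = m.v - 1) := by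
          have h0 : lt (a, b) = ot y (lt (m.u, m.v)) := h
          rcases nbr hsy with h' | h' | h' | h' <;> have h2 := lt_eq.1 (h0.trans h') <;> omega
        have := hcv.eq_of (by omega) (by omega) (by omega) (by omega) hab
        omega
    · obtain ⟨i, j, rfl⟩ := exists_pt' g1
      rw [PB_iff] at g3
      obtain ⟨q1, q2, q3⟩ := geo hsy g2
      -- the corner point
      have hij : i = m.pi ∧ j = m.pj ∧ 2 * i - 1 - m.u = m.u + m.sx ∧ 2 * j - 1 - m.v = m.v + m.sy := by
        obtain ⟨a, b, ha, hb, hab⟩ := g3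
        have hh := hcv.eq_of (a := a) (b := b) (by omega) (by omega) (by omega) (by omega) hab
        have hi : i = m.pi ∧ 2 * i - 1 - m.u = m.u + m.sx := by
          unfold Mark.pi
          rcases k1 with k1 | k1
          · rw [if_pos k1]; omega
          · rw [if_neg (by rw [k1]; norm_num)]; omega
        have hj : j = m.pj ∧ 2 * j - 1 - m.v = m.v + m.sy := by
          unfold Mark.pj
          rcases k2 with k2 | k2
          · rw [if_pos k2]; omega
          · rw [if_neg (by rw [k2]; norm_num)]; omega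
        exact ⟨hi.1, hj.1, hi.2, hj.2⟩
      obtain ⟨p1, p2, p3, p4⟩ := hij
      rw [p3, p4] at q3
      have hP : (pt i j).1 % 2 = 1 ↔ (m.pi - m.pj) % 2 = 1 := by rw [← p1, ← p2]; rfl
      have hmk := H.mkc m hm
      -- the other point of the side between `dg` and `hn`
      set P' := pt i (j - m.sy) with hP'
      have hpar : (P'.1 % 2 = 1) ↔ ¬ ((pt i j).1 % 2 = 1) := by
        rw [hP']; unfold pt; simp only; omega
      have odd' : od m.dg := od_lt _ _
      have oddh : od m.hn := od_lt _ _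
      -- the side between `dg` and `hn`
      have s1 : Pool.Agent.H45.W.sq (eW (lt (i, m.v))) m.dg := by
        unfold Mark.dg Pool.Agent.H45.W.sq eW lt; simp only; omega
      have s2 : Pool.Agent.H45.W.sq (eW (lt (i, m.v))) m.hn := by
        unfold Mark.hn Pool.Agent.H45.W.sq eW lt; simp only; omega
      have s3 : Pool.Agent.H45.W.sq (eW (lt (i, m.v))) (pt i j) := by
        unfold Pool.Agent.H45.W.sq eW lt pt; simp only; omega
      have s4 : Pool.Agent.H45.W.sq (eW (lt (i, m.v))) P' := by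
        rw [hP']; unfold Pool.Agent.H45.W.sq eW lt pt; simp only; omega
      have kS : ∀ a b : ℤ, (a = i ∨ a = i - 1) → j - m.sy = b → Pool.Agent.H45.W.sq (eS (lt (a, b))) (lt (a, b)) ∧
          Pool.Agent.H45.W.sq (eS (lt (a, b))) P' ∧ eW (lt (i, m.v)) ≠ eS (lt (a, b)) := by
        intro a b h1 h2
        rw [hP']
        refine ⟨Pool.Agent.H45.W.sq_eS _, ?_, ?_⟩
        · unfold Pool.Agent.H45.W.sq; simp only [eS, lt, pt]; omega
        · intro h; simp only [eS, eW, lt, Prod.mk.injEq] at h; omega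
      have kN : ∀ a b : ℤ, (a = i ∨ a = i - 1) → j - m.sy = b + 1 → Pool.Agent.H45.W.sq (eN (lt (a, b))) (lt (a, b)) ∧
          Pool.Agent.H45.W.sq (eN (lt (a, b))) P' ∧ eW (lt (i, m.v)) ≠ eN (lt (a, b)) := by
        intro a b h1 h2
        rw [hP']
        refine ⟨Pool.Agent.H45.W.sq_eN _, ?_, ?_⟩
        · unfold Pool.Agent.H45.W.sq; simp only [eN, lt, pt]; omega
        · intro h; simp only [eN, eW, lt, Prod.mk.injEq] at h; omega
      have x1 : Pool.Agent.H45.W.sq m.X1 m.dg ∧ Pool.Agent.H45.W.sq m.X1 P' ∧ eW (lt (i, m.v)) ≠ m.X1 := by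
        unfold Mark.X1
        rcases k2 with k2 | k2
        · rw [if_pos k2]; exact kS _ _ (by omega) (by omega)
        · rw [if_neg (by rw [k2]; norm_num)]; exact kN _ _ (by omega) (by omega)
      have x2 : Pool.Agent.H45.W.sq m.X2 m.hn ∧ Pool.Agent.H45.W.sq m.X2 P' ∧ eW (lt (i, m.v)) ≠ m.X2 := by
        unfold Mark.X2
        rcases k2 with k2 | k2
        · rw [if_pos k2]; exact kS _ _ (by omega) (by omega)
        · rw [if_neg (by rw [k2]; norm_num)]; exact kN _ _ (by omega) (by omega)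
      have hΛh : m.hn ∈ LM T M := by
        refine ⟨mem_Ld.2 hcv.tc_hn, fun m' hm' => ?_⟩
        exact not_dg_of (H.mc m' hm') k2 hcv.room
      have hΛv : m.vn ∈ LM T M := by
        refine ⟨mem_Ld.2 hcv.tc_vn, fun m' hm' => ?_⟩
        exact not_dg_of' (H.mc m' hm') k1 hcv.room
      have hev' : ev P' := ev_pt _ _
      rcases q3 with ⟨q3, q4⟩ | ⟨q3, q4⟩
      · -- through `hn`
        have hp := g4 (ot y m.dg) (od_ot (c := y) odd') (sq_ot hsy)
        have e0 : ot y m.dg = m.hn := q4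
        rw [e0] at hp
        rcases hp with hp | hp | hp
        · have hh := hp.2.2
          have e2 : m.al w = m.X1 := by
            unfold Mark.al
            rw [if_pos (hh.trans hP)]
          rw [e2]
          refine hR.trans (SimpleGraph.Adj.reachable ⟨m.dg, mem_Ld.2 hcv.tc_dg, ?_⟩)
          rw [q3]
          refine TJ_turn odd' d1 hev' ?_ s1 s4 x1.1 x1.2.1 x1.2.2
          rw [hmk, hh, hpar]
        · exact absurd hp.2.1 d2
        · exact absurd hΛh hp.1
      · -- through `vn`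
        have hp := g4 (ot y m.dg) (od_ot (c := y) odd') (sq_ot hsy)
        have e0 : ot y m.dg = m.vn := q4
        rw [e0] at hp
        rcases hp with hp | hp | hp
        · have hh := hp.2.2
          have hd := (H.cvV m hcv d1 d3).trans hh
          have hhn : m.hn ∈ w ↔ P'.1 % 2 = 1 := by
            rw [hpar, ← hd, hmk, not_not]
          have e2 : m.al w = m.X2 := by
            unfold Mark.al
            rw [if_neg]
            rw [hhn, hpar, hP]
            exact not_iff_self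
          rw [e2]
          have hne : y ≠ eW (lt (i, m.v)) := by
            rw [q3]
            simp only [eS, eW, lt, ne_eq, Prod.mk.injEq]
            omega
          have a1 : (SG (Ld T) D w).Adj y (eW (lt (i, m.v))) :=
            ⟨m.dg, mem_Ld.2 hcv.tc_dg, TJ_turn odd' d1 (ev_pt _ _) hd hsy g2 s1 s3 hne⟩
          have a2 : (SG (Ld T) D w).Adj (eW (lt (i, m.v))) m.X2 :=
            ⟨m.hn, hΛh.1, TJ_turn oddh d2 hev' hhn s2 s4 x2.1 x2.2.1 x2.2.2⟩
          exact (hR.trans a1.reachable).trans a2.reachable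
        · exact absurd hp.2.1 d3
        · exact absurd hΛv hp.1
  · exfalso
    obtain ⟨p⟩ := hyR.symm
    cases p with
    | nil => exact hyz rfl
    | cons ha _ => exact h _ ha

/-! ### Uniqueness -/

omit H in
lemma X1_end (h : Mark.Cvx T m) : IsEnd (SG (Ld T) D w) m.X1 := by
  have k2 := h.2.1
  have h1 := h.far_dg
  unfold Mark.X1
  rcases k2 with k2 | k2
  · rw [if_pos k2]
    refine isEnd_one (Pool.Agent.H45.W.sq_eS _) (od_lt _ _) ?_
    rw [Pool.Agent.H45.W.ot_eS]
    unfold Mark.dg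
    rw [dn_lt, mem_Ld]
    rw [k2] at h1; exact h1
  · rw [if_neg (by rw [k2]; norm_num)]
    refine isEnd_one (Pool.Agent.H45.W.sq_eN _) (od_lt _ _) ?_
    rw [Pool.Agent.H45.W.ot_eN]
    unfold Mark.dg
    rw [up_lt, mem_Ld]
    rw [k2, sub_neg_eq_add] at h1; exact h1

omit H in
lemma X2_end (h : Mark.Cvx T m) : IsEnd (SG (Ld T) D w) m.X2 := by
  have k2 := h.2.1
  have h1 := h.far_hn
  unfold Mark.X2
  rcases k2 with k2 | k2
  · rw [if_pos k2]
    refine isEnd_one (Pool.Agent.H45.W.sq_eS _) (od_lt _ _) ?_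
    rw [Pool.Agent.H45.W.ot_eS]
    unfold Mark.hn
    rw [dn_lt, mem_Ld]
    rw [k2] at h1; exact h1
  · rw [if_neg (by rw [k2]; norm_num)]
    refine isEnd_one (Pool.Agent.H45.W.sq_eN _) (od_lt _ _) ?_
    rw [Pool.Agent.H45.W.ot_eN]
    unfold Mark.hn
    rw [up_lt, mem_Ld]
    rw [k2, sub_neg_eq_add] at h1; exact h1

/-- the horizontal sides of a touching tile with a tile which does not touch -/
lemma z_ne_X (m : Mark) : m.X1 ≠ z ∧ m.X2 ≠ z := by
  obtain ⟨x0, r, hz, -, -, -⟩ := H.hz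
  rw [hz]
  unfold Mark.X1 Mark.X2 Mark.dg Mark.hn
  constructor <;> split_ifs <;> simp only [eS, eN, eW, lt, ne_eq, Prod.mk.injEq] <;> omega

/-- **Uniqueness.** -/
theorem un {c c' : ℤ × ℤ} (hm : m ∈ M) (hm' : m' ∈ M) (hc : c = m.X1 ∨ c = m.X2)
    (hc' : c' = m'.X1 ∨ c' = m'.X2) (h : (SG (Ld T) D w).Reachable z c)
    (h' : (SG (Ld T) D w).Reachable z c') : c = c' := by
  have g : ∀ {m : Mark} {c}, m ∈ M → (c = m.X1 ∨ c = m.X2) → IsEnd (SG (Ld T) D w) c ∧ c ≠ z := by
    intro m c hm hc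
    have k := H.z_ne_X m
    rcases hc with rfl | rfl
    · exact ⟨X1_end (H.mc m hm), k.1⟩
    · exact ⟨X2_end (H.mc m hm), k.2⟩
  exact far_unique (H.z_end _) (g hm' hc').1 (g hm hc).1 (g hm' hc').2 (g hm hc).2 h' h

omit H in
/-- the loose sides of different corners are different -/
lemma X_inj (h : Mark.Cvx T m) (h' : Mark.Cvx T m') (he : c = m.X1 ∨ c = m.X2)
    (he' : c = m'.X1 ∨ c = m'.X2) : m = m' := by
  have hR := h.room
  have hR' := h'.room
  have k1 := h.1
  have k2 := h.2.1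
  have k1' := h'.1
  have k2' := h'.2.1
  -- the place of the room next to the loose side
  obtain ⟨u, v, sx, sy⟩ := m
  obtain ⟨u', v', sx', sy'⟩ := m'
  simp only at k1 k2 k1' k2' hR hR'
  have hs : sy = sy' ∧ v = v' ∧ (u = u' ∨ u + sx = u' ∨ u = u' + sx' ∨ u + sx = u' + sx') := by
    by_contra hcon
    have f1 := h.far_dg
    have f2 := h.far_hn
    have f1' := h'.far_dg
    have f2' := h'.far_hn
    have t1 := h.tc_dg
    have t2 := h.tc_hn
    have t1' := h'.tc_dg
    have t2' := h'.tc_hn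
    simp only at f1 f2 f1' f2' t1 t2 t1' t2'
    unfold Mark.X1 Mark.X2 Mark.dg Mark.hn at he he'
    simp only at he he'
    have key : ∀ a b a' b' : ℤ, eS (lt (a, b)) = eN (lt (a', b')) → a = a' ∧ b - 1 = b' := by
      intro a b a' b' h
      simp only [eS, eN, lt, Prod.mk.injEq] at h
      omega
    have keyS : ∀ a b a' b' : ℤ, eS (lt (a, b)) = eS (lt (a', b')) → a = a' ∧ b = b' := by
      intro a b a' b' h
      simp only [eS, lt, Prod.mk.injEq] at h
      omega
    have keyN : ∀ a b a' b' : ℤ, eN (lt (a, b)) = eN (lt (a', b')) → a = a' ∧ b = b' := by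
      intro a b a' b' h
      simp only [eN, lt, Prod.mk.injEq] at h
      omega
    rcases k2 with rfl | rfl <;> rcases k2' with rfl | rfl
    · rw [if_pos rfl, if_pos rfl] at he he'
      rcases he with he | he <;> rcases he' with he' | he' <;> rw [he] at he' <;>
        obtain ⟨q1, q2⟩ := keyS _ _ _ _ he' <;> exact hcon ⟨rfl, q2, by omega⟩
    · rw [if_pos rfl, if_pos rfl] at he
      rw [if_neg (by norm_num), if_neg (by norm_num)] at he'
      rcases he with he | he <;> rcases he' with he' | he' <;> rw [he] at he' <;>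
        obtain ⟨q1, q2⟩ := key _ _ _ _ he'
      · rw [← q1, ← q2] at t1'; exact f1 t1'
      · rw [← q1, ← q2] at t2'; exact f1 t2'
      · rw [← q1, ← q2] at t1'; exact f2 t1'
      · rw [← q1, ← q2] at t2'; exact f2 t2'
    · rw [if_neg (by norm_num), if_neg (by norm_num)] at he
      rw [if_pos rfl, if_pos rfl] at he'
      rcases he with he | he <;> rcases he' with he' | he' <;> rw [he'] at he <;>
        obtain ⟨q1, q2⟩ := key _ _ _ _ he
      · rw [← q1, ← q2] at t1; exact f1' t1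
      · rw [← q1, ← q2] at t1; exact f2' t1
      · rw [← q1, ← q2] at t2; exact f1' t2
      · rw [← q1, ← q2] at t2; exact f2' t2
    · rw [if_neg (by norm_num), if_neg (by norm_num)] at he he'
      rcases he with he | he <;> rcases he' with he' | he' <;> rw [he] at he' <;>
        obtain ⟨q1, q2⟩ := keyN _ _ _ _ he' <;> exact hcon ⟨rfl, q2, by omega⟩
  obtain ⟨rfl, rfl, hu⟩ := hs
  have n1 := (h'.near (a := u + sx) (b := v + sy) (by simp only; omega) (by simp only; omega)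
    (by simp only; omega) (by simp only; omega)).1 hR
  have n2 := (h.near (a := u' + sx') (b := v + sy) (by simp only; omega) (by simp only; omega)
    (by simp only; omega) (by simp only; omega)).1 hR'
  replace n1 := n1.1
  replace n2 := n2.1
  simp only at n1 n2
  have hsx : sx = sx' ∧ u = u' := by
    rcases k1 with rfl | rfl <;> rcases k1' with rfl | rfl
    · omega
    · exfalso
      have h3 : T (u + 2) (v + sy) := (h.near (by simp only; omega) (by simp only; omega)
        (by simp only; omega) (by simp only; omega)).2 ⟨by simp only; omega, by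
          rcases k2 with rfl | rfl <;> simp only <;> omega⟩
      have h4 := ((h'.near (by simp only; omega) (by simp only; omega)
        (by simp only; omega) (by simp only; omega)).1 h3).1
      simp only at h4
      omega
    · exfalso
      have h3 : T (u - 2) (v + sy) := (h.near (by simp only; omega) (by simp only; omega)
        (by simp only; omega) (by simp only; omega)).2 ⟨by simp only; omega, by
          rcases k2 with rfl | rfl <;> simp only <;> omega⟩
      have h4 := ((h'.near (by simp only; omega) (by simp only; omega)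
        (by simp only; omega) (by simp only; omega)).1 h3).1
      simp only at h4
      omega
    · omega
  obtain ⟨rfl, rfl⟩ := hsx
  rfl

end VH

end Pool.Agent.H22.W.Vc
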