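import Mathlib
import Pool.Agent.H22.W.VcEnds

set_option autoImplicit false
open Finset

/-! # Colours with cuts (StChd, V4)

`Cl T M c C` : colours `c` of the outer tiles which touch the room `T`, constant along the walls except across the
cuts (`(x, y) ∈ C` : between `(x, y)` and `(x, y + 1)`) and at the marks. `DC T D C z` : the deleted rows; each
crosses the walls at a cut, in the interior of a straight wall. `Cl.vh` : the hypotheses `VH`. `Cl.tog` : toggled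
colours. `VH.ex6`, `VH.un6`, `VH.alive` : far ends for three marks. -/

namespace Pool.Agent.H22.W.Vc

open Pool.Agent.H75.TwoArm Pool.Agent.H99.W Pool.Agent.H13.W Pool.Agent.H33.Q1

variable {T : ℤ → ℤ → Prop} {D : Set (ℤ × ℤ)} {w : Finset (ℤ × ℤ)} {M : Set Mark} {z : ℤ × ℤ}
  {c c' : ℤ → ℤ → Prop} {C C' : Set (ℤ × ℤ)}

/-- **Colours of the outer tiles.** -/
structure Cl (T : ℤ → ℤ → Prop) (M : Set Mark) (c : ℤ → ℤ → Prop) (C : Set (ℤ × ℤ)) : Prop where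
  /-- thickness -/
  cvx : ∀ u v sx sy, (sx = 1 ∨ sx = -1) → (sy = 1 ∨ sy = -1) → T (u + sx) (v + sy) → ¬ T (u + sx) v →
    ¬ T u (v + sy) → ¬ T u v → Mark.Cvx T ⟨u, v, sx, sy⟩
  mc : ∀ m ∈ M, Mark.Cvx T m
  /-- vertical walls, with the diagonal tiles -/
  colV : ∀ x y s, (s = 1 ∨ s = -1) → ¬ T x y → ¬ T x (y + 1) → (T (x + s) y ∨ T (x + s) (y + 1)) →
    ((c x y ↔ c x (y + 1)) ↔ (x, y) ∉ C)
  /-- horizontal walls -/
  colH : ∀ x y s, (s = 1 ∨ s = -1) → ¬ T x y → ¬ T (x + 1) y → T x (y + s) → T (x + 1) (y + s) →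
    (c x y ↔ c (x + 1) y)
  /-- corners -/
  cvH : ∀ m, Mark.Cvx T m → m ∉ M → (c m.u m.v ↔ c (m.u + m.sx) m.v)
  mkc : ∀ m ∈ M, (c m.u m.v ↔ ¬ c (m.u + m.sx) m.v)

/-- **Deleted rows.** -/
structure DC (T : ℤ → ℤ → Prop) (D C : Set (ℤ × ℤ)) (z : ℤ × ℤ) : Prop where
  cut : ∀ x y, (x, y) ∈ C → lt (x, y) ∈ D ∨ lt (x, y + 1) ∈ D
  cross : ∀ x y, lt (x, y) ∈ D → ¬ T x y → Tc T x y → ∃ s, (s = 1 ∨ s = -1) ∧
    (T (x + s) (y - 1) ∧ T (x + s) y ∧ T (x + s) (y + 1)) ∧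
    (¬ T (x - s) (y - 1) ∧ ¬ T (x - s) y ∧ ¬ T (x - s) (y + 1)) ∧
    (¬ T x (y + 1) ∧ lt (x, y + 1) ∉ D) ∧ (¬ T x (y - 1) ∧ lt (x, y - 1) ∉ D) ∧
    ((x, y) ∈ C ↔ (x, y - 1) ∉ C)
  rowE : ∀ x y, lt (x, y) ∈ D → Tc T x y → lt (x + 1, y) ∈ D ∨ ¬ Tc T (x + 1) y
  rowW : ∀ x y, lt (x, y) ∈ D → Tc T x y → lt (x - 1, y) ∈ D ∨ ¬ Tc T (x - 1) y ∨
    (z = eW (lt (x, y)) ∧ T (x - 1) y)
  hz : ∃ x y, z = eW (lt (x, y)) ∧ lt (x, y) ∈ D ∧ T (x - 1) y ∧ lt (x - 1, y) ∉ D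

namespace DC

/-- the tiles at a convex corner are not deleted -/
lemma mD (H : DC T D C z) {m : Mark} (hm : Mark.Cvx T m) : m.dg ∉ D ∧ m.hn ∉ D ∧ m.vn ∉ D := by
  have k1 := hm.1
  have k2 := hm.2.1
  refine ⟨fun h => ?_, fun h => ?_, fun h => ?_⟩
  · obtain ⟨s, hs, ⟨-, h2, -⟩, -⟩ := H.cross _ _ h hm.nd hm.tc_dg
    have := hm.eq_of (by omega) (by omega) (by omega) (by omega) h2
    omega
  · obtain ⟨s, hs, ⟨-, h2, -⟩, -⟩ := H.cross _ _ h hm.nh hm.tc_hn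
    have := (hm.near (by omega) (by omega) (by omega) (by omega)).1 h2
    rcases k2 with k | k <;> rw [k] at this <;> omega
  · obtain ⟨s, hs, ⟨h1, -, h3⟩, -⟩ := H.cross _ _ h hm.nv hm.tc_vn
    have e1 := (hm.near (by omega) (by omega) (by omega) (by omega)).1 h1
    have e3 := (hm.near (by omega) (by omega) (by omega) (by omega)).1 h3
    rcases k2 with k | k <;> rw [k] at e1 e3 <;> omega

end DC

namespace Cl

/-- **The hypotheses for the far ends.** -/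
theorem vh (H : Cl T M c C) (hf : (Ld T).Finite) (hD : DC T D C z)
    (hw : ∀ x y, ¬ T x y → Tc T x y → (lt (x, y) ∈ w ↔ c x y)) : VH T D w M z where
  fin := hf
  cvx := H.cvx
  mc := H.mc
  colV := by
    intro x y s hs h1 h2 h3 h4 h5 h6
    rw [hw x y h1 ⟨x + s, y, by omega, by omega, h3⟩, hw x (y + 1) h2 ⟨x + s, y + 1, by omega, by omega, h4⟩,
      H.colV x y s hs h1 h2 (Or.inl h3)]
    intro h
    rcases hD.cut x y h with k | k
    · exact h5 k
    · exact h6 k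
  colH := by
    intro x y s hs h1 h2 h3 h4 _ _
    rw [hw x y h1 ⟨x, y + s, by omega, by omega, h3⟩, hw (x + 1) y h2 ⟨x + 1, y + s, by omega, by omega, h4⟩]
    exact H.colH x y s hs h1 h2 h3 h4
  cvV := by
    intro m hm h1 h2
    have k1 := hm.1
    unfold Mark.dg Mark.vn at *
    rw [hw _ _ hm.nd hm.tc_dg, hw _ _ hm.nv hm.tc_vn]
    have e2 := hm.nv
    have e3 := hm.room
    rcases hm.2.1 with k | k <;> rw [k] at h2 e2 e3 ⊢
    · rw [H.colV m.u m.v m.sx k1 hm.nd e2 (Or.inr e3)]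
      intro h
      rcases hD.cut _ _ h with k | k
      · exact h1 k
      · exact h2 k
    · rw [← sub_eq_add_neg] at h2 e2 e3 ⊢
      have := H.colV m.u (m.v - 1) m.sx k1 e2 (by rw [sub_add_cancel]; exact hm.nd) (Or.inl e3)
      rw [sub_add_cancel] at this
      rw [Iff.comm, this]
      intro h
      rcases hD.cut _ _ h with k | k
      · exact h2 k
      · rw [sub_add_cancel] at k; exact h1 k
  cvH := by
    intro m hm hM h1 h2
    unfold Mark.dg Mark.hn at *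
    rw [hw _ _ hm.nd hm.tc_dg, hw _ _ hm.nh hm.tc_hn]
    exact H.cvH m hm hM
  mD := fun m hm => hD.mD (H.mc m hm)
  mkc := by
    intro m hM
    have hm := H.mc m hM
    unfold Mark.dg Mark.hn at *
    rw [hw _ _ hm.nd hm.tc_dg, hw _ _ hm.nh hm.tc_hn]
    exact H.mkc m hM
  cross := by
    intro x y h1 h2 h3
    obtain ⟨s, hs, ⟨a1, a2, a3⟩, b, ⟨c1, c2⟩, ⟨d1, d2⟩, e⟩ := hD.cross x y h1 h2 h3
    refine ⟨s, hs, a2, b, ⟨c1, c2⟩, ⟨d1, d2⟩, ?_⟩
    rw [hw x (y + 1) c1 ⟨x + s, y, by omega, by omega, a2⟩,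
      hw x (y - 1) d1 ⟨x + s, y, by omega, by omega, a2⟩]
    have k1 := H.colV x y s hs h2 c1 (Or.inl a2)
    have k2 := H.colV x (y - 1) s hs d1 (by rw [sub_add_cancel]; exact h2) (Or.inl a1)
    rw [sub_add_cancel] at k2
    tauto
  rowE := hD.rowE
  rowW := hD.rowW
  hz := hD.hz

/-- **Toggled colours.** -/
theorem tog (H : Cl T M c C) {τ : ℤ → ℤ → Prop}
    (hc : ∀ x y, ¬ T x y → Tc T x y → (c' x y ↔ ¬ (c x y ↔ τ x y)))
    (hV : ∀ x y s, (s = 1 ∨ s = -1) → ¬ T x y → ¬ T x (y + 1) → (T (x + s) y ∨ T (x + s) (y + 1)) →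
      (((x, y) ∈ C' ↔ (x, y) ∈ C) ↔ (τ x y ↔ τ x (y + 1))))
    (hH : ∀ x y s, (s = 1 ∨ s = -1) → ¬ T x y → ¬ T (x + 1) y → (T x (y + s) ∨ T (x + 1) (y + s)) →
      (τ x y ↔ τ (x + 1) y)) : Cl T M c' C' where
  cvx := H.cvx
  mc := H.mc
  colV := by
    intro x y s hs h1 h2 h3
    have t1 : Tc T x y := by
      rcases h3 with h3 | h3
      · exact ⟨x + s, y, by omega, by omega, h3⟩
      · exact ⟨x + s, y + 1, by omega, by omega, h3⟩
    have t2 : Tc T x (y + 1) := by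
      rcases h3 with h3 | h3
      · exact ⟨x + s, y, by omega, by omega, h3⟩
      · exact ⟨x + s, y + 1, by omega, by omega, h3⟩
    have k := hV x y s hs h1 h2 h3
    have k' := H.colV x y s hs h1 h2 h3
    rw [hc x y h1 t1, hc x (y + 1) h2 t2]
    tauto
  colH := by
    intro x y s hs h1 h2 h3 h4
    have k := hH x y s hs h1 h2 (Or.inl h3)
    have k' := H.colH x y s hs h1 h2 h3 h4
    rw [hc x y h1 ⟨x, y + s, by omega, by omega, h3⟩,
      hc (x + 1) y h2 ⟨x + 1, y + s, by omega, by omega, h4⟩, k, k']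
  cvH := by
    intro m hm hM
    have k := H.cvH m hm hM
    rw [hc _ _ hm.nd hm.tc_dg, hc _ _ hm.nh hm.tc_hn, k]
    have e : τ m.u m.v ↔ τ (m.u + m.sx) m.v := by
      rcases hm.1 with k1 | k1
      · have := hH m.u m.v m.sy hm.2.1 hm.nd (by rw [← k1]; exact hm.nh)
          (Or.inr (by rw [← k1]; exact hm.room))
        rw [k1]; exact this
      · have := hH (m.u - 1) m.v m.sy hm.2.1
          (by rw [sub_eq_add_neg, ← k1]; exact hm.nh) (by rw [sub_add_cancel]; exact hm.nd)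
          (Or.inl (by rw [sub_eq_add_neg, ← k1]; exact hm.room))
        rw [sub_add_cancel] at this
        rw [k1, ← sub_eq_add_neg]; exact this.symm
    rw [e]
  mkc := by
    intro m hM
    have hm := H.mc m hM
    have k := H.mkc m hM
    rw [hc _ _ hm.nd hm.tc_dg, hc _ _ hm.nh hm.tc_hn, k]
    have e : τ m.u m.v ↔ τ (m.u + m.sx) m.v := by
      rcases hm.1 with k1 | k1
      · have := hH m.u m.v m.sy hm.2.1 hm.nd (by rw [← k1]; exact hm.nh)
          (Or.inr (by rw [← k1]; exact hm.room))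
        rw [k1]; exact this
      · have := hH (m.u - 1) m.v m.sy hm.2.1
          (by rw [sub_eq_add_neg, ← k1]; exact hm.nh) (by rw [sub_add_cancel]; exact hm.nd)
          (Or.inl (by rw [sub_eq_add_neg, ← k1]; exact hm.room))
        rw [sub_add_cancel] at this
        rw [k1, ← sub_eq_add_neg]; exact this.symm
    rw [e]
    tauto

end Cl

/-! ### Three marks -/

section
variable {mk : Fin 3 → Mark}

/-- the six loose sides -/
def xx (mk : Fin 3 → Mark) (i : Fin 3 × Bool) : ℤ × ℤ := if i.2 = true then (mk i.1).X1 else (mk i.1).X2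

lemma X12_ne {m : Mark} (h : Mark.Cvx T m) : m.X1 ≠ m.X2 := by
  have k1 := h.1
  unfold Mark.X1 Mark.X2 Mark.dg Mark.hn
  intro h
  split_ifs at h <;> simp only [eS, eN, lt, Prod.mk.injEq] at h <;> omega

lemma xx_cases (i : Fin 3 × Bool) : xx mk i = (mk i.1).X1 ∨ xx mk i = (mk i.1).X2 := by
  unfold xx
  split_ifs <;> simp

lemma xx_inj (hc : ∀ j, Mark.Cvx T (mk j)) (hi : Function.Injective mk) : Function.Injective (xx mk) := by
  intro i j h
  have h1 : mk i.1 = mk j.1 := VH.X_inj (hc i.1) (hc j.1) (xx_cases i) (h ▸ xx_cases j)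
  have h2 := hi h1
  obtain ⟨i1, i2⟩ := i
  obtain ⟨j1, j2⟩ := j
  simp only at h2
  subst h2
  have h3 := X12_ne (hc i1)
  unfold xx at h
  simp only at h
  cases i2 <;> cases j2 <;> simp at h <;> first | rfl | exact absurd h h3 | exact absurd h.symm h3

lemma al_cases (m : Mark) : m.al w = m.X1 ∨ m.al w = m.X2 := by
  unfold Mark.al
  split_ifs <;> simp

theorem VH.ex3 (H : VH T D w (Set.range mk) z) :
    ∃ j, (SG (Ld T) D w).Reachable z ((mk j).al w) := by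
  obtain ⟨m, ⟨j, rfl⟩, h⟩ := H.ex
  exact ⟨j, h⟩

theorem VH.ex6 (H : VH T D w (Set.range mk) z) : ∃ i, (SG (Ld T) D w).Reachable z (xx mk i) := by
  obtain ⟨j, h⟩ := H.ex3
  rcases al_cases (w := w) (mk j) with e | e
  · exact ⟨(j, true), by rw [e] at h; simpa [xx] using h⟩
  · exact ⟨(j, false), by rw [e] at h; simpa [xx] using h⟩

theorem VH.un6 (H : VH T D w (Set.range mk) z) (hi : Function.Injective mk) {i j : Fin 3 × Bool}
    (h1 : (SG (Ld T) D w).Reachable z (xx mk i)) (h2 : (SG (Ld T) D w).Reachable z (xx mk j)) : i = j :=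
  xx_inj (fun j => H.mc _ ⟨j, rfl⟩) hi (H.un ⟨_, rfl⟩ ⟨_, rfl⟩ (xx_cases i) (xx_cases j) h1 h2)

theorem VH.un3 (H : VH T D w (Set.range mk) z) (hi : Function.Injective mk) {i j : Fin 3}
    (h1 : (SG (Ld T) D w).Reachable z ((mk i).al w)) (h2 : (SG (Ld T) D w).Reachable z ((mk j).al w)) :
    i = j := by
  have h := H.un ⟨_, rfl⟩ ⟨_, rfl⟩ (al_cases (mk i)) (al_cases (mk j)) h1 h2
  exact hi (VH.X_inj (H.mc _ ⟨i, rfl⟩) (H.mc _ ⟨j, rfl⟩) (al_cases (mk i)) (h ▸ al_cases (mk j)))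

/-- **The strand of `z` does not end at a dead side.** -/
theorem VH.alive (H : VH T D w (Set.range mk) z) {i : Fin 3} {e : ℤ × ℤ} (he : e = (mk i).X1 ∨ e = (mk i).X2)
    (h : (SG (Ld T) D w).Reachable z e) : e = (mk i).al w := by
  obtain ⟨j, h2⟩ := H.ex3
  have h3 := H.un ⟨_, rfl⟩ ⟨_, rfl⟩ he (al_cases (mk j)) h h2
  have h4 := VH.X_inj (H.mc _ ⟨i, rfl⟩) (H.mc _ ⟨j, rfl⟩) he (h3 ▸ al_cases (mk j))
  rw [h3, ← h4]

end

end Pool.Agent.H22.W.Vc
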