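import Mathlib
import Pool.Agent.H22.W.VcCol
import Pool.Agent.H78.W.VGm

set_option autoImplicit false
set_option linter.unusedSectionVars false
open Finset

/-! # Far ends of the four worlds of a chord (StChd, V4)

`G : Pic`, `RT G` : random tiles. Hypotheses: `G.Ok`, all touching tiles are in `Λ` (`hΛ`), the colours `W0`
have the cut `(xw, Yc - 1)` only (`hC : Cl ..`). Then `VH` for the worlds `WW`, `WN`, `WU`, `WL`
(`vhW`, `vhN`, `vhU`, `vhL`). -/

namespace Pool.Agent.H22.W.Vc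

open Pool.Agent.H75.TwoArm Pool.Agent.H99.W Pool.Agent.H13.W Pool.Agent.H33.Q1
open Pool.Agent.H78.W (Pic)
open Pool.Agent.H82.W (WD)
open Pool.Agent.H19.W (cx cy cx_lt cy_lt)

variable {κ : Type*} {G : Pic κ} {M : Set Mark} {xl H t x0 r x y s : ℤ} {ω : Finset (ℤ × ℤ)}

/-- random tiles -/
def RT (G : Pic κ) (x y : ℤ) : Prop := lt (x, y) ∈ G.E

/-- the world has all touching tiles, and the colours `W0` have one cut -/
structure PicC (G : Pic κ) (M : Set Mark) : Prop where
  hΛ : (G.Λ : Set (ℤ × ℤ)) = Ld (RT G)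
  hC : Cl (RT G) M (fun x y => lt (x, y) ∈ G.W0) {(G.xw, G.Yc - 1)}

/-- cuts of the colours of the narrow worlds -/
def CN (G : Pic κ) (t : ℤ) : Set (ℤ × ℤ) :=
  {q | q = (G.xe, t) ∨ (G.P = true ∧ (q = (G.xt - 1, G.YF) ∨ q = (G.xw, G.YF)))}

section
variable (O : G.Ok xl H) (K : PicC G M)
include O K

lemma mem_La : lt (x, y) ∈ G.Λ ↔ Tc (RT G) x y := by
  rw [← mem_coe, K.hΛ]
  exact mem_Ld

lemma rT (h1 : xl ≤ x) (h2 : x < G.xe) (h3 : G.Yc - H ≤ y) (h4 : y < G.Yc + H) : RT G x y := O.gl x y h1 h2 h3 h4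

lemma rB (h1 : xl ≤ x) (h2 : x < G.xw) (h3 : G.Yc - H ≤ y) (h4 : y < G.Yc) : RT G x y := by
  rcases lt_or_ge x G.xe with h | h
  · have := O.YF2; have := O.YF1; have := O.Yd_gt
    exact O.gl x y h1 h h3 (by omega)
  · exact O.gb x y h h2 h3 h4

lemma rP (hP : G.P = true) (h1 : G.xt ≤ x) (h2 : x < G.xw) (h3 : G.Yc ≤ y) (h4 : y < G.Yc + H) : RT G x y :=
  O.gp hP x y h1 h2 h3 h4

lemma rt' (h1 : G.xe ≤ x) (h2 : x < G.xt) (h3 : G.Yc ≤ y) (h4 : y < G.Yc + H) : ¬ RT G x y :=
  (O.gt x y h1 h2 h3 h4).1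

lemma rw' (h3 : G.Yc - H ≤ y) (h4 : y < G.Yc + H) : ¬ RT G G.xw y := (O.gw y h3 h4).1

lemma ro (h3 : G.Yc - H ≤ y) (h4 : y < G.Yc + H) : ¬ RT G (G.xw + 1) y := fun h => O.go y h3 h4 (O.sub h)

lemma tco (h3 : G.Yc - H ≤ y) (h4 : y < G.Yc + H) : ¬ Tc (RT G) (G.xw + 1) y := fun h =>
  O.go y h3 h4 ((mem_La O K).2 h)

/-! ### Colours -/

/-- the colours of `WW` -/
lemma cl_KW (h1 : G.Yc - H ≤ r) (h2 : r < G.Yc - 1) :
    Cl (RT G) M (fun x y => lt (x, y) ∈ G.KW r) {(G.xw, r)} := by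
  have hY1 := O.YF1; have hY2 := O.YF2; have hYd := O.Yd_gt
  refine K.hC.tog (τ := fun x y => x = G.xw ∧ r < y ∧ y < G.Yc) ?_ ?_ ?_
  · intro x y e1 e2
    rw [Pool.Agent.H78.W.Pic.mem_KW ((mem_La O K).2 e2) e1, cx_lt, cy_lt]
    unfold Xor
    tauto
  · intro x y s hs e1 e2 e3
    simp only [Set.mem_singleton_iff, Prod.mk.injEq]
    omega
  · intro x y s hs e1 e2 e3
    constructor
    · rintro ⟨rfl, a1, a2⟩
      exfalso
      rcases e3 with e3 | e3
      · exact rw' O K (by omega) (by omega) e3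
      · exact ro O K (by omega) (by omega) e3
    · rintro ⟨a0, a1, a2⟩
      exfalso
      refine e1 (rB O K ?_ (by omega) (by omega) a2)
      have := O.xls; have := O.xse; have := O.xet; have := O.xtw
      omega

/-- the colours of the narrow worlds -/
lemma cl_KN (h1 : G.Yc < t) (h2 : t + 1 < G.Yc + H) :
    Cl (RT G) M (fun x y => lt (x, y) ∈ G.KN t) (CN G t) := by
  have hY1 := O.YF1; have hY2 := O.YF2; have hYd := O.Yd_gt
  have hxls := O.xls; have hxse := O.xse; have hxet := O.xet; have hxtw := O.xtw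
  refine K.hC.tog (τ := fun x y => G.tog t x y) ?_ ?_ ?_
  · intro x y e1 e2
    rw [Pool.Agent.H78.W.Pic.mem_KN ((mem_La O K).2 e2) e1, cx_lt, cy_lt]
    unfold Xor
    tauto
  · intro x y s hs e1 e2 e3
    have f1 : ¬ (y = G.Yc - 1 ∧ G.xe ≤ x ∧ x < G.xw) := by
      rintro ⟨rfl, a1, a2⟩
      exact e1 (rB O K (by omega) a2 (by omega) (by omega))
    have f2 : ¬ (y = G.Yc ∧ G.xe < x ∧ x < G.xt - 1) := by
      rintro ⟨rfl, a1, a2⟩
      rcases e3 with e3 | e3
      · exact rt' O K (by omega) (by omega) (by omega) (by omega) e3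
      · exact rt' O K (by omega) (by omega) (by omega) (by omega) e3
    have f3 : G.P = false → ¬ (y = G.Yc ∧ G.xt - 1 ≤ x ∧ x ≤ G.xw) := by
      intro hP
      have hxt := O.xtw' hP
      rintro ⟨rfl, a1, a2⟩
      have key : ∀ y', G.Yc ≤ y' → y' ≤ G.Yc + 1 → ¬ RT G (x + s) y' := by
        intro y' b1 b2 h
        have hx : (G.xe ≤ x + s ∧ x + s < G.xt) ∨ x + s = G.xw ∨ x + s = G.xw + 1 := by omega
        rcases hx with ⟨h3, h4⟩ | h3 | h3
        · exact rt' O K h3 h4 b1 (by omega) h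
        · rw [h3] at h; exact rw' O K (by omega) (by omega) h
        · rw [h3] at h; exact ro O K (by omega) (by omega) h
      rcases e3 with e3 | e3
      · exact key _ le_rfl (by omega) e3
      · exact key _ (by omega) le_rfl e3
    have f4 : G.P = true → ¬ (y = G.YF ∧ G.xt ≤ x ∧ x < G.xw) := by
      rintro hP ⟨rfl, a1, a2⟩
      exact e1 (rP O K hP a1 a2 (by omega) (by omega))
    unfold CN Pic.tog Pic.tp
    simp only [Set.mem_singleton_iff, Set.mem_ofPred_eq, Prod.mk.injEq]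
    cases hP : G.P
    · have hxt := O.xtw' hP
      have f3' := f3 hP
      simp only [Bool.false_eq_true, false_and, or_false, ite_false]
      split_ifs <;> omega
    · have hxt := O.xtw2 hP
      have f4' := f4 hP
      simp only [true_and]
      split_ifs <;> omega
  · intro x y s hs e1 e2 e3
    have g1 : ¬ (x + 1 = G.xe ∧ G.Yc ≤ y ∧ y ≤ t) := by
      rintro ⟨a0, a1, a2⟩
      exact e1 (rT O K (by omega) (by omega) (by omega) (by omega))
    have g2 : ¬ (x = G.xe ∧ G.Yc < y ∧ y ≤ t) := by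
      rintro ⟨rfl, a1, a2⟩
      rcases e3 with e3 | e3
      · exact rt' O K (by omega) (by omega) (by omega) (by omega) e3
      · exact rt' O K (by omega) (by omega) (by omega) (by omega) e3
    have g3 : ¬ (x = G.xt - 2 ∧ G.Yc < y ∧ y ≤ G.YF) := by
      rintro ⟨rfl, a1, a2⟩
      rcases e3 with e3 | e3
      · exact rt' O K (by omega) (by omega) (by omega) (by omega) e3
      · exact rt' O K (by omega) (by omega) (by omega) (by omega) e3
    have g4 : ¬ (x = G.xw ∧ G.Yc ≤ y ∧ y ≤ G.YF) := by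
      rintro ⟨rfl, a1, a2⟩
      rcases e3 with e3 | e3
      · exact rw' O K (by omega) (by omega) e3
      · exact ro O K (by omega) (by omega) e3
    unfold Pic.tog Pic.tp
    cases hP : G.P
    · have hxt := O.xtw' hP
      simp only [Bool.false_eq_true, false_and, ite_false]
      split_ifs <;> omega
    · have hxt := O.xtw2 hP
      simp only [true_and]
      split_ifs <;> omega

/-! ### Deleted rows -/

/-- the deleted row of `WW` -/
lemma dc_DW (h0 : xl < x0) (h0' : x0 ≤ G.xw) (h1 : G.Yc - H < r) (h2 : r < G.Yc - 1) :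
    DC (RT G) (G.DW x0 r) {(G.xw, r)} (eW (lt (x0, r))) := by
  have hY1 := O.YF1; have hY2 := O.YF2; have hYd := O.Yd_gt
  have hxls := O.xls; have hxse := O.xse; have hxet := O.xet; have hxtw := O.xtw
  have mD : ∀ x y, lt (x, y) ∈ G.DW x0 r ↔ y = r ∧ x0 ≤ x ∧ x ≤ G.xw := by
    intro x y
    rw [Pool.Agent.H78.W.Pic.mem_DW (lt_odd _), cx_lt, cy_lt]
  refine ⟨?_, ?_, ?_, ?_, ?_⟩
  · intro x y h
    simp only [Set.mem_singleton_iff, Prod.mk.injEq] at h
    left; rw [mD]; omega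
  · intro x y h e1 e2
    rw [mD] at h
    obtain ⟨rfl, a1, a2⟩ := h
    have hx : x = G.xw := by
      by_contra hx
      exact e1 (rB O K (by omega) (by omega) (by omega) (by omega))
    subst hx
    refine ⟨-1, Or.inr rfl, ⟨?_, ?_, ?_⟩, ⟨?_, ?_, ?_⟩, ⟨?_, ?_⟩, ⟨?_, ?_⟩, ?_⟩
    · exact rB O K (by omega) (by omega) (by omega) (by omega)
    · exact rB O K (by omega) (by omega) (by omega) (by omega)
    · exact rB O K (by omega) (by omega) (by omega) (by omega)
    · rw [sub_neg_eq_add]; exact ro O K (by omega) (by omega)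
    · rw [sub_neg_eq_add]; exact ro O K (by omega) (by omega)
    · rw [sub_neg_eq_add]; exact ro O K (by omega) (by omega)
    · exact rw' O K (by omega) (by omega)
    · rw [mD]; omega
    · exact rw' O K (by omega) (by omega)
    · rw [mD]; omega
    · refine ⟨fun _ h => ?_, fun _ => rfl⟩
      simp only [Set.mem_singleton_iff, Prod.mk.injEq] at h; omega
  · intro x y h _
    rw [mD] at h ⊢
    obtain ⟨rfl, a1, a2⟩ := h
    by_cases hx : x = G.xw
    · right; rw [hx]; exact tco O K (by omega) (by omega)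
    · left; omega
  · intro x y h _
    rw [mD] at h ⊢
    obtain ⟨rfl, a1, a2⟩ := h
    by_cases hx : x = x0
    · right; right
      exact ⟨by rw [hx], rB O K (by omega) (by omega) (by omega) (by omega)⟩
    · left; omega
  · refine ⟨x0, r, rfl, (mD _ _).2 ⟨rfl, le_rfl, h0'⟩, rB O K (by omega) (by omega) (by omega) (by omega), ?_⟩
    rw [mD]; omega

/-- the deleted rows of the narrow worlds -/
lemma dc_DN (h0 : xl < x0) (h0' : x0 ≤ G.xe) (h1 : G.Yc < t) (h2 : t + 1 < G.Yc + H) :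
    DC (RT G) (G.DN x0 t) (CN G t) (eW (lt (x0, t))) := by
  have hY1 := O.YF1; have hY2 := O.YF2; have hYd := O.Yd_gt
  have hxls := O.xls; have hxse := O.xse; have hxet := O.xet; have hxtw := O.xtw
  have mD : ∀ x y, lt (x, y) ∈ G.DN x0 t ↔ (y = t ∧ x0 ≤ x ∧ x ≤ G.xe) ∨
      (G.P = true ∧ y = G.YF ∧ G.xt - 1 ≤ x ∧ x ≤ G.xw) := by
    intro x y
    rw [Pool.Agent.H78.W.Pic.mem_DN (lt_odd _), cx_lt, cy_lt]
  have mC : ∀ x y, (x, y) ∈ CN G t ↔ (x = G.xe ∧ y = t) ∨
      (G.P = true ∧ ((x = G.xt - 1 ∧ y = G.YF) ∨ (x = G.xw ∧ y = G.YF))) := by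
    intro x y
    unfold CN
    simp only [Set.mem_ofPred_eq, Prod.mk.injEq]
  have hP2 : G.P = true → G.xt + 4 ≤ G.xw := O.xtw2
  refine ⟨?_, ?_, ?_, ?_, ?_⟩
  · intro x y h
    rw [mC] at h
    left; rw [mD]
    rcases h with h | ⟨hP, h⟩
    · left; omega
    · have := hP2 hP
      right; exact ⟨hP, by omega⟩
  · intro x y h e1 e2
    rw [mD] at h
    rcases h with ⟨rfl, a1, a2⟩ | ⟨hP, rfl, a1, a2⟩
    · have hx : x = G.xe := by
        by_contra hx
        exact e1 (rT O K (by omega) (by omega) (by omega) (by omega))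
      subst hx
      refine ⟨-1, Or.inr rfl, ⟨?_, ?_, ?_⟩, ⟨?_, ?_, ?_⟩, ⟨?_, ?_⟩, ⟨?_, ?_⟩, ?_⟩
      · exact rT O K (by omega) (by omega) (by omega) (by omega)
      · exact rT O K (by omega) (by omega) (by omega) (by omega)
      · exact rT O K (by omega) (by omega) (by omega) (by omega)
      · exact rt' O K (by omega) (by omega) (by omega) (by omega)
      · exact rt' O K (by omega) (by omega) (by omega) (by omega)
      · exact rt' O K (by omega) (by omega) (by omega) (by omega)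
      · exact rt' O K (by omega) (by omega) (by omega) (by omega)
      · rw [mD]; omega
      · exact rt' O K (by omega) (by omega) (by omega) (by omega)
      · rw [mD]; omega
      · rw [mC, mC]; omega
    · have hP3 := hP2 hP
      have hx : x = G.xt - 1 ∨ x = G.xw := by
        by_contra hx
        exact e1 (rP O K hP (by omega) (by omega) (by omega) (by omega))
      rcases hx with rfl | rfl
      · refine ⟨1, Or.inl rfl, ⟨?_, ?_, ?_⟩, ⟨?_, ?_, ?_⟩, ⟨?_, ?_⟩, ⟨?_, ?_⟩, ?_⟩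
        · exact rP O K hP (by omega) (by omega) (by omega) (by omega)
        · exact rP O K hP (by omega) (by omega) (by omega) (by omega)
        · exact rP O K hP (by omega) (by omega) (by omega) (by omega)
        · exact rt' O K (by omega) (by omega) (by omega) (by omega)
        · exact rt' O K (by omega) (by omega) (by omega) (by omega)
        · exact rt' O K (by omega) (by omega) (by omega) (by omega)
        · exact rt' O K (by omega) (by omega) (by omega) (by omega)
        · rw [mD]; omega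
        · exact rt' O K (by omega) (by omega) (by omega) (by omega)
        · rw [mD]; omega
        · rw [mC, mC]
          refine ⟨fun _ h => by omega, fun _ => Or.inr ⟨hP, Or.inl ⟨rfl, rfl⟩⟩⟩
      · refine ⟨-1, Or.inr rfl, ⟨?_, ?_, ?_⟩, ⟨?_, ?_, ?_⟩, ⟨?_, ?_⟩, ⟨?_, ?_⟩, ?_⟩
        · exact rP O K hP (by omega) (by omega) (by omega) (by omega)
        · exact rP O K hP (by omega) (by omega) (by omega) (by omega)
        · exact rP O K hP (by omega) (by omega) (by omega) (by omega)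
        · rw [sub_neg_eq_add]; exact ro O K (by omega) (by omega)
        · rw [sub_neg_eq_add]; exact ro O K (by omega) (by omega)
        · rw [sub_neg_eq_add]; exact ro O K (by omega) (by omega)
        · exact rw' O K (by omega) (by omega)
        · rw [mD]; omega
        · exact rw' O K (by omega) (by omega)
        · rw [mD]; omega
        · rw [mC, mC]
          refine ⟨fun _ h => by omega, fun _ => Or.inr ⟨hP, Or.inr ⟨rfl, rfl⟩⟩⟩
  · intro x y h _
    rw [mD] at h ⊢
    rcases h with ⟨rfl, a1, a2⟩ | ⟨hP, rfl, a1, a2⟩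
    · by_cases hx : x = G.xe
      · right
        rintro ⟨a, b, h3, h4, h5⟩
        exact rt' O K (by omega) (by omega) (by omega) (by omega) h5
      · left; left; omega
    · by_cases hx : x = G.xw
      · right; rw [hx]; exact tco O K (by omega) (by omega)
      · left; right; exact ⟨hP, rfl, by omega⟩
  · intro x y h _
    rw [mD] at h ⊢
    rcases h with ⟨rfl, a1, a2⟩ | ⟨hP, rfl, a1, a2⟩
    · by_cases hx : x = x0
      · right; right
        exact ⟨by rw [hx], rT O K (by omega) (by omega) (by omega) (by omega)⟩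
      · left; left; omega
    · by_cases hx : x = G.xt - 1
      · right; left
        rintro ⟨a, b, h3, h4, h5⟩
        exact rt' O K (by omega) (by omega) (by omega) (by omega) h5
      · left; right; exact ⟨hP, rfl, by omega⟩
  · refine ⟨x0, t, rfl, (mD _ _).2 (Or.inl ⟨rfl, le_rfl, h0'⟩),
      rT O K (by omega) (by omega) (by omega) (by omega), ?_⟩
    rw [mD]
    rintro (h | ⟨-, -, h, -⟩) <;> omega

/-! ### The far ends -/

lemma fin_Ld : (Ld (RT G)).Finite := K.hΛ ▸ G.Λ.finite_toSet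

/-- **`WW`** -/
theorem vhW {p : ℤ × ℤ} (hω : ω ⊆ G.E) (h0 : xl < p.1) (h0' : p.1 ≤ G.xw) (h1 : G.Yc - H < p.2)
    (h2 : p.2 < G.Yc - 1) : VH (RT G) (G.WW p).D ((G.WW p).st ω) M (eW (lt p)) := by
  refine (cl_KW O K h1.le h2).vh (fin_Ld O K) (dc_DW O K h0 h0' h1 h2) ?_
  intro x y e1 _
  exact WD.mem_st' (A := G.WW p) (fun h => e1 (hω h)) (by simp [Pic.WW])

/-- **`WN`** -/
theorem vhN {p : ℤ × ℤ} (hω : ω ⊆ G.E) (h0 : xl < p.1) (h0' : p.1 ≤ G.xe) (h1 : G.Yc < p.2)
    (h2 : p.2 + 1 < G.Yc + H) : VH (RT G) (G.WN p).D ((G.WN p).st ω) M (eW (lt p)) := by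
  refine (cl_KN O K h1 h2).vh (fin_Ld O K) (dc_DN O K h0 h0' h1 h2) ?_
  intro x y e1 _
  exact WD.mem_st' (A := G.WN p) (fun h => e1 (hω h)) (by simp [Pic.WN])

/-- **`WU`** -/
theorem vhU (hω : ω ⊆ G.E) (h0 : xl < G.xs) :
    VH (RT G) G.WU.D (G.WU.st ω) M (eW (lt (G.xs, G.Yd))) := by
  have hY1 := O.YF1; have hY2 := O.YF2; have hYd := O.Yd_gt
  refine (cl_KN O K (t := G.Yd) hYd (by omega)).vh (fin_Ld O K)
    (dc_DN O K h0 O.xse.le hYd (by omega)) ?_
  intro x y e1 _
  refine WD.mem_st' (A := G.WU) (fun h => e1 (hω h)) ?_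
  intro h
  exact e1 ((Pool.Agent.H78.W.Pic.mem_FU G).1 h).1

/-- **`WL`** (the row below the tooth belongs to the room) -/
theorem vhL (hω : ω ⊆ G.E \ G.Rt) (h0 : xl < G.xs) :
    VH (RT G) G.WL.D (G.WL.st ω) M (eW (lt (G.xs, G.Yd))) := by
  have hY1 := O.YF1; have hY2 := O.YF2; have hYd := O.Yd_gt
  refine (cl_KN O K (t := G.Yd) hYd (by omega)).vh (fin_Ld O K)
    (dc_DN O K h0 O.xse.le hYd (by omega)) ?_
  intro x y e1 _
  rw [WD.mem_st' (A := G.WL) (fun h => e1 (mem_sdiff.1 (hω h)).1)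
    (fun h => e1 ((Pool.Agent.H78.W.Pic.mem_FL G).1 h).1)]
  unfold Pic.WL
  simp only
  rw [mem_union]
  constructor
  · rintro (h | h)
    · exact h
    · exact absurd ((Pool.Agent.H78.W.Pic.mem_Rt G).1 ((Pool.Agent.H78.W.Pic.mem_RtW G).1 h).1).1 e1
  · exact Or.inl

end

end Pool.Agent.H22.W.Vc
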