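import Mathlib
import Pool.Agent.H22.W.VcCol
import Pool.Agent.H19.W.RCell
import Pool.Agent.H68.W.RoomM

set_option autoImplicit false
open Finset

/-! # Colours of the worlds of a shape (StChd, V4)

`TT S n` : tiles of the shape. `mkv S n i` : the corner at the vertex `i + 1`. `cl_of` : the colours
`κ i y ↔ ¬ ((m2 ≤ i < m3) ↔ (t < i ∨ (t = i ∧ r < y)))` have one cut `(X, r)`, at the side `t`. -/

namespace Pool.Agent.H22.W.Vc

open Pool.Agent.H75.Perc (dir dir_cases)
open Pool.Agent.H75.TwoArm Pool.Agent.H99.W Pool.Agent.H13.W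
open Pool.Agent.H33.Q1 (lt tt ct TL lt_odd tt_lt lt_tt lt_inj mem_TL LY mem_LY)
open Pool.Agent.Q1.M4 (Cell PType IsSide nextSide tail head Good)
open Pool.Agent.H21.FM (Shape)
open Pool.Agent.H68.W
open Pool.Agent.H19.W (LamC WC VC sd si Tq κz mem_LamC lt_mem_LamC sd_eq X1 X2 XA tyA mkI)

variable {S : Shape} {n : ℤ} {x y r X : ℤ} {κ : ℕ → ℤ → Prop} {t : ℕ} {c c2 : Cell} {k k2 : ℤ}

/-- tiles of the shape -/
def TT (S : Shape) (n : ℤ) (x y : ℤ) : Prop := ct n (x, y) ∈ S.P.Q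

lemma tT : TT S n x y ↔ (x / n, y / n) ∈ S.P.Q := Iff.rfl

lemma dvi (hn : 0 < n) {x a : ℤ} : x / n = a ↔ n * a ≤ x ∧ x < n * a + n := by
  constructor
  · rintro rfl
    have hx := Int.emod_add_mul_ediv x n
    have h0 := Int.emod_nonneg x (show n ≠ 0 by omega)
    have h1 := Int.emod_lt_of_pos x (show 0 < n by omega)
    omega
  · rintro ⟨h1, h2⟩
    rw [Int.ediv_eq_iff_of_pos hn]
    constructor <;> nlinarith

/-- two neighbouring columns in different cells -/
lemma jump (hn : 4 ≤ n) (h : (x + 1) / n ≠ x / n) : x = n * (x / n) + n - 1 ∧ (x + 1) / n = x / n + 1 := by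
  have h1 := (dvi (show 0 < n by omega) (x := x) (a := x / n)).1 rfl
  have h2 : ¬ (n * (x / n) ≤ x + 1 ∧ x + 1 < n * (x / n) + n) := fun h' =>
    h ((dvi (show 0 < n by omega)).2 h')
  have e : n * (x / n + 1) = n * (x / n) + n := by ring
  refine ⟨by omega, (dvi (show 0 < n by omega)).2 ⟨by omega, by omega⟩⟩

/-- the window of 7 columns at the line between two cells -/
lemma winc (hn : 4 ≤ n) {s a : ℤ} (hs : s = 1 ∨ s = -1) (h : x / n ≠ (x + s) / n) (h1 : -3 ≤ a)
    (h2 : a ≤ 3) : (x + s * a) / n = if 1 ≤ a then (x + s) / n else x / n := by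
  have hn0 : 0 < n := by omega
  rcases hs with rfl | rfl
  · obtain ⟨e1, e2⟩ := jump hn (x := x) (fun h' => h h'.symm)
    have e : n * (x / n + 1) = n * (x / n) + n := by ring
    split_ifs with h3
    · rw [e2, dvi hn0]; omega
    · rw [dvi hn0]; omega
  · have e0 : x + -1 + 1 = x := by ring
    obtain ⟨e1, e2⟩ := jump hn (x := x + -1) (by rw [e0]; exact h)
    rw [e0] at e2
    have e : n * ((x + -1) / n + 1) = n * ((x + -1) / n) + n := by ring
    rw [← e2] at e
    split_ifs with h3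
    · rw [dvi hn0]; omega
    · rw [dvi hn0]; omega

theorem TT_cvx (hn : 4 ≤ n) : ∀ u v sx sy, (sx = 1 ∨ sx = -1) → (sy = 1 ∨ sy = -1) →
    TT S n (u + sx) (v + sy) → ¬ TT S n (u + sx) v → ¬ TT S n u (v + sy) → ¬ TT S n u v →
    Mark.Cvx (TT S n) ⟨u, v, sx, sy⟩ := by
  intro u v sx sy h1 h2 h3 h4 h5 h6
  rw [tT] at h3 h4 h5 h6
  have n1 : u / n ≠ (u + sx) / n := fun h => h5 (h ▸ h3)
  have n2 : v / n ≠ (v + sy) / n := fun h => h4 (h ▸ h3)
  refine ⟨h1, h2, fun a b a1 a2 b1 b2 => ?_⟩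
  simp only
  rw [tT, winc hn h1 n1 a1 a2, winc hn h2 n2 b1 b2]
  split_ifs with g1 g2 g2
  · exact ⟨fun _ => ⟨g1, g2⟩, fun _ => h3⟩
  · exact ⟨fun h => absurd h h4, fun h => absurd h.2 g2⟩
  · exact ⟨fun h => absurd h h5, fun h => absurd h.1 g1⟩
  · exact ⟨fun h => absurd h h6, fun h => absurd h.1 g1⟩

/-! ### `Ld (TT S n) = LamC` -/

lemma tc_iff {x y : ℤ} : Tc (TT S n) x y ↔ Tq S.P.Q n (x, y) := by
  unfold Tc Tq
  constructor
  · rintro ⟨a, b, h1, h2, h3⟩
    exact ⟨(a, b), by simp only; rw [abs_le]; omega, by simp only; rw [abs_le]; omega, h3⟩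
  · rintro ⟨⟨a, b⟩, h1, h2, h3⟩
    simp only at h1 h2
    rw [abs_le] at h1 h2
    exact ⟨a, b, by omega, by omega, h3⟩

theorem Ld_TT (hn : 0 < n) : Ld (TT S n) = (LamC S.P.Q n : Set (ℤ × ℤ)) := by
  ext e
  rw [mem_coe]
  constructor
  · rintro ⟨x, y, rfl, h⟩
    exact (lt_mem_LamC hn).2 (tc_iff.1 h)
  · intro h
    have h1 := (mem_LamC hn).1 h
    have e1 : e = lt ((tt e).1, (tt e).2) := (lt_tt h1.1).symm
    exact ⟨(tt e).1, (tt e).2, e1, tc_iff.2 h1.2⟩

/-! ### Indices of the sides -/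

/-- the next side, not at a mark -/
def Nx (S : Shape) (i j : ℕ) : Prop := j = i + 1 ∧ j ≠ S.m2 ∧ j ≠ S.m3 ∧ j < S.N

lemma ix_next (h : IsSide S.P.Q (c, k)) (hn : nextSide S.P.Q (c, k) = (c2, k2)) (hc : c2 ≠ c) :
    Nx S (sx S.P c k) (sx S.P c2 k2) := by
  obtain ⟨e, h1⟩ := sx_next h hn
  obtain ⟨h2, h3, h4⟩ := sx_spec h
  have key : ¬ (sx S.P c k + 1 = S.m2 ∨ sx S.P c k + 1 = S.m3 ∨ sx S.P c k + 1 = S.P.m ∨
      sx S.P c k + 1 = S.P.N) := by
    intro h5
    have := S.cvx _ h5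
    rw [e, Prod.mk.injEq, h3] at this
    exact hc this.1
  push Not at key
  rcases h1 with ⟨h5, h6⟩ | ⟨h5, h6⟩
  · exact ⟨h6, by omega, by omega, by rw [h6]; exact h5⟩
  · exact absurd h5 key.2.2.2

lemma sx_mod (h : (k - k2) % 4 = 0) : sx S.P c k = sx S.P c k2 := by
  by_cases hs : IsSide S.P.Q (c, k)
  · obtain ⟨a, b, d⟩ := sx_spec hs
    exact (sx_eq (k := k2) a b (by omega)).symm
  · have hs' : ¬ IsSide S.P.Q (c, k2) := fun h' => hs ((isSide_mod h).2 h')
    unfold sx
    rw [dif_neg hs, dif_neg hs']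

section
variable {x y : ℤ}

lemma ix_st0 (h1 : (x, y) ∈ S.P.Q) (h2 : (x, y - 1) ∉ S.P.Q) (h3 : (x + 1, y) ∈ S.P.Q)
    (h4 : (x + 1, y - 1) ∉ S.P.Q) : Nx S (sx S.P (x, y) 0) (sx S.P (x + 1, y) 0) := by
  refine ix_next (isSide0.2 ⟨h1, h2⟩) ?_ (by simp)
  unfold nextSide
  simp [dir, h3, ← sub_eq_add_neg, h4]

lemma ix_st1 (h1 : (x, y) ∈ S.P.Q) (h2 : (x + 1, y) ∉ S.P.Q) (h3 : (x, y + 1) ∈ S.P.Q)
    (h4 : (x + 1, y + 1) ∉ S.P.Q) : Nx S (sx S.P (x, y) 1) (sx S.P (x, y + 1) 1) := by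
  refine ix_next (isSide1.2 ⟨h1, h2⟩) ?_ (by simp)
  unfold nextSide
  simp [dir, h3, h4]

lemma ix_st2 (h1 : (x, y) ∈ S.P.Q) (h2 : (x, y + 1) ∉ S.P.Q) (h3 : (x - 1, y) ∈ S.P.Q)
    (h4 : (x - 1, y + 1) ∉ S.P.Q) : Nx S (sx S.P (x, y) 2) (sx S.P (x - 1, y) 2) := by
  refine ix_next (isSide2.2 ⟨h1, h2⟩) ?_ (by simp)
  unfold nextSide
  simp [dir, ← sub_eq_add_neg, h3, h4]

lemma ix_st3 (h1 : (x, y) ∈ S.P.Q) (h2 : (x - 1, y) ∉ S.P.Q) (h3 : (x, y - 1) ∈ S.P.Q)
    (h4 : (x - 1, y - 1) ∉ S.P.Q) : Nx S (sx S.P (x, y) 3) (sx S.P (x, y - 1) 3) := by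
  refine ix_next (isSide3.2 ⟨h1, h2⟩) ?_ (by simp)
  unfold nextSide
  simp [dir, ← sub_eq_add_neg, h3, h4]

lemma ix_rx0 (h1 : (x, y) ∈ S.P.Q) (h2 : (x, y - 1) ∉ S.P.Q) (h3 : (x + 1, y - 1) ∈ S.P.Q) :
    Nx S (sx S.P (x, y) 0) (sx S.P (x + 1, y - 1) 3) := by
  rw [sx_mod (k := 3) (k2 := -1) (by norm_num)]
  refine ix_next (isSide0.2 ⟨h1, h2⟩) ?_ (by simp)
  unfold nextSide
  simp [dir, ← sub_eq_add_neg, h3]

lemma ix_rx1 (h1 : (x, y) ∈ S.P.Q) (h2 : (x + 1, y) ∉ S.P.Q) (h3 : (x + 1, y + 1) ∈ S.P.Q) :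
    Nx S (sx S.P (x, y) 1) (sx S.P (x + 1, y + 1) 0) := by
  refine ix_next (isSide1.2 ⟨h1, h2⟩) ?_ (by simp)
  unfold nextSide
  simp [dir, h3]

lemma ix_rx2 (h1 : (x, y) ∈ S.P.Q) (h2 : (x, y + 1) ∉ S.P.Q) (h3 : (x - 1, y + 1) ∈ S.P.Q) :
    Nx S (sx S.P (x, y) 2) (sx S.P (x - 1, y + 1) 1) := by
  refine ix_next (isSide2.2 ⟨h1, h2⟩) ?_ (by simp)
  unfold nextSide
  simp [dir, ← sub_eq_add_neg, h3]

lemma ix_rx3 (h1 : (x, y) ∈ S.P.Q) (h2 : (x - 1, y) ∉ S.P.Q) (h3 : (x - 1, y - 1) ∈ S.P.Q) :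
    Nx S (sx S.P (x, y) 3) (sx S.P (x - 1, y - 1) 2) := by
  refine ix_next (isSide3.2 ⟨h1, h2⟩) ?_ (by simp)
  unfold nextSide
  simp [dir, ← sub_eq_add_neg, h3]

end

/-- convex corner -/
lemma ix_cv (h : IsSide S.P.Q (c, k)) (hn : nextSide S.P.Q (c, k) = (c, k + 1)) :
    (sx S.P c k + 1 < S.N ∧ sx S.P c (k + 1) = sx S.P c k + 1) ∨
      (sx S.P c k + 1 = S.N ∧ sx S.P c (k + 1) = 0) := (sx_next h hn).2

/-! ### The side of an outer tile -/

/-- index of the side of the tile `(x, y)` -/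
noncomputable def ix (S : Shape) (n x y : ℤ) : ℕ := si S.P n (x, y)

lemma ixW (h : TT S n (x - 1) y) : ix S n x y = sx S.P ((x - 1) / n, y / n) 1 := by
  rw [tT] at h
  unfold ix si
  rw [sd_eq, if_pos h]

lemma ixE (h1 : ¬ TT S n (x - 1) y) (h : TT S n (x + 1) y) :
    ix S n x y = sx S.P ((x + 1) / n, y / n) 3 := by
  rw [tT] at h h1
  unfold ix si
  rw [sd_eq, if_neg h1, if_pos h]

lemma ixS (h1 : ¬ TT S n (x - 1) y) (h2 : ¬ TT S n (x + 1) y) (h : TT S n x (y - 1)) :
    ix S n x y = sx S.P (x / n, (y - 1) / n) 2 := by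
  rw [tT] at h h1 h2
  unfold ix si
  rw [sd_eq, if_neg h1, if_neg h2, if_pos h]

lemma ixN (h1 : ¬ TT S n (x - 1) y) (h2 : ¬ TT S n (x + 1) y) (h3 : ¬ TT S n x (y - 1))
    (h : TT S n x (y + 1)) : ix S n x y = sx S.P (x / n, (y + 1) / n) 0 := by
  rw [tT] at h h1 h2 h3
  unfold ix si
  rw [sd_eq, if_neg h1, if_neg h2, if_neg h3, if_pos h]

/-- diagonal tiles -/
lemma ixD {m : Mark} (hm : Mark.Cvx (TT S n) m) : ix S n m.u m.v =
    sx S.P ((m.u + m.sx) / n, (m.v + m.sy) / n) (if m.sx = 1 then 3 else 1) := by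
  have N : ∀ a b : ℤ, m.u - 1 ≤ a → a ≤ m.u + 1 → m.v - 1 ≤ b → b ≤ m.v + 1 →
      (a ≠ m.u + m.sx ∨ b ≠ m.v + m.sy) → (a / n, b / n) ∉ S.P.Q := by
    intro a b h1 h2 h3 h4 h5 h6
    have := hm.eq_of h1 h2 h3 h4 (tT.2 h6)
    omega
  have hr := tT.1 hm.room
  have k1 := hm.1
  have k2 := hm.2.1
  unfold ix si
  rw [sd_eq, if_neg (N _ _ (by omega) (by omega) (by omega) (by omega) (by omega)),
    if_neg (N _ _ (by omega) (by omega) (by omega) (by omega) (by omega)),
    if_neg (N _ _ (by omega) (by omega) (by omega) (by omega) (by omega)),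
    if_neg (N _ _ (by omega) (by omega) (by omega) (by omega) (by omega))]
  rcases k1 with k1 | k1 <;> rcases k2 with k2 | k2
  · rw [if_neg (N _ _ (by omega) (by omega) (by omega) (by omega) (by omega)),
      if_neg (N _ _ (by omega) (by omega) (by omega) (by omega) (by omega)),
      if_neg (N _ _ (by omega) (by omega) (by omega) (by omega) (by omega)), if_pos k1, k1, k2]
  · rw [k1, k2, ← sub_eq_add_neg] at hr
    rw [if_neg (N _ _ (by omega) (by omega) (by omega) (by omega) (by omega)),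
      if_neg (N _ _ (by omega) (by omega) (by omega) (by omega) (by omega)),
      if_pos hr, if_pos k1, k1, k2]
    rfl
  · rw [k1, k2, ← sub_eq_add_neg] at hr
    rw [if_neg (N _ _ (by omega) (by omega) (by omega) (by omega) (by omega)),
      if_pos hr, if_neg (by omega), k1, k2]
    rfl
  · rw [k1, k2, ← sub_eq_add_neg, ← sub_eq_add_neg] at hr
    rw [if_pos hr, if_neg (by omega), k1, k2]
    rfl

/-- neighbours of the diagonal tiles in the horizontal layer -/
lemma ixH {m : Mark} (hm : Mark.Cvx (TT S n) m) : ix S n (m.u + m.sx) m.v =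
    sx S.P ((m.u + m.sx) / n, (m.v + m.sy) / n) (if m.sy = 1 then 0 else 2) := by
  have k1 := hm.1
  have k2 := hm.2.1
  have N : ∀ a b : ℤ, m.u - 2 ≤ a → a ≤ m.u + 2 → m.v - 2 ≤ b → b ≤ m.v + 2 →
      ¬ (1 ≤ m.sx * (a - m.u) ∧ 1 ≤ m.sy * (b - m.v)) → ¬ TT S n a b := by
    intro a b h1 h2 h3 h4 h5 h6
    exact h5 ((hm.near h1 h2 h3 h4).1 h6)
  have hr := hm.room
  rcases k2 with k2 | k2
  · rw [if_pos k2, ixN (N _ _ (by omega) (by omega) (by omega) (by omega) (by rw [k2]; omega))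
      (N _ _ (by omega) (by omega) (by omega) (by omega) (by rw [k2]; omega))
      (N _ _ (by omega) (by omega) (by omega) (by omega) (by rw [k2]; omega)) (by rw [← k2]; exact hr), k2]
  · rw [if_neg (by omega), ixS (N _ _ (by omega) (by omega) (by omega) (by omega) (by rw [k2]; omega))
      (N _ _ (by omega) (by omega) (by omega) (by omega) (by rw [k2]; omega))
      (by rw [sub_eq_add_neg, ← k2]; exact hr), k2]
    rfl

/-! ### Walls -/

/-- a right wall -/
lemma wR (hn : 4 ≤ n) (h1 : TT S n (x - 1) y) (h2 : ¬ TT S n x y) :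
    x = n * ((x - 1) / n) + n ∧ x / n = (x - 1) / n + 1 := by
  rw [tT] at h1 h2
  have h3 : (x - 1 + 1) / n ≠ (x - 1) / n := by
    rw [sub_add_cancel]
    intro h
    exact h2 (h ▸ h1)
  have := jump hn h3
  rw [sub_add_cancel] at this
  exact ⟨by omega, this.2⟩

/-- a left wall -/
lemma wL (hn : 4 ≤ n) (h1 : TT S n (x + 1) y) (h2 : ¬ TT S n x y) :
    x + 1 = n * ((x + 1) / n) ∧ (x + 1) / n = x / n + 1 ∧ (x - 1) / n = x / n := by
  rw [tT] at h1 h2
  have h3 : (x + 1) / n ≠ x / n := by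
    intro h
    exact h2 (h ▸ h1)
  obtain ⟨e1, e2⟩ := jump hn h3
  have e : n * (x / n + 1) = n * (x / n) + n := by ring
  refine ⟨by rw [e2]; omega, e2, (dvi (by omega)).2 ⟨by omega, by omega⟩⟩

/-- a ceiling -/
lemma wC (hn : 4 ≤ n) (h1 : TT S n x (y - 1)) (h2 : ¬ TT S n x y) :
    y = n * ((y - 1) / n) + n ∧ y / n = (y - 1) / n + 1 := by
  rw [tT] at h1 h2
  have h3 : (y - 1 + 1) / n ≠ (y - 1) / n := by
    rw [sub_add_cancel]
    intro h
    exact h2 (h ▸ h1)
  have := jump hn h3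
  rw [sub_add_cancel] at this
  exact ⟨by omega, this.2⟩

/-- a floor -/
lemma wF (hn : 4 ≤ n) (h1 : TT S n x (y + 1)) (h2 : ¬ TT S n x y) :
    y + 1 = n * ((y + 1) / n) ∧ (y + 1) / n = y / n + 1 ∧ (y - 1) / n = y / n := by
  rw [tT] at h1 h2
  have h3 : (y + 1) / n ≠ y / n := by
    intro h
    exact h2 (h ▸ h1)
  obtain ⟨e1, e2⟩ := jump hn h3
  have e : n * (y / n + 1) = n * (y / n) + n := by ring
  refine ⟨by rw [e2]; omega, e2, (dvi (by omega)).2 ⟨by omega, by omega⟩⟩

/-! ### The colours -/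

/-- **Colours with one cut** `(X, r)` at the side `t` of the cell `c0`. -/
structure CK (S : Shape) (n : ℤ) (κ : ℕ → ℤ → Prop) (t : ℕ) (c0 : Cell) (X r : ℤ) : Prop where
  hn : 4 ≤ n
  hκ : ∀ i y, κ i y ↔ ¬ ((S.m2 ≤ i ∧ i < S.m3) ↔ (t < i ∨ (t = i ∧ r < y)))
  hs : IsSide S.P.Q (c0, 1)
  ht : sx S.P c0 1 = t
  hX : X = n * c0.1 + n
  r1 : n * c0.2 - 1 ≤ r
  r2 : r ≤ n * c0.2 + n - 1
  o1 : ¬ TT S n X r
  o2 : ¬ TT S n X (r + 1)

namespace CK

variable {c0 : Cell} {i j : ℕ} {y' : ℤ} (H : CK S n κ t c0 X r)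
include H

lemma same : ((κ i y ↔ κ i y') ↔ ¬ (t = i ∧ ¬ (r < y ↔ r < y'))) := by
  rw [H.hκ, H.hκ]
  omega

lemma nx (h : Nx S i j) : ((κ i y ↔ κ j y') ↔ ¬ ((t = i ∧ ¬ r < y) ∨ (t = j ∧ r < y'))) := by
  rw [H.hκ, H.hκ]
  unfold Nx at h
  have := S.h23
  omega

lemma ti (hs : IsSide S.P.Q (c, k)) (h : t = sx S.P c k) : c = c0 ∧ (k - 1) % 4 = 0 := by
  obtain ⟨a1, a2, a3⟩ := sx_spec hs
  obtain ⟨b1, b2, b3⟩ := sx_spec H.hs
  rw [H.ht] at b2 b3
  rw [← h] at a2 a3
  exact ⟨a2.symm.trans b2, by omega⟩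

lemma c0Q : c0 ∈ S.P.Q := H.hs.1

lemma c0r : (c0.1 + 1, c0.2) ∉ S.P.Q := (isSide1.1 (show IsSide S.P.Q ((c0.1, c0.2), 1) from H.hs)).2

/-- the room beside the cut -/
lemma room (h1 : n * c0.2 ≤ y) (h2 : y < n * c0.2 + n) : TT S n (X - 1) y := by
  have hn := H.hn
  have hX := H.hX
  rw [tT, (dvi (show 0 < n by omega) (a := c0.1)).2 ⟨by omega, by omega⟩,
    (dvi (show 0 < n by omega) (a := c0.2)).2 ⟨h1, h2⟩]
  exact H.c0Q

lemma mul_inj {a b : ℤ} (h : n * a = n * b) : a = b := by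
  have hn := H.hn
  exact mul_left_cancel₀ (show n ≠ 0 by omega) h

/-- rows of the cut -/
lemma rq (h : r = n * (r / n) + n - 1) : r = n * c0.2 + n - 1 ∨ r = n * c0.2 - 1 := by
  have hn := H.hn
  by_cases h1 : n * c0.2 ≤ r
  · have h2 : r / n = c0.2 := (dvi (by omega)).2 ⟨h1, by have := H.r2; omega⟩
    rw [h2] at h
    exact Or.inl h
  · have := H.r1
    right; omega

/-- **Vertical walls.** -/
theorem colV (s : ℤ) (hs : s = 1 ∨ s = -1) (h1 : ¬ TT S n x y) (h2 : ¬ TT S n x (y + 1))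
    (h3 : TT S n (x + s) y ∨ TT S n (x + s) (y + 1)) :
    ((κ (ix S n x y) y ↔ κ (ix S n x (y + 1)) (y + 1)) ↔ (x, y) ∉ ({(X, r)} : Set (ℤ × ℤ))) := by
  have hn := H.hn
  have hn0 : 0 < n := by omega
  have hr1 := H.r1
  have hr2 := H.r2
  have hX := H.hX
  simp only [Set.mem_singleton_iff, Prod.mk.injEq]
  rcases hs with rfl | rfl
  · -- the room is on the right
    have hcut : ¬ (x = X ∧ y = r) := by
      rintro ⟨rfl, rfl⟩
      have e1 : x / n = c0.1 + 1 := by
        rw [dvi hn0]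
        have : n * (c0.1 + 1) = n * c0.1 + n := by ring
        omega
      have e2 : (x + 1) / n = c0.1 + 1 := by
        rw [dvi hn0]
        have : n * (c0.1 + 1) = n * c0.1 + n := by ring
        omega
      rcases h3 with h3 | h3
      · have := (wL hn h3 h1).2.1
        omega
      · have := (wL hn h3 h2).2.1
        omega
    have key : ∀ i j : ℕ, t ≠ i → t ≠ j → (i = j ∨ Nx S i j ∨ Nx S j i) →
        (κ i y ↔ κ j (y + 1)) := by
      intro i j hi hj hij
      rcases hij with rfl | hij | hij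
      · rw [H.same]; tauto
      · rw [H.nx hij]; tauto
      · rw [Iff.comm, H.nx hij]; tauto
    have fin : (κ (ix S n x y) y ↔ κ (ix S n x (y + 1)) (y + 1)) := by
      have kt : ∀ c : Cell, IsSide S.P.Q (c, 3) → t ≠ sx S.P c 3 := by
        intro c hc h
        have := (H.ti hc h).2
        omega
      have n1 : ∀ y', (TT S n (x + 1) y ∨ TT S n (x + 1) (y + 1)) → ¬ TT S n x y' → ¬ TT S n (x - 1) y' := by
        intro y' h h'
        have e : (x - 1) / n = x / n := by
          rcases h with h | h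
          · exact (wL hn h h1).2.2
          · exact (wL hn h h2).2.2
        rw [tT, e]
        exact h'
      by_cases c1 : TT S n (x + 1) y
      · have s1 : IsSide S.P.Q (((x + 1) / n, y / n), 3) := by
          rw [isSide3]
          refine ⟨tT.1 c1, ?_⟩
          rw [(wL hn c1 h1).2.1, add_sub_cancel_right]
          exact h1
        by_cases c2 : TT S n (x + 1) (y + 1)
        · have s2 : IsSide S.P.Q (((x + 1) / n, (y + 1) / n), 3) := by
            rw [isSide3]
            refine ⟨tT.1 c2, ?_⟩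
            rw [(wL hn c2 h2).2.1, add_sub_cancel_right]
            exact h2
          rw [ixE (n1 _ h3 h1) c1, ixE (n1 _ h3 h2) c2]
          refine key _ _ (kt _ s1) (kt _ s2) ?_
          by_cases e : (y + 1) / n = y / n
          · left; rw [e]
          · right; right
            have e3 := (jump hn e).2
            have := ix_st3 (S := S) (x := (x + 1) / n) (y := (y + 1) / n) s2.1 (isSide3.1 s2).2
              (by rw [e3, add_sub_cancel_right]; exact s1.1)
              (by rw [e3, add_sub_cancel_right]; exact (isSide3.1 s1).2)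
            rw [e3, add_sub_cancel_right, ← e3] at this
            exact this
        · -- diagonal tile above
          have hm := TT_cvx hn x (y + 1) 1 (-1) (Or.inl rfl) (Or.inr rfl)
            (by rw [add_neg_cancel_right]; exact c1) c2 (by rw [add_neg_cancel_right]; exact h1) h2
          have e := ixD hm
          simp only [if_true, add_neg_cancel_right] at e
          rw [ixE (n1 _ h3 h1) c1, e]
          exact key _ _ (kt _ s1) (kt _ s1) (Or.inl rfl)
      · have c2 : TT S n (x + 1) (y + 1) := by tauto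
        have s2 : IsSide S.P.Q (((x + 1) / n, (y + 1) / n), 3) := by
          rw [isSide3]
          refine ⟨tT.1 c2, ?_⟩
          rw [(wL hn c2 h2).2.1, add_sub_cancel_right]
          exact h2
        have hm := TT_cvx hn x y 1 1 (Or.inl rfl) (Or.inl rfl) c2 c1 h2 h1
        have e := ixD hm
        simp only [if_true] at e
        rw [ixE (n1 _ h3 h2) c2, e]
        exact key _ _ (kt _ s2) (kt _ s2) (Or.inl rfl)
    tauto
  · -- the room is on the left
    rw [← sub_eq_add_neg] at h3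
    by_cases c1 : TT S n (x - 1) y
    · obtain ⟨e1, e2⟩ := wR hn c1 h1
      have s1 : IsSide S.P.Q (((x - 1) / n, y / n), 1) := by
        rw [isSide1, ← e2]
        exact ⟨tT.1 c1, h1⟩
      by_cases c2 : TT S n (x - 1) (y + 1)
      · have s2 : IsSide S.P.Q (((x - 1) / n, (y + 1) / n), 1) := by
          rw [isSide1, ← e2]
          exact ⟨tT.1 c2, h2⟩
        rw [ixW c1, ixW c2]
        by_cases e : (y + 1) / n = y / n
        · rw [e, H.same, not_iff_not]
          constructor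
          · rintro ⟨g1, g2⟩
            have g3 := (H.ti s1 g1).1
            refine ⟨?_, by omega⟩
            have : (x - 1) / n = c0.1 := by rw [← g3]
            rw [this] at e1
            omega
          · rintro ⟨rfl, rfl⟩
            have g3 : (x - 1) / n = c0.1 := H.mul_inj (by omega)
            have g4 : y / n = c0.2 := by
              rcases lt_or_ge y (n * c0.2) with g | g
              · exfalso
                have g5 : (y + 1) / n = c0.2 := (dvi hn0).2 ⟨by omega, by omega⟩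
                have g6 : y / n = c0.2 - 1 := (dvi hn0).2 (by
                  have : n * (c0.2 - 1) = n * c0.2 - n := by ring
                  omega)
                omega
              · exact (dvi hn0).2 ⟨g, by omega⟩
            refine ⟨?_, by omega⟩
            rw [g3, g4]
            exact H.ht.symm
        · obtain ⟨e3, e4⟩ := jump hn e
          have st := ix_st1 (S := S) (x := (x - 1) / n) (y := y / n) s1.1 (isSide1.1 s1).2
            (by rw [← e4]; exact s2.1) (by rw [← e4]; exact (isSide1.1 s2).2)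
          rw [← e4] at st
          rw [H.nx st, not_iff_not]
          have e5 : n * ((y + 1) / n) = n * (y / n) + n := by rw [e4]; ring
          constructor
          · rintro (⟨g1, g2⟩ | ⟨g1, g2⟩)
            · have g3 := (H.ti s1 g1).1
              have g4 : (x - 1) / n = c0.1 := by rw [← g3]
              have g5 : y / n = c0.2 := by rw [← g3]
              rw [g4] at e1
              rw [g5] at e3
              omega
            · have g3 := (H.ti s2 g1).1
              have g4 : (x - 1) / n = c0.1 := by rw [← g3]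
              have g5 : (y + 1) / n = c0.2 := by rw [← g3]
              rw [g4] at e1
              rw [g5] at e5
              omega
          · rintro ⟨rfl, rfl⟩
            have g3 : (x - 1) / n = c0.1 := H.mul_inj (by omega)
            rcases H.rq e3 with g | g
            · left
              have g4 : y / n = c0.2 := H.mul_inj (by omega)
              rw [g3, g4]
              exact ⟨H.ht.symm, by omega⟩
            · right
              have g4 : (y + 1) / n = c0.2 := H.mul_inj (by omega)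
              rw [g3, g4]
              exact ⟨H.ht.symm, by omega⟩
      · -- diagonal tile above
        have hm := TT_cvx hn x (y + 1) (-1) (-1) (Or.inr rfl) (Or.inr rfl)
          (by rw [add_neg_cancel_right, ← sub_eq_add_neg]; exact c1) (by rw [← sub_eq_add_neg]; exact c2)
          (by rw [add_neg_cancel_right]; exact h1) h2
        have e := ixD hm
        simp only [← sub_eq_add_neg, add_sub_cancel_right] at e
        rw [if_neg (by norm_num)] at e
        rw [ixW c1, e, H.same, not_iff_not]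
        have ey : (y + 1) / n ≠ y / n := by
          intro h
          apply c2
          rw [tT, h]
          exact c1
        obtain ⟨e3, e4⟩ := jump hn ey
        constructor
        · rintro ⟨g1, g2⟩
          have g3 := (H.ti s1 g1).1
          refine ⟨?_, by omega⟩
          have : (x - 1) / n = c0.1 := by rw [← g3]
          rw [this] at e1
          omega
        · rintro ⟨rfl, rfl⟩
          have g3 : (x - 1) / n = c0.1 := H.mul_inj (by omega)
          rcases H.rq e3 with g | g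
          · have g4 : y / n = c0.2 := H.mul_inj (by omega)
            rw [g3, g4]
            exact ⟨H.ht.symm, by omega⟩
          · exfalso
            exact c2 (H.room (by omega) (by omega))
    · have c2 : TT S n (x - 1) (y + 1) := by tauto
      obtain ⟨e1, e2⟩ := wR hn c2 h2
      have s2 : IsSide S.P.Q (((x - 1) / n, (y + 1) / n), 1) := by
        rw [isSide1, ← e2]
        exact ⟨tT.1 c2, h2⟩
      have hm := TT_cvx hn x y (-1) 1 (Or.inr rfl) (Or.inl rfl)
        (by rw [← sub_eq_add_neg]; exact c2) (by rw [← sub_eq_add_neg]; exact c1) h2 h1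
      have e := ixD hm
      simp only [← sub_eq_add_neg] at e
      rw [if_neg (by norm_num)] at e
      rw [ixW c2, e, H.same, not_iff_not]
      have ey : (y + 1) / n ≠ y / n := by
        intro h
        apply c1
        rw [tT, ← h]
        exact c2
      obtain ⟨e3, e4⟩ := jump hn ey
      have e5 : n * ((y + 1) / n) = n * (y / n) + n := by rw [e4]; ring
      constructor
      · rintro ⟨g1, g2⟩
        have g3 := (H.ti s2 g1).1
        refine ⟨?_, by omega⟩
        have : (x - 1) / n = c0.1 := by rw [← g3]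
        rw [this] at e1
        omega
      · rintro ⟨rfl, rfl⟩
        have g3 : (x - 1) / n = c0.1 := H.mul_inj (by omega)
        rcases H.rq e3 with g | g
        · exfalso
          exact c1 (H.room (by omega) (by omega))
        · have g4 : (y + 1) / n = c0.2 := H.mul_inj (by omega)
          rw [g3, g4]
          exact ⟨H.ht.symm, by omega⟩

/-- **Horizontal walls.** -/
theorem colH (s : ℤ) (hs : s = 1 ∨ s = -1) (h1 : ¬ TT S n x y) (h2 : ¬ TT S n (x + 1) y)
    (h3 : TT S n x (y + s)) (h4 : TT S n (x + 1) (y + s)) :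
    (κ (ix S n x y) y ↔ κ (ix S n (x + 1) y) y) := by
  have hn := H.hn
  have hn0 : 0 < n := by omega
  have hr1 := H.r1
  have hr2 := H.r2
  have hX := H.hX
  have e21 : x + 1 + 1 = x + 2 := by ring
  have key : ∀ i j : ℕ, t ≠ i → t ≠ j → (i = j ∨ Nx S i j ∨ Nx S j i) → (κ i y ↔ κ j y) := by
    intro i j hi hj hij
    rcases hij with rfl | hij | hij
    · exact Iff.rfl
    · rw [H.nx hij]; tauto
    · rw [Iff.comm, H.nx hij]; tauto
  have kt : ∀ (c : Cell) (k : ℤ), IsSide S.P.Q (c, k) → (k = 0 ∨ k = 2 ∨ k = 3) → t ≠ sx S.P c k := by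
    intro c k hc hk h
    have := (H.ti hc h).2
    omega
  -- both neighbours are walls: impossible
  have no13 : TT S n (x - 1) y → ¬ TT S n (x + 2) y := by
    intro g1 g2
    obtain ⟨a1, a2⟩ := wR hn g1 h1
    rw [← e21] at g2
    obtain ⟨b1, b2, b3⟩ := wL hn g2 h2
    have : (x + 1) / n = x / n := by
      rw [dvi hn0, a2]
      have : n * ((x - 1) / n + 1) = n * ((x - 1) / n) + n := by ring
      omega
    have h' : (x + 1 + 1) / n = x / n := by
      rw [dvi hn0, a2]
      have : n * ((x - 1) / n + 1) = n * ((x - 1) / n) + n := by ring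
      omega
    omega
  rcases hs with rfl | rfl
  · -- a floor
    obtain ⟨f1, f2, f3⟩ := wF hn h3 h1
    have f4 : ¬ TT S n x (y - 1) := by rw [tT, f3]; exact h1
    have f5 : ¬ TT S n (x + 1) (y - 1) := by rw [tT, f3]; exact h2
    have sA : IsSide S.P.Q ((x / n, (y + 1) / n), 0) := by
      rw [isSide0, f2, add_sub_cancel_right, ← f2]
      exact ⟨tT.1 h3, h1⟩
    have sB : IsSide S.P.Q (((x + 1) / n, (y + 1) / n), 0) := by
      rw [isSide0, f2, add_sub_cancel_right, ← f2]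
      exact ⟨tT.1 h4, h2⟩
    by_cases a : TT S n (x - 1) y
    · -- reflex corner
      obtain ⟨a1, a2⟩ := wR hn a h1
      have b := no13 a
      rw [← e21] at b
      have sA1 : IsSide S.P.Q (((x - 1) / n, y / n), 1) := by
        rw [isSide1, ← a2]
        exact ⟨tT.1 a, h1⟩
      have e : (x + 1) / n = x / n := by
        rw [dvi hn0, a2]
        have : n * ((x - 1) / n + 1) = n * ((x - 1) / n) + n := by ring
        omega
      rw [ixW a, ixN (x := x + 1) (by rw [add_sub_cancel_right]; exact h1) b f5 h4, e]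
      have hnx := ix_rx1 (S := S) (x := (x - 1) / n) (y := y / n) sA1.1 (isSide1.1 sA1).2
        (by rw [← a2, ← f2]; exact h3)
      rw [← a2, ← f2] at hnx
      rw [H.nx hnx]
      rintro (⟨g1, g2⟩ | ⟨g1, g2⟩)
      · have g3 := (H.ti sA1 g1).1
        have g4 : (x - 1) / n = c0.1 := by rw [← g3]
        have g5 : y / n = c0.2 := by rw [← g3]
        rw [g4] at a1
        have e5 : n * ((y + 1) / n) = n * (y / n) + n := by rw [f2]; ring
        rw [g5] at e5
        apply H.o2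
        rw [show X = x by omega, show r + 1 = y + 1 by omega]
        exact h3
      · exact kt _ _ sA (Or.inl rfl) g1
    · rw [ixN a h2 f4 h3]
      by_cases b : TT S n (x + 2) y
      · -- reflex corner
        rw [← e21] at b
        obtain ⟨b1, b2, b3⟩ := wL hn b h2
        rw [add_sub_cancel_right] at b3
        have sB3 : IsSide S.P.Q (((x + 1 + 1) / n, y / n), 3) := by
          rw [isSide3, b2, add_sub_cancel_right, ← b2]
          exact ⟨tT.1 b, h2⟩
        rw [ixE (x := x + 1) (by rw [add_sub_cancel_right]; exact h1) b]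
        refine key _ _ (kt _ _ sA (Or.inl rfl)) (kt _ _ sB3 (Or.inr (Or.inr rfl))) (Or.inr (Or.inl ?_))
        have := ix_rx0 (S := S) (x := x / n) (y := (y + 1) / n) sA.1 (isSide0.1 sA).2
          (by rw [f2, add_sub_cancel_right, b3, ← b2]; exact tT.1 b)
        rw [f2, add_sub_cancel_right, ← f2] at this
        rw [b2, ← b3]
        exact this
      · rw [← e21] at b
        rw [ixN (x := x + 1) (by rw [add_sub_cancel_right]; exact h1) b f5 h4]
        refine key _ _ (kt _ _ sA (Or.inl rfl)) (kt _ _ sB (Or.inl rfl)) ?_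
        by_cases e : (x + 1) / n = x / n
        · left; rw [e]
        · right; left
          have e2 := (jump hn e).2
          have := ix_st0 (S := S) (x := x / n) (y := (y + 1) / n) sA.1 (isSide0.1 sA).2
            (by rw [← e2]; exact sB.1) (by rw [← e2]; exact (isSide0.1 sB).2)
          rw [← e2] at this
          exact this
  · -- a ceiling
    rw [← sub_eq_add_neg] at h3 h4
    obtain ⟨f1, f2⟩ := wC hn h3 h1
    have sA : IsSide S.P.Q ((x / n, (y - 1) / n), 2) := by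
      rw [isSide2, ← f2]
      exact ⟨tT.1 h3, h1⟩
    have sB : IsSide S.P.Q (((x + 1) / n, (y - 1) / n), 2) := by
      rw [isSide2, ← f2]
      exact ⟨tT.1 h4, h2⟩
    by_cases a : TT S n (x - 1) y
    · obtain ⟨a1, a2⟩ := wR hn a h1
      have b := no13 a
      rw [← e21] at b
      have sA1 : IsSide S.P.Q (((x - 1) / n, y / n), 1) := by
        rw [isSide1, ← a2]
        exact ⟨tT.1 a, h1⟩
      have e : (x + 1) / n = x / n := by
        rw [dvi hn0, a2]
        have : n * ((x - 1) / n + 1) = n * ((x - 1) / n) + n := by ring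
        omega
      rw [ixW a, ixS (x := x + 1) (by rw [add_sub_cancel_right]; exact h1) b h4, e]
      have hnx := ix_rx2 (S := S) (x := x / n) (y := (y - 1) / n) sA.1 (isSide2.1 sA).2
        (by rw [← f2, a2, add_sub_cancel_right]; exact a)
      rw [← f2, a2, add_sub_cancel_right, ← a2] at hnx
      rw [Iff.comm, H.nx hnx]
      rintro (⟨g1, g2⟩ | ⟨g1, g2⟩)
      · exact kt _ _ sA (Or.inr (Or.inl rfl)) g1
      · have g3 := (H.ti sA1 g1).1
        have g4 : (x - 1) / n = c0.1 := by rw [← g3]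
        have g5 : y / n = c0.2 := by rw [← g3]
        rw [g4] at a1
        have e5 : n * (y / n) = n * ((y - 1) / n) + n := by rw [f2]; ring
        rw [g5] at e5
        apply H.o1
        rw [show X = x by omega, show r = y - 1 by omega]
        exact h3
    · rw [ixS a h2 h3]
      by_cases b : TT S n (x + 2) y
      · rw [← e21] at b
        obtain ⟨b1, b2, b3⟩ := wL hn b h2
        rw [add_sub_cancel_right] at b3
        have sB3 : IsSide S.P.Q (((x + 1 + 1) / n, y / n), 3) := by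
          rw [isSide3, b2, add_sub_cancel_right, ← b2]
          exact ⟨tT.1 b, h2⟩
        rw [ixE (x := x + 1) (by rw [add_sub_cancel_right]; exact h1) b]
        refine key _ _ (kt _ _ sA (Or.inr (Or.inl rfl))) (kt _ _ sB3 (Or.inr (Or.inr rfl)))
          (Or.inr (Or.inr ?_))
        have := ix_rx3 (S := S) (x := (x + 1 + 1) / n) (y := y / n) sB3.1 (isSide3.1 sB3).2
          (by rw [b2, add_sub_cancel_right, f2, add_sub_cancel_right]; exact tT.1 h4)
        rw [b2, add_sub_cancel_right, f2, add_sub_cancel_right, ← f2, ← b2, ← b3] at this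
        exact this
      · rw [← e21] at b
        rw [ixS (x := x + 1) (by rw [add_sub_cancel_right]; exact h1) b h4]
        refine key _ _ (kt _ _ sA (Or.inr (Or.inl rfl))) (kt _ _ sB (Or.inr (Or.inl rfl))) ?_
        by_cases e : (x + 1) / n = x / n
        · left; rw [e]
        · right; right
          have e2 := (jump hn e).2
          have := ix_st2 (S := S) (x := (x + 1) / n) (y := (y - 1) / n) sB.1 (isSide2.1 sB).2
            (by rw [e2, add_sub_cancel_right]; exact sA.1)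
            (by rw [e2, add_sub_cancel_right]; exact (isSide2.1 sA).2)
          rw [e2, add_sub_cancel_right, ← e2] at this
          exact this

end CK

/-! ### Corners -/

/-- the corner between the sides `(c, k)` and `(c, k + 1)` -/
def mk0 (n : ℤ) (c : Cell) (k : ℤ) : Mark where
  u := if k % 4 = 0 ∨ k % 4 = 1 then n * c.1 + n else n * c.1 - 1
  v := if k % 4 = 1 ∨ k % 4 = 2 then n * c.2 + n else n * c.2 - 1
  sx := if k % 4 = 0 ∨ k % 4 = 1 then -1 else 1
  sy := if k % 4 = 1 ∨ k % 4 = 2 then -1 else 1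

/-- **The corner at the vertex `i + 1`.** -/
def mkv (S : Shape) (n : ℤ) (i : ℕ) : Mark := mk0 n (S.P.side i).1 (S.P.side i).2

lemma mk0_mod (h : (k - k2) % 4 = 0) : mk0 n c k = mk0 n c k2 := by
  have e : k % 4 = k2 % 4 := by omega
  unfold mk0
  rw [e]

/-- convex corner of cells -/
def CvC (S : Shape) (c : Cell) (s s' : ℤ) : Prop :=
  c ∈ S.P.Q ∧ (c.1 - s, c.2) ∉ S.P.Q ∧ (c.1, c.2 - s') ∉ S.P.Q ∧ (c.1 - s, c.2 - s') ∉ S.P.Q

lemma next_cv {a b : ℤ} (h1 : (a, b) + dir k + dir (k - 1) ∉ S.P.Q) (h2 : (a, b) + dir k ∉ S.P.Q) :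
    nextSide S.P.Q ((a, b), k) = ((a, b), k + 1) := by
  unfold nextSide
  simp only
  rw [if_neg h1, if_neg h2]

lemma cv_next {a b : ℤ} (h : nextSide S.P.Q ((a, b), k) = ((a, b), k + 1)) :
    (a, b) + dir k + dir (k - 1) ∉ S.P.Q ∧ (a, b) + dir k ∉ S.P.Q := by
  unfold nextSide at h
  simp only at h
  split_ifs at h with h1 h2
  · rw [Prod.mk.injEq] at h
    omega
  · rw [Prod.mk.injEq] at h
    omega
  · exact ⟨h1, h2⟩

lemma cvc_side {a b k : ℤ} (hk : k = 0 ∨ k = 1 ∨ k = 2 ∨ k = 3) :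
    (IsSide S.P.Q ((a, b), k) ∧ nextSide S.P.Q ((a, b), k) = ((a, b), k + 1)) ↔
      CvC S (a, b) (mk0 n (a, b) k).sx (mk0 n (a, b) k).sy := by
  have key : (IsSide S.P.Q ((a, b), k) ∧ nextSide S.P.Q ((a, b), k) = ((a, b), k + 1)) ↔
      (IsSide S.P.Q ((a, b), k) ∧ (a, b) + dir k + dir (k - 1) ∉ S.P.Q ∧ (a, b) + dir k ∉ S.P.Q) :=
    and_congr_right fun _ => ⟨cv_next, fun h => next_cv h.1 h.2⟩
  rw [key]
  unfold CvC mk0
  rcases hk with rfl | rfl | rfl | rfl
  · rw [isSide0]; simp [dir, ← sub_eq_add_neg]; tauto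
  · rw [isSide1]; simp [dir]; tauto
  · rw [isSide2]; simp [dir, ← sub_eq_add_neg]; tauto
  · rw [isSide3]; simp [dir, ← sub_eq_add_neg]; tauto

/-- the corner of a convex corner of cells -/
theorem cvx_of (hn : 4 ≤ n) {a b s s' : ℤ} (hs : s = 1 ∨ s = -1) (hs' : s' = 1 ∨ s' = -1)
    (h : CvC S (a, b) s s') : Mark.Cvx (TT S n)
      ⟨if s = 1 then n * a - 1 else n * a + n, if s' = 1 then n * b - 1 else n * b + n, s, s'⟩ := by
  have hn0 : 0 < n := by omega
  have key : ∀ a s : ℤ, (s = 1 ∨ s = -1) → ((if s = 1 then n * a - 1 else n * a + n) + s) / n = a ∧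
      (if s = 1 then n * a - 1 else n * a + n) / n = a - s := by
    intro a s hs
    have e1 : n * (a - 1) = n * a - n := by ring
    have e2 : n * (a + 1) = n * a + n := by ring
    rcases hs with rfl | rfl
    · rw [if_pos rfl, dvi hn0, dvi hn0]
      omega
    · rw [if_neg (by norm_num), dvi hn0, dvi hn0, sub_neg_eq_add]
      omega
  obtain ⟨a1, a2⟩ := key a s hs
  obtain ⟨b1, b2⟩ := key b s' hs'
  obtain ⟨h1, h2, h3, h4⟩ := h
  refine TT_cvx hn _ _ _ _ hs hs' ?_ ?_ ?_ ?_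
  · rw [tT, a1, b1]; exact h1
  · rw [tT, a1, b2]; exact h3
  · rw [tT, a2, b1]; exact h2
  · rw [tT, a2, b2]; exact h4

/-- a convex corner is a convex corner of cells -/
theorem of_cvx (hn : 4 ≤ n) {m : Mark} (hm : Mark.Cvx (TT S n) m) :
    CvC S ((m.u + m.sx) / n, (m.v + m.sy) / n) m.sx m.sy ∧
      m.u = (if m.sx = 1 then n * ((m.u + m.sx) / n) - 1 else n * ((m.u + m.sx) / n) + n) ∧
      m.v = (if m.sy = 1 then n * ((m.v + m.sy) / n) - 1 else n * ((m.v + m.sy) / n) + n) := by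
  have hn0 : 0 < n := by omega
  have hr := tT.1 hm.room
  have hh := tT.not.1 hm.nh
  have hv := tT.not.1 hm.nv
  have hd := tT.not.1 hm.nd
  have n1 : m.u / n ≠ (m.u + m.sx) / n := fun h => hv (h ▸ hr)
  have n2 : m.v / n ≠ (m.v + m.sy) / n := fun h => hh (h ▸ hr)
  have key : ∀ u s : ℤ, (s = 1 ∨ s = -1) → u / n ≠ (u + s) / n → u / n = (u + s) / n - s ∧
      u = (if s = 1 then n * ((u + s) / n) - 1 else n * ((u + s) / n) + n) := by
    intro u s hs h
    rcases hs with rfl | rfl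
    · obtain ⟨e1, e2⟩ := jump hn (x := u) (fun h' => h h'.symm)
      have e : n * (u / n + 1) = n * (u / n) + n := by ring
      rw [if_pos rfl, e2]
      omega
    · have e0 : u + -1 + 1 = u := by ring
      obtain ⟨e1, e2⟩ := jump hn (x := u + -1) (by rw [e0]; exact h)
      rw [e0] at e2
      rw [if_neg (by norm_num)]
      omega
  obtain ⟨a1, a2⟩ := key m.u m.sx hm.1 n1
  obtain ⟨b1, b2⟩ := key m.v m.sy hm.2.1 n2
  rw [a1] at hv hd
  rw [b1] at hh hd
  exact ⟨⟨hr, hv, hh, hd⟩, a2, b2⟩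

/-- the number of the corner -/
theorem cvx_k (hn : 4 ≤ n) {m : Mark} (hm : Mark.Cvx (TT S n) m) : ∃ (c : Cell) (k : ℤ),
    (k = 0 ∨ k = 1 ∨ k = 2 ∨ k = 3) ∧ m = mk0 n c k ∧ IsSide S.P.Q (c, k) ∧
    nextSide S.P.Q (c, k) = (c, k + 1) ∧
    ((ix S n m.u m.v = sx S.P c k ∧ ix S n (m.u + m.sx) m.v = sx S.P c (k + 1)) ∨
      (ix S n m.u m.v = sx S.P c (k + 1) ∧ ix S n (m.u + m.sx) m.v = sx S.P c k)) := by
  obtain ⟨h1, h2, h3⟩ := of_cvx hn hm
  have d1 := ixD hm
  have d2 := ixH hm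
  have k1 := hm.1
  have k2 := hm.2.1
  set a := (m.u + m.sx) / n with ha
  set b := (m.v + m.sy) / n with hb
  obtain ⟨u, v, p, q⟩ := m
  simp only at h1 h2 h3 d1 d2 k1 k2 ⊢
  rcases k1 with rfl | rfl <;> rcases k2 with rfl | rfl
  · -- lower left
    have e : mk0 n (a, b) 3 = ⟨u, v, 1, 1⟩ := by
      unfold mk0; simp only [if_true] at h2 h3 ⊢; rw [Mark.mk.injEq]; norm_num; omega
    have s := (cvc_side (n := n) (S := S) (a := a) (b := b) (k := 3) (by norm_num)).2 (by rw [e]; exact h1)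
    refine ⟨(a, b), 3, by norm_num, e.symm, s.1, s.2, Or.inl ⟨by rw [d1, if_pos rfl], ?_⟩⟩
    rw [d2, if_pos rfl]
    exact sx_mod (by norm_num)
  · -- upper left
    have e : mk0 n (a, b) 2 = ⟨u, v, 1, -1⟩ := by
      unfold mk0; simp only [if_true] at h2 h3 ⊢; rw [Mark.mk.injEq]; norm_num at h3 ⊢; omega
    have s := (cvc_side (n := n) (S := S) (a := a) (b := b) (k := 2) (by norm_num)).2 (by rw [e]; exact h1)
    exact ⟨(a, b), 2, by norm_num, e.symm, s.1, s.2, Or.inr ⟨by rw [d1, if_pos rfl]; rfl,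
      by rw [d2, if_neg (by norm_num)]⟩⟩
  · -- lower right
    have e : mk0 n (a, b) 0 = ⟨u, v, -1, 1⟩ := by
      unfold mk0; simp only [if_true] at h2 h3 ⊢; rw [Mark.mk.injEq]; norm_num at h2 ⊢; omega
    have s := (cvc_side (n := n) (S := S) (a := a) (b := b) (k := 0) (by norm_num)).2 (by rw [e]; exact h1)
    exact ⟨(a, b), 0, by norm_num, e.symm, s.1, s.2, Or.inr ⟨by rw [d1, if_neg (by norm_num)]; rfl,
      by rw [d2, if_pos rfl]⟩⟩
  · -- upper right
    have e : mk0 n (a, b) 1 = ⟨u, v, -1, -1⟩ := by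
      unfold mk0; simp only at h2 h3 ⊢; rw [Mark.mk.injEq]; norm_num at h2 h3 ⊢; omega
    have s := (cvc_side (n := n) (S := S) (a := a) (b := b) (k := 1) (by norm_num)).2 (by rw [e]; exact h1)
    exact ⟨(a, b), 1, by norm_num, e.symm, s.1, s.2, Or.inl ⟨by rw [d1, if_neg (by norm_num)],
      by rw [d2, if_neg (by norm_num)]; rfl⟩⟩

/-- the corner of a convex vertex -/
theorem cvx_mk0 (hn : 4 ≤ n) (hs : IsSide S.P.Q (c, k)) (h : nextSide S.P.Q (c, k) = (c, k + 1)) :
    Mark.Cvx (TT S n) (mk0 n c k) := by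
  obtain ⟨a, b⟩ := c
  have e : (k - k % 4) % 4 = 0 := by omega
  rw [mk0_mod e]
  have hk : k % 4 = 0 ∨ k % 4 = 1 ∨ k % 4 = 2 ∨ k % 4 = 3 := by omega
  have h1 := (isSide_mod e).1 hs
  have h2 := next_mod (k' := k % 4) (by omega) h
  have h3 := (cvc_side (n := n) hk).1 ⟨h1, by rw [h2, Prod.mk.injEq]; exact ⟨rfl, by ring⟩⟩
  have k1 : (mk0 n (a, b) (k % 4)).sx = 1 ∨ (mk0 n (a, b) (k % 4)).sx = -1 := by
    unfold mk0; simp only; split_ifs <;> simp
  have k2 : (mk0 n (a, b) (k % 4)).sy = 1 ∨ (mk0 n (a, b) (k % 4)).sy = -1 := by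
    unfold mk0; simp only; split_ifs <;> simp
  have h4 := cvx_of hn k1 k2 h3
  have h5 : mk0 n (a, b) (k % 4) = ⟨if (mk0 n (a, b) (k % 4)).sx = 1 then n * a - 1 else n * a + n,
      if (mk0 n (a, b) (k % 4)).sy = 1 then n * b - 1 else n * b + n, (mk0 n (a, b) (k % 4)).sx,
      (mk0 n (a, b) (k % 4)).sy⟩ := by
    unfold mk0
    rw [Mark.mk.injEq]
    rcases hk with hk | hk | hk | hk <;> simp [hk]
  rw [h5]
  exact h4

lemma mkv_cvx (hn : 4 ≤ n) {i : ℕ} (hc : S.P.side (i + 1) = ((S.P.side i).1, (S.P.side i).2 + 1)) :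
    Mark.Cvx (TT S n) (mkv S n i) := by
  refine cvx_mk0 hn (side_isSide S.P i) ?_
  have : S.P.side (i + 1) = nextSide S.P.Q (S.P.side i) := Function.iterate_succ_apply' _ _ _
  rw [← this]
  exact hc

/-- `mk0` determines the side -/
lemma mk0_inj (hn : 4 ≤ n) {c' : Cell} {k' : ℤ} (h : mk0 n c k = mk0 n c' k') : c = c' ∧ (k - k') % 4 = 0 := by
  have hn0 : n ≠ 0 := by omega
  unfold mk0 at h
  rw [Mark.mk.injEq] at h
  obtain ⟨h1, h2, h3, h4⟩ := h
  have a1 : n * c.1 = n * c'.1 := by split_ifs at h1 h3 <;> omega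
  have a2 : n * c.2 = n * c'.2 := by split_ifs at h2 h4 <;> omega
  refine ⟨Prod.ext (mul_left_cancel₀ hn0 a1) (mul_left_cancel₀ hn0 a2), ?_⟩
  split_ifs at h3 h4 <;> omega

lemma mkv_inj (hn : 4 ≤ n) {i j : ℕ} (hi : i < S.N) (hj : j < S.N) (h : mkv S n i = mkv S n j) : i = j := by
  obtain ⟨h1, h2⟩ := mk0_inj hn h
  exact S.P.inj _ hi _ hj h1 h2

lemma mkv_sx {i : ℕ} (hi : i < S.N) (h1 : (S.P.side i).1 = c) (h2 : ((S.P.side i).2 - k) % 4 = 0) :
    mkv S n i = mk0 n c k ∧ sx S.P c k = i := by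
  refine ⟨?_, sx_eq hi h1 h2⟩
  unfold mkv
  rw [h1]
  exact mk0_mod h2

/-- the marks of the shape -/
def mks (S : Shape) (n : ℤ) (j : Fin 3) : Mark := mkv S n (mkI S j)

lemma mkI_lt (S : Shape) (j : Fin 3) : mkI S j < S.N := by
  have a1 := S.h02; have a2 := S.h23; have a3 := S.h34; have a4 := S.P.hmN
  have a5 : S.N = S.P.N := rfl
  unfold mkI
  split_ifs <;> omega

lemma mkI_mark (S : Shape) (j : Fin 3) : mkI S j + 1 = S.m2 ∨ mkI S j + 1 = S.m3 ∨ mkI S j + 1 = S.N := by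
  have a1 := S.h02; have a2 := S.h23; have a3 := S.h34; have a4 := S.P.hmN
  have a5 : S.N = S.P.N := rfl
  unfold mkI
  split_ifs <;> omega

lemma mkI_of {i : ℕ} (h : i + 1 = S.m2 ∨ i + 1 = S.m3 ∨ i + 1 = S.N) : ∃ j, mkI S j = i := by
  rcases h with h | h | h
  · exact ⟨1, by unfold mkI; simp; omega⟩
  · exact ⟨2, by unfold mkI; simp; omega⟩
  · exact ⟨0, by unfold mkI; simp; omega⟩

lemma mkI_inj (S : Shape) : Function.Injective (mkI S) := by
  have a1 := S.h02; have a2 := S.h23; have a3 := S.h34; have a4 := S.P.hmN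
  have a5 : S.N = S.P.N := rfl
  intro i j h
  unfold mkI at h
  fin_cases i <;> fin_cases j <;> simp at h ⊢ <;> omega

lemma mks_inj (hn : 4 ≤ n) : Function.Injective (mks S n) := fun i j h =>
  mkI_inj S (mkv_inj hn (mkI_lt S i) (mkI_lt S j) h)

lemma mks_cvx (hn : 4 ≤ n) (j : Fin 3) : Mark.Cvx (TT S n) (mks S n j) := by
  refine mkv_cvx hn (S.cvx _ ?_)
  have := mkI_mark S j
  have a5 : S.N = S.P.N := rfl
  tauto

/-- **The colours at a corner** -/
theorem CK.corner {c0 : Cell} (H : CK S n κ t c0 X r) {m : Mark} (hm : Mark.Cvx (TT S n) m) :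
    ∃ i < S.N, m = mkv S n i ∧ ((κ (ix S n m.u m.v) m.v ↔ κ (ix S n (m.u + m.sx) m.v) m.v) ↔
      ¬ (i + 1 = S.m2 ∨ i + 1 = S.m3 ∨ i + 1 = S.N)) := by
  have hn := H.hn
  have hr1 := H.r1
  have hr2 := H.r2
  have a1 := S.h02; have a2 := S.h23; have a3 := S.h34; have a4 := S.P.hmN
  have a5 : S.N = S.P.N := rfl
  obtain ⟨c, k, hk, hmk, hs, hnx, hix⟩ := cvx_k hn hm
  obtain ⟨s1, s2, s3⟩ := sx_spec hs
  have hs2 : IsSide S.P.Q (c, k + 1) := by
    have := Pool.Agent.Q1.M4.isSide_next hs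
    rwa [hnx] at this
  have hcv := ix_cv hs hnx
  have hv : m.v = if k % 4 = 1 ∨ k % 4 = 2 then n * c.2 + n else n * c.2 - 1 := by rw [hmk]; rfl
  have g1 : t = sx S.P c k → r < m.v := by
    intro h
    obtain ⟨e1, e2⟩ := H.ti hs h
    rw [hv, e1, if_pos (by omega)]
    omega
  have g2 : t = sx S.P c (k + 1) → ¬ r < m.v := by
    intro h
    obtain ⟨e1, e2⟩ := H.ti hs2 h
    rw [hv, e1, if_neg (by omega)]
    omega
  have ht := sx_lt H.hs
  rw [H.ht] at ht
  refine ⟨sx S.P c k, s1, ?_, ?_⟩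
  · rw [hmk]
    exact (mkv_sx s1 s2 s3).1.symm
  · generalize sx S.P c k = i at *
    generalize sx S.P c (k + 1) = j at *
    have key : (κ i m.v ↔ κ j m.v) ↔ ¬ (i + 1 = S.m2 ∨ i + 1 = S.m3 ∨ i + 1 = S.N) := by
      rw [H.hκ, H.hκ]
      omega
    rcases hix with ⟨e1, e2⟩ | ⟨e1, e2⟩
    · rw [e1, e2]; exact key
    · rw [e1, e2]; exact Iff.trans Iff.comm key

/-- **The colours of the outer tiles.** -/
theorem CK.cl {c0 : Cell} (H : CK S n κ t c0 X r) :
    Cl (TT S n) (Set.range (mks S n)) (fun x y => κ (ix S n x y) y) {(X, r)} where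
  cvx := TT_cvx H.hn
  mc := by
    rintro m ⟨j, rfl⟩
    exact mks_cvx H.hn j
  colV := fun x y s hs h1 h2 h3 => H.colV s hs h1 h2 h3
  colH := fun x y s hs h1 h2 h3 h4 => H.colH s hs h1 h2 h3 h4
  cvH := by
    intro m hm hM
    obtain ⟨i, hi, e, h⟩ := H.corner hm
    rw [h]
    intro h'
    obtain ⟨j, hj⟩ := mkI_of h'
    exact hM ⟨j, by rw [e, ← hj]; rfl⟩
  mkc := by
    rintro m ⟨j, rfl⟩
    obtain ⟨i, hi, e, h⟩ := H.corner (mks_cvx H.hn j)
    have hij : mkI S j = i := mkv_inj H.hn (mkI_lt S j) hi e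
    have := mkI_mark S j
    rw [hij] at this
    have h2 := h.not.2 (not_not.2 this)
    tauto

end Pool.Agent.H22.W.Vc
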