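import Mathlib
import Pool.Agent.H22.W.VcWld
import Pool.Agent.H2.W.OrlE

set_option autoImplicit false
open Finset

/-! # Far ends of the coherent worlds of a shape (StChd, V4)

`cl_WC` : colours as labels of `WC`. `X1_mks`, `X2_mks`, `al_mks` : the loose sides and the alive side at a mark
are 19's `X1`, `X2`, `XA`. `DH S n q X` : the row of the tile `q` ends at the wall column `X` in the interior of a
straight wall. `vh_kz`, `vh_nkz` : `VH` for the world of `q` and for the opposite colours. -/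

namespace Pool.Agent.H22.W.Vc

open Pool.Agent.H75.Perc (dir dir_cases)
open Pool.Agent.H75.TwoArm Pool.Agent.H99.W Pool.Agent.H13.W
open Pool.Agent.H33.Q1 (lt tt ct TL lt_odd tt_lt lt_tt lt_inj mem_TL LY mem_LY lt_mem_TL)
open Pool.Agent.Q1.M4 (Cell PType IsSide nextSide tail head Good)
open Pool.Agent.H21.FM (Shape)
open Pool.Agent.H68.W
open Pool.Agent.H37.W (dg)
open Pool.Agent.H74.W (Del Ex)
open Pool.Agent.H19.W (LamC WC VC sd si Tq κz mem_LamC lt_mem_LamC sd_eq X1 X2 XA tyA mkI ea we)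

variable {S : Shape} {n : ℤ} {x y r X : ℤ} {κ : ℕ → ℤ → Prop} {t : ℕ} {c c2 : Cell} {k k2 : ℤ}
  {T : ℤ → ℤ → Prop} {M : Set Mark} {cc cc' : ℤ → ℤ → Prop} {C : Set (ℤ × ℤ)}

/-! ### General facts on colours -/

theorem Cl.congr (H : Cl T M cc C) (h : ∀ x y, ¬ T x y → Tc T x y → (cc' x y ↔ cc x y)) :
    Cl T M cc' C :=
  H.tog (τ := fun _ _ => False) (fun x y h1 h2 => by rw [h x y h1 h2]; tauto)
    (fun _ _ _ _ _ _ _ => by tauto) (fun _ _ _ _ _ _ _ => Iff.rfl)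

theorem Cl.neg (H : Cl T M cc C) : Cl T M (fun x y => ¬ cc x y) C :=
  H.tog (τ := fun _ _ => True) (fun x y h1 h2 => by tauto)
    (fun _ _ _ _ _ _ _ => by tauto) (fun _ _ _ _ _ _ _ => Iff.rfl)

lemma lt_mem_WC (hn : 0 < n) (h1 : ¬ TT S n x y) (h2 : Tc (TT S n) x y) :
    lt (x, y) ∈ WC S.P n κ ↔ κ (ix S n x y) y := by
  rw [Pool.Agent.H2.W.Run.mem_WC, tt_lt, lt_mem_LamC hn]
  exact ⟨fun h => h.2.2, fun h => ⟨tc_iff.1 h2, h1, h⟩⟩

theorem cl_WC (hn : 0 < n) (H : Cl (TT S n) M (fun x y => κ (ix S n x y) y) C) :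
    Cl (TT S n) M (fun x y => lt (x, y) ∈ WC S.P n κ) C :=
  H.congr fun _ _ h1 h2 => lt_mem_WC hn h1 h2

/-! ### The loose sides -/

section
variable {h : ℕ}

lemma dg_mkv (i : ℕ) : dg S h i = (mkv S (2 * h) i).dg := by
  obtain ⟨h0, h1, h2, h3⟩ := Pool.Agent.H2.W.Run.dg_pos S h i
  unfold mkv mk0 Mark.dg
  have hk : (S.P.side i).2 = S.k i := rfl
  rw [hk]
  have hc : S.k i % 4 = 0 ∨ S.k i % 4 = 1 ∨ S.k i % 4 = 2 ∨ S.k i % 4 = 3 := by omega
  rcases hc with hc | hc | hc | hc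
  · rw [h0 hc]; simp [hc]
  · rw [h1 hc]; simp [hc]
  · rw [h2 hc]; simp [hc]
  · rw [h3 hc]; simp [hc]

lemma sy_mkv (i : ℕ) : (mkv S n i).sy = 1 ↔ ¬ (S.k i % 4 = 1 ∨ S.k i % 4 = 2) := by
  have e : (mkv S n i).sy = if S.k i % 4 = 1 ∨ S.k i % 4 = 2 then -1 else 1 := rfl
  rw [e]
  by_cases h : S.k i % 4 = 1 ∨ S.k i % 4 = 2
  · rw [if_pos h]; simp [h]
  · rw [if_neg h]; simp [h]

lemma X1_mkv (i : ℕ) : X1 S h i = (mkv S (2 * h) i).X1 := by
  unfold X1 Mark.X1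
  rw [dg_mkv]
  by_cases h : S.k i % 4 = 1 ∨ S.k i % 4 = 2
  · rw [if_pos h, if_neg (fun h' => (sy_mkv i).1 h' h)]
  · rw [if_neg h, if_pos ((sy_mkv i).2 h)]

lemma we_lt (x y : ℤ) : we (lt (x, y)) = lt (x - 1, y) := by
  unfold we lt; refine Prod.ext ?_ ?_ <;> simp only <;> ring
lemma ea_lt (x y : ℤ) : ea (lt (x, y)) = lt (x + 1, y) := by
  unfold ea lt; refine Prod.ext ?_ ?_ <;> simp only <;> ring

lemma hn_mkv (i : ℕ) : (mkv S n i).hn = if S.k i % 4 = 0 ∨ S.k i % 4 = 1 then we (mkv S n i).dg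
    else ea (mkv S n i).dg := by
  unfold Mark.hn Mark.dg
  rw [we_lt, ea_lt]
  unfold mkv mk0
  have hk : (S.P.side i).2 = S.k i := rfl
  rw [hk]
  by_cases h : S.k i % 4 = 0 ∨ S.k i % 4 = 1
  · simp only [h, if_true]; rfl
  · simp only [h, if_false]

lemma X2_mkv (i : ℕ) : X2 S h i = (mkv S (2 * h) i).X2 := by
  unfold X2 Mark.X2
  rw [dg_mkv, hn_mkv]
  have hs := sy_mkv (S := S) (n := 2 * h) i
  have hc : S.k i % 4 = 0 ∨ S.k i % 4 = 1 ∨ S.k i % 4 = 2 ∨ S.k i % 4 = 3 := by omega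
  rcases hc with hc | hc | hc | hc
  · rw [if_pos (hs.2 (by omega))]; simp [hc]
  · rw [if_neg (fun h' => hs.1 h' (by omega))]; simp [hc]
  · rw [if_neg (fun h' => hs.1 h' (by omega))]; simp [hc]
  · rw [if_pos (hs.2 (by omega))]; simp [hc]

/-- **The alive side is 19's `XA`.** -/
theorem al_mkv {i : ℕ} {w : Finset (ℤ × ℤ)}
    (h1 : (mkv S (2 * h) i).dg ∈ w ↔ (mkv S (2 * h) i).dg ∈ WC S.P (2 * h) κ)
    (h2 : (mkv S (2 * h) i).dg ∈ w ↔ (mkv S (2 * h) i).hn ∉ w) :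
    (mkv S (2 * h) i).al w = XA S h κ i := by
  unfold Mark.al XA tyA
  rw [X1_mkv, X2_mkv, dg_mkv]
  have e1 : ((mkv S (2 * h) i).hn ∈ w) ↔ (mkv S (2 * h) i).dg ∉ WC S.P (2 * h) κ := by
    rw [← h1, h2, not_not]
  have e2 : ((mkv S (2 * (h : ℤ)) i).pi - (mkv S (2 * h) i).pj) % 2 = 1 ↔
      (S.k i % 2 = 1 ↔ (mkv S (2 * h) i).dg.1 % 2 = 1) := by
    unfold Mark.pi Mark.pj Mark.dg mkv mk0 lt
    have hk : (S.P.side i).2 = S.k i := rfl
    rw [hk]
    have hc : S.k i % 4 = 0 ∨ S.k i % 4 = 1 ∨ S.k i % 4 = 2 ∨ S.k i % 4 = 3 := by omega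
    rcases hc with hc | hc | hc | hc <;> simp [hc] <;> omega
  have key : (((mkv S (2 * h) i).hn ∈ w) ↔ ((mkv S (2 * (h : ℤ)) i).pi - (mkv S (2 * h) i).pj) % 2 = 1) ↔
      (S.k i % 2 = 1 ↔ ((mkv S (2 * h) i).dg.1 % 2 = 1 ↔ (mkv S (2 * h) i).dg ∉ WC S.P (2 * h) κ)) := by
    rw [e1, e2]
    tauto
  by_cases hh : (((mkv S (2 * h) i).hn ∈ w) ↔
      ((mkv S (2 * (h : ℤ)) i).pi - (mkv S (2 * h) i).pj) % 2 = 1)
  · rw [if_pos hh, if_pos (key.1 hh)]
  · rw [if_neg hh, if_neg (fun h' => hh (key.2 h'))]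

end

/-! ### The world of a tile -/

/-- **The row of `q` ends at the column `X`**, in the interior of a straight wall. -/
structure DH (S : Shape) (n : ℤ) (q : ℤ × ℤ) (X : ℤ) : Prop where
  q0 : TT S n (q.1 - 1) q.2
  q1 : q.1 ≤ X
  q2 : ∀ x, q.1 ≤ x → x < X → TT S n x q.2
  q3 : ∀ y, q.2 - 1 ≤ y → y ≤ q.2 + 1 → ¬ TT S n X y
  q4 : ∀ y, q.2 - 1 ≤ y → y ≤ q.2 + 1 → TT S n (X - 1) y

section
variable {q : ℤ × ℤ} {z : ℤ × ℤ}

namespace DH
variable (H : DH S n q X)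
include H

lemma wall (hn : 4 ≤ n) : X = n * ((X - 1) / n) + n ∧ X / n = (X - 1) / n + 1 :=
  wR hn (H.q4 q.2 (by omega) (by omega)) (H.q3 q.2 (by omega) (by omega))

/-- the wall is thick -/
lemma thick (hn : 4 ≤ n) {d y : ℤ} (h0 : 0 ≤ d) (h1 : d ≤ 3) (h2 : q.2 - 1 ≤ y) (h3 : y ≤ q.2 + 1) :
    ¬ TT S n (X + d) y := by
  have hn0 : 0 < n := by omega
  obtain ⟨e1, e2⟩ := H.wall hn
  have e : (X + d) / n = X / n := by
    rw [dvi hn0, e2]
    have : n * ((X - 1) / n + 1) = n * ((X - 1) / n) + n := by ring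
    omega
  have := H.q3 y h2 h3
  rw [tT] at this ⊢
  rw [e]
  exact this

lemma mem_Del : ∀ x y, lt (x, y) ∈ Del S.P.Q n q ↔ y = q.2 ∧ q.1 ≤ x ∧ x ≤ X := by
  intro x y
  unfold Del
  rw [Set.mem_ofPred_eq, tt_lt]
  simp only
  constructor
  · rintro ⟨-, h1, h2, h3⟩
    refine ⟨h1, h2, ?_⟩
    by_contra h
    exact H.q3 q.2 (by omega) (by omega) (h3 X H.q1 (by omega))
  · rintro ⟨h1, h2, h3⟩
    exact ⟨lt_odd _, h1, h2, fun x' a b => H.q2 x' a (by omega)⟩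

/-- the deleted row -/
theorem dc (hn : 4 ≤ n) : DC (TT S n) (Del S.P.Q n q) {(X, q.2)} (eW (lt q)) := by
  have hq1 := H.q1
  refine ⟨?_, ?_, ?_, ?_, ?_⟩
  · intro x y h
    simp only [Set.mem_singleton_iff, Prod.mk.injEq] at h
    left; rw [H.mem_Del]; omega
  · intro x y h e1 _
    rw [H.mem_Del] at h
    obtain ⟨rfl, a1, a2⟩ := h
    have hx : x = X := by
      by_contra hx
      exact e1 (H.q2 x a1 (by omega))
    subst hx
    refine ⟨-1, Or.inr rfl, ⟨H.q4 _ (by omega) (by omega), H.q4 _ (by omega) (by omega),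
      H.q4 _ (by omega) (by omega)⟩, ⟨?_, ?_, ?_⟩, ⟨H.q3 _ (by omega) (by omega), ?_⟩,
      ⟨H.q3 _ (by omega) (by omega), ?_⟩, ?_⟩
    · rw [sub_neg_eq_add]; exact H.thick hn (by omega) (by omega) (by omega) (by omega)
    · rw [sub_neg_eq_add]; exact H.thick hn (by omega) (by omega) (by omega) (by omega)
    · rw [sub_neg_eq_add]; exact H.thick hn (by omega) (by omega) (by omega) (by omega)
    · rw [H.mem_Del]; omega
    · rw [H.mem_Del]; omega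
    · refine ⟨fun _ h => ?_, fun _ => rfl⟩
      simp only [Set.mem_singleton_iff, Prod.mk.injEq] at h; omega
  · intro x y h _
    rw [H.mem_Del] at h ⊢
    obtain ⟨rfl, a1, a2⟩ := h
    by_cases hx : x = X
    · right
      rintro ⟨a, b, h1, h2, h3⟩
      refine H.thick hn (d := a - X) (by omega) (by omega) (y := b) (by omega) (by omega) ?_
      rw [show X + (a - X) = a by ring]; exact h3
    · left; omega
  · intro x y h _
    rw [H.mem_Del] at h ⊢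
    obtain ⟨rfl, a1, a2⟩ := h
    by_cases hx : x = q.1
    · right; right
      exact ⟨by rw [hx], by rw [hx]; exact H.q0⟩
    · left; omega
  · exact ⟨q.1, q.2, rfl, (H.mem_Del _ _).2 ⟨rfl, le_rfl, hq1⟩, H.q0, fun h => by
      rw [H.mem_Del] at h; omega⟩

end DH

lemma fin_TT (hn : 0 < n) : (Ld (TT S n)).Finite := by
  rw [Ld_TT hn]
  exact (LamC S.P.Q n).finite_toSet

section kz
variable {h : ℕ} (hh : 2 ≤ h) (H : DH S (2 * h) q X)
include hh H

lemma ex_iff (t : ℕ) : Ex S h q t ↔ t = sx S.P ((X - 1) / (2 * h), q.2 / (2 * h)) 1 := by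
  have hn0 : (0 : ℤ) < 2 * h := by omega
  have hn : (4 : ℤ) ≤ 2 * h := by omega
  obtain ⟨e1, e2⟩ := H.wall hn
  have h0 := H.q3 q.2 (by omega) (by omega)
  have h1 := H.q4 q.2 (by omega) (by omega)
  have hs : IsSide S.P.Q (((X - 1) / (2 * h), q.2 / (2 * h)), 1) := by
    rw [isSide1, ← e2]
    exact ⟨h1, h0⟩
  have hdir : ∀ k : ℤ, k % 4 = 1 → dir (k - 1) = (1, 0) := by
    intro k hk
    have : (k - 1) % 4 = 0 := by omega
    rcases dir_cases (k - 1) with ⟨a, b⟩ | ⟨a, b⟩ | ⟨a, b⟩ | ⟨a, b⟩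
    · exact b
    all_goals omega
  unfold Ex
  constructor
  · rintro ⟨a1, a2, e, a3, a4⟩
    rw [mem_LY hn0] at a4
    obtain ⟨b1, b2, b3⟩ := a4
    have hk : (S.P.side t).2 % 4 = 1 := a2
    rw [hdir _ hk] at b2 b3
    obtain ⟨-, d2, d3, d4⟩ := a3
    have hX : (tt e).1 = X := by
      rcases lt_trichotomy (tt e).1 X with g | g | g
      · exfalso
        have g2 := H.q2 _ d3 g
        have g3 : IsSide S.P.Q (S.P.side t) := side_isSide S.P t
        have g4 : (S.P.side t).1 + (1, 0) ∉ S.P.Q := by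
          have := g3.2
          rwa [hdir _ hk] at this
        apply g4
        rw [← b2]
        have : tt e = ((tt e).1, q.2) := Prod.ext rfl d2
        rw [this]
        exact g2
      · exact g
      · exact absurd (d4 X H.q1 g) h0
    have ht : tt e = (X, q.2) := Prod.ext hX d2
    rw [ht] at b3
    have hc : (S.P.side t).1 = ((X - 1) / (2 * h), q.2 / (2 * h)) := by
      rw [← b3]
      unfold ct
      simp
    exact (sx_eq a1 hc (by omega)).symm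
  · rintro rfl
    obtain ⟨s1, s2, s3⟩ := sx_spec hs
    have hk : (S.P.side (sx S.P ((X - 1) / (2 * (h : ℤ)), q.2 / (2 * h)) 1)).2 % 4 = 1 := by omega
    refine ⟨s1, hk, lt (X, q.2), (H.mem_Del _ _).2 ⟨rfl, H.q1, le_rfl⟩, ?_⟩
    rw [mem_LY hn0, tt_lt, s2, hdir _ hk]
    refine ⟨lt_odd _, ?_, ?_⟩
    · unfold ct
      refine Prod.ext ?_ ?_ <;> simp [e2]
    · unfold ct
      simp

/-- **Colours of the world of `q`** -/
theorem ck_kz : CK S (2 * h) (κz S h q) (sx S.P ((X - 1) / (2 * h), q.2 / (2 * h)) 1)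
    ((X - 1) / (2 * h), q.2 / (2 * h)) X q.2 := by
  have hn0 : (0 : ℤ) < 2 * h := by omega
  have hn : (4 : ℤ) ≤ 2 * h := by omega
  obtain ⟨e1, e2⟩ := H.wall hn
  have h0 := H.q3 q.2 (by omega) (by omega)
  have h1 := H.q4 q.2 (by omega) (by omega)
  have hr := (dvi hn0 (x := q.2) (a := q.2 / (2 * h))).1 rfl
  refine ⟨hn, ?_, ?_, rfl, e1, by simp only; omega, by simp only; omega, h0, H.q3 _ (by omega) (by omega)⟩
  · intro i y
    unfold κz
    simp only [ex_iff hh H, exists_eq_left]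
  · rw [isSide1, ← e2]
    exact ⟨h1, h0⟩

theorem cl_kz : Cl (TT S (2 * h)) (Set.range (mks S (2 * h)))
    (fun x y => lt (x, y) ∈ WC S.P (2 * h) (κz S h q)) {(X, q.2)} :=
  cl_WC (by omega) (ck_kz hh H).cl

theorem cl_nkz : Cl (TT S (2 * h)) (Set.range (mks S (2 * h)))
    (fun x y => lt (x, y) ∈ WC S.P (2 * h) (fun i y => ¬ κz S h q i y)) {(X, q.2)} :=
  cl_WC (by omega) (ck_kz hh H).cl.neg

/-- `VH` for the world of `q` -/
theorem vh_kz {ω : Finset (ℤ × ℤ)} (hω : ω ⊆ TL S.P.Q (2 * h)) :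
    VH (TT S (2 * h)) (Del S.P.Q (2 * h) q) (ω ∪ WC S.P (2 * h) (κz S h q))
      (Set.range (mks S (2 * h))) (eW (lt q)) := by
  refine (cl_kz hh H).vh (fin_TT (by omega)) (H.dc (by omega)) fun x y h1 h2 => ?_
  rw [mem_union]
  exact ⟨fun h => h.resolve_left fun h' => h1 ((lt_mem_TL (by omega)).1 (hω h')), Or.inr⟩

/-- `VH` for the opposite colours -/
theorem vh_nkz {ω : Finset (ℤ × ℤ)} (hω : ω ⊆ TL S.P.Q (2 * h)) :
    VH (TT S (2 * h)) (Del S.P.Q (2 * h) q) (ω ∪ WC S.P (2 * h) (fun i y => ¬ κz S h q i y))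
      (Set.range (mks S (2 * h))) (eW (lt q)) := by
  refine (cl_nkz hh H).vh (fin_TT (by omega)) (H.dc (by omega)) fun x y h1 h2 => ?_
  rw [mem_union]
  exact ⟨fun h => h.resolve_left fun h' => h1 ((lt_mem_TL (by omega)).1 (hω h')), Or.inr⟩

end kz

/-- **The alive side in a world of a shape is 19's `XA`.** -/
theorem al_VH {h : ℕ} {D : Set (ℤ × ℤ)} {ω : Finset (ℤ × ℤ)} (hh : 2 ≤ h) (hω : ω ⊆ TL S.P.Q (2 * h))
    (H : VH (TT S (2 * h)) D (ω ∪ WC S.P (2 * h) κ) (Set.range (mks S (2 * h))) z) (j : Fin 3) :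
    (mks S (2 * h) j).al (ω ∪ WC S.P (2 * h) κ) = XA S h κ (mkI S j) := by
  refine al_mkv ?_ (H.mkc _ ⟨j, rfl⟩)
  rw [mem_union]
  have hm := mks_cvx (S := S) (n := 2 * h) (by omega) j
  exact ⟨fun h => h.resolve_left fun h' => hm.nd ((lt_mem_TL (by omega)).1 (hω h')), Or.inr⟩

end

end Pool.Agent.H22.W.Vc
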