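import Mathlib
import Pool.Agent.H22.W.VcVC
import Pool.Agent.H13.W.VPicC

set_option autoImplicit false
open Finset

/-! # The colours of 78's picture (StChd, V4): 13's `ShC` -/

namespace Pool.Agent.H22.W.Vc

open Pool.Agent.H33.Q1 (lt tt ct TL lt_odd tt_lt lt_tt lt_inj mem_TL)
open Pool.Agent.Q1.M4 (Cell PType IsSide nextSide)
open Pool.Agent.H21.FM (Shape)
open Pool.Agent.H68.W
open Pool.Agent.H50.W (rf)
open Pool.Agent.H19.W (LamC WC)
open Pool.Agent.H78.W (Cc Rfn rfn teC v0C)
open Pool.Agent.H13.W (ShC TQ W00)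

/-- **The colours of 78's picture**, before the reflection, have one cut. -/
theorem shC {S : Shape} {N M' h : ℕ} {hM : 0 < N * M'} {sg P : Bool} {a0 be bt bw Y0 : ℤ}
    (C : Cc S.P.Q sg a0 be bt bw Y0 P) (hh : 2 ≤ h) :
    ShC (rf S (N * M') hM).P.Q (2 * h) (W00 S N M' h hM sg bw Y0) (2 * h * (N * M') * bw)
      (2 * h * (N * M') * Y0 - 1) (mks (rf S (N * M') hM) (2 * h)) := by
  have hn0 : (0 : ℤ) < 2 * h := by omega
  have hn : (4 : ℤ) ≤ 2 * h := by omega
  have hMz : (0 : ℤ) < (N : ℤ) * M' := by exact_mod_cast hM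
  have hR := rfn S hM
  set T := rf S (N * M') hM with hT
  set M : ℤ := (N : ℤ) * M' with hMdef
  have hl2 := C.l2
  have hl3 := C.l3
  -- division by `M`
  have dv : ∀ a : ℤ, (M * a) / M = a := fun a => Int.mul_ediv_cancel_left _ hMz.ne'
  have dv1 : ∀ a : ℤ, (M * a - 1) / M = a - 1 := by
    intro a
    rw [show M * a - 1 = (M - 1) + M * (a - 1) by ring, Int.add_mul_ediv_left _ _ hMz.ne',
      Int.ediv_eq_zero_of_lt (by omega) (by omega), zero_add]
  -- the two cells behind the wall are not in the shape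
  have o1 : (M * bw, M * Y0 - 1) ∉ T.P.Q := by
    rw [hR, dv, dv1]
    have h1 := C.c2'
    have h2 := C.c4'
    cases sg
    · simpa using h2
    · simpa using h1
  have o2 : (M * bw, M * Y0) ∉ T.P.Q := by
    rw [hR, dv, dv]
    have h1 := C.c2'
    have h2 := C.c4'
    cases sg
    · simpa using h1
    · simpa using h2
  have i1 : (M * bw - 1, if sg then M * Y0 - 1 else M * Y0) ∈ T.P.Q := by
    rw [hR, dv1]
    have h1 := C.c2 (bw - 1) (by omega) (by omega)
    cases sg
    · simp only [Bool.false_eq_true, if_false] at h1 ⊢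
      rw [dv]; exact h1
    · simp only [if_true] at h1 ⊢
      rw [dv1]; exact h1
  have hs : IsSide T.P.Q ((M * bw - 1, if sg then M * Y0 - 1 else M * Y0), 1) := by
    rw [isSide1, sub_add_cancel]
    refine ⟨i1, ?_⟩
    cases sg
    · simpa using o2
    · simpa using o1
  -- tiles
  have q1 : (2 * (h : ℤ) * M * bw) / (2 * h) = M * bw := by
    rw [show 2 * (h : ℤ) * M * bw = 2 * h * (M * bw) by ring]
    exact Int.mul_ediv_cancel_left _ hn0.ne'
  have q2 : (2 * (h : ℤ) * M * Y0) / (2 * h) = M * Y0 := by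
    rw [show 2 * (h : ℤ) * M * Y0 = 2 * h * (M * Y0) by ring]
    exact Int.mul_ediv_cancel_left _ hn0.ne'
  have q3 : (2 * (h : ℤ) * M * Y0 - 1) / (2 * h) = M * Y0 - 1 := by
    rw [show 2 * (h : ℤ) * M * Y0 - 1 = (2 * h - 1) + 2 * h * (M * Y0 - 1) by ring,
      Int.add_mul_ediv_left _ _ hn0.ne', Int.ediv_eq_zero_of_lt (by omega) (by omega), zero_add]
  have K : CK T (2 * h) (fun i v => Cf T (teC T sg M bw Y0) (v0C (2 * h * M) Y0) i v)
      (teC T sg M bw Y0) (M * bw - 1, if sg then M * Y0 - 1 else M * Y0) (2 * h * M * bw)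
      (2 * h * M * Y0 - 1) := by
    refine ⟨hn, fun i y => Iff.rfl, hs, rfl, by simp only; ring, ?_, ?_, ?_, ?_⟩
    · simp only
      cases sg
      · simp only [Bool.false_eq_true, if_false]
        have : 2 * (h : ℤ) * (M * Y0) = 2 * h * M * Y0 := by ring
        omega
      · simp only [if_true]
        have : 2 * (h : ℤ) * (M * Y0 - 1) = 2 * h * M * Y0 - 2 * h := by ring
        omega
    · simp only
      cases sg
      · simp only [Bool.false_eq_true, if_false]
        have : 2 * (h : ℤ) * (M * Y0) = 2 * h * M * Y0 := by ring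
        omega
      · simp only [if_true]
        have : 2 * (h : ℤ) * (M * Y0 - 1) = 2 * h * M * Y0 - 2 * h := by ring
        omega
    · rw [tT, q1, q3]; exact o1
    · rw [tT, q1, sub_add_cancel, q2]; exact o2
  exact ⟨(Ld_TT hn0).symm, cl_WC hn0 K.cl, mks_inj hn⟩

end Pool.Agent.H22.W.Vc
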